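import Pool.Agent.Lib.EFT.Frege

/-!
# Derivation lists (project EFS, row FOLD2, helper90)

`Seq 𝓡 Cl s l`: the list `l` (last line first) is a derivation from `Cl` by the rules `𝓡` with
lines of at most `s` leaves. `Der 𝓡 Cl s Γ n A`: every derivation which contains `Γ` can be
continued by at most `n` lines such that it contains `A`.
-/

set_option autoImplicit false

namespace Pool.Agent.EFS

open Pool.Agent.EFT

variable {α : Type*}

/-- Derivations, last line first, lines of at most `s` leaves. -/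
inductive Seq (𝓡 : List FrRule) (Cl : Set (Form α)) (s : ℕ) : List (Form α) → Prop
  | nil : Seq 𝓡 Cl s []
  | cl {A : Form α} {l : List (Form α)} : A ∈ Cl → A.leaves ≤ s → Seq 𝓡 Cl s l →
      Seq 𝓡 Cl s (A :: l)
  | rule {ρ : FrRule} {θ : Fin ρ.n → Form α} {l : List (Form α)} : ρ ∈ 𝓡 →
      (∀ P ∈ ρ.prem, P.subst θ ∈ l) → (ρ.concl.subst θ).leaves ≤ s → Seq 𝓡 Cl s l →
      Seq 𝓡 Cl s (ρ.concl.subst θ :: l)

/-- Every derivation containing `Γ` has a continuation by at most `n` lines containing `A`. -/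
def Der (𝓡 : List FrRule) (Cl : Set (Form α)) (s : ℕ) (Γ : Set (Form α)) (n : ℕ)
    (A : Form α) : Prop :=
  ∀ l, Seq 𝓡 Cl s l → (∀ B ∈ Γ, B ∈ l) → ∃ l', Seq 𝓡 Cl s (l' ++ l) ∧ l'.length ≤ n ∧
    A ∈ l' ++ l

section
variable {𝓡 : List FrRule} {Cl : Set (Form α)} {s : ℕ} {Γ Δ : Set (Form α)} {A B : Form α}
  {n n' : ℕ}

theorem Der.mono (h : Der 𝓡 Cl s Γ n A) (hn : n ≤ n') (hΓ : Γ ⊆ Δ) : Der 𝓡 Cl s Δ n' A := by
  intro l hl hΔ
  obtain ⟨l', h1, h2, h3⟩ := h l hl fun B hB => hΔ B (hΓ hB)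
  exact ⟨l', h1, h2.trans hn, h3⟩

theorem Der.hyp (h : A ∈ Γ) : Der 𝓡 Cl s Γ 0 A := by
  intro l hl hΓ
  exact ⟨[], hl, le_rfl, hΓ A h⟩

/-- composition -/
theorem Der.cut (h : Der 𝓡 Cl s Γ n A) (h' : Der 𝓡 Cl s (insert A Γ) n' B) :
    Der 𝓡 Cl s Γ (n + n') B := by
  intro l hl hΓ
  obtain ⟨l1, h1, h2, h3⟩ := h l hl hΓ
  obtain ⟨l2, h4, h5, h6⟩ := h' (l1 ++ l) h1 (by
    intro C hC
    rcases hC with rfl | hC
    · exact h3
    · exact List.mem_append_right _ (hΓ C hC))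
  refine ⟨l2 ++ l1, by rwa [List.append_assoc], ?_, by rwa [List.append_assoc]⟩
  rw [List.length_append]
  omega

/-- an initial clause -/
theorem Der.cl (h : A ∈ Cl) (hs : A.leaves ≤ s) : Der 𝓡 Cl s Γ 1 A := by
  intro l hl _
  exact ⟨[A], Seq.cl h hs hl, le_rfl, List.mem_cons_self⟩

/-- a rule -/
theorem Der.rule {ρ : FrRule} (hρ : ρ ∈ 𝓡) (θ : Fin ρ.n → Form α)
    (hs : (ρ.concl.subst θ).leaves ≤ s) (h : ∀ P ∈ ρ.prem, P.subst θ ∈ Γ) :
    Der 𝓡 Cl s Γ 1 (ρ.concl.subst θ) := by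
  intro l hl hΓ
  exact ⟨[_], Seq.rule hρ (fun P hP => hΓ _ (h P hP)) hs hl, le_rfl, List.mem_cons_self⟩

/-- many formulas -/
theorem Der.many {ι : Type*} (X : Finset ι) (f : ι → Form α) (h : ∀ i ∈ X, Der 𝓡 Cl s Γ n (f i))
    (l : List (Form α)) (hl : Seq 𝓡 Cl s l) (hΓ : ∀ B ∈ Γ, B ∈ l) :
    ∃ l', Seq 𝓡 Cl s (l' ++ l) ∧ l'.length ≤ X.card * n ∧ ∀ i ∈ X, f i ∈ l' ++ l := by
  classical
  induction X using Finset.induction_on with
  | empty => exact ⟨[], hl, by simp, by simp⟩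
  | insert a X ha ih =>
    obtain ⟨l1, h1, h2, h3⟩ := ih fun i hi => h i (Finset.mem_insert_of_mem hi)
    obtain ⟨l2, h4, h5, h6⟩ := h a (Finset.mem_insert_self _ _) (l1 ++ l) h1
      fun B hB => List.mem_append_right _ (hΓ B hB)
    refine ⟨l2 ++ l1, by rwa [List.append_assoc], ?_, ?_⟩
    · rw [List.length_append, Finset.card_insert_of_notMem ha, Nat.add_mul, one_mul]
      omega
    · intro i hi
      rw [List.append_assoc]
      rcases Finset.mem_insert.1 hi with rfl | hi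
      · exact h6
      · exact List.mem_append_right _ (h3 i hi)

/-- rules with derived premises -/
theorem Der.ruleD {ρ : FrRule} (hρ : ρ ∈ 𝓡) (θ : Fin ρ.n → Form α)
    (hs : (ρ.concl.subst θ).leaves ≤ s) (h : ∀ P ∈ ρ.prem, Der 𝓡 Cl s Γ n (P.subst θ)) :
    Der 𝓡 Cl s Γ (ρ.prem.length * n + 1) (ρ.concl.subst θ) := by
  classical
  intro l hl hΓ
  have key : ∀ Q : List (Form (Fin ρ.n)), (∀ P ∈ Q, Der 𝓡 Cl s Γ n (P.subst θ)) →
      ∃ l', Seq 𝓡 Cl s (l' ++ l) ∧ l'.length ≤ Q.length * n ∧ ∀ P ∈ Q, P.subst θ ∈ l' ++ l := by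
    intro Q
    induction Q with
    | nil => intro _; exact ⟨[], hl, by simp, by simp⟩
    | cons P Q ih =>
      intro hQ
      obtain ⟨l1, h1, h2, h3⟩ := ih fun P' hP' => hQ P' (List.mem_cons_of_mem _ hP')
      obtain ⟨l2, h4, h5, h6⟩ := hQ P List.mem_cons_self (l1 ++ l) h1
        fun B hB => List.mem_append_right _ (hΓ B hB)
      refine ⟨l2 ++ l1, by rwa [List.append_assoc], ?_, ?_⟩
      · rw [List.length_append, List.length_cons, Nat.add_mul, one_mul]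
        omega
      · intro P' hP'
        rw [List.append_assoc]
        rcases List.mem_cons.1 hP' with rfl | hP'
        · exact h6
        · exact List.mem_append_right _ (h3 P' hP')
  obtain ⟨l1, h1, h2, h3⟩ := key ρ.prem h
  refine ⟨ρ.concl.subst θ :: l1, Seq.rule hρ h3 hs h1, ?_, List.mem_cons_self⟩
  rw [List.length_cons]
  omega

end

end Pool.Agent.EFS
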