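import Pool.Agent.Lib.EFS.CaseLine

/-!
# All lines and the end (project EFS, row FOLD2, helper90)
-/

set_option autoImplicit false

namespace Pool.Agent.EFS

open Pool.Agent.EFT Finset

section All

variable {α : Type*} {m M : ℕ} {x0 : α} {D : Fin m → Form (α ⊕ Fin m)} {𝓡 : List FrRule}
  {Cl : Set (Form α)} {s h S r : ℕ} {Γ : Set (Form α)} {C : Fin M → Form (α ⊕ Fin m)}
  {H : Fin M → Finset (Fin m)}

theorem cs_inter {H : Finset (Fin m)} {A : Form (α ⊕ Fin m)} (hcl : Closed D H)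
    (hA : Covers H A) (τ : Finset (Fin m)) : cs x0 D H A (τ ∩ H) = cs x0 D H A τ := by
  have key : ∀ j ∈ H, (j ∈ τ ∩ H ↔ j ∈ τ) := by
    intro j hj
    rw [Finset.mem_inter]
    exact ⟨fun h => h.1, fun h => ⟨h, hj⟩⟩
  unfold cs
  rw [PP_congr (τ := τ ∩ H) (τ' := τ) (L := ord H) (fun i hi =>
    ⟨key i (mem_ord.1 hi), fun j hj => key j (hcl i (mem_ord.1 hi) j hj)⟩),
    ev_congr (τ := τ ∩ H) (τ' := τ) (f := A) (fun j hj => key j (hA j hj))]

theorem lines_upto (hD : Acyclic D) (href : IsRefutation 𝓡 Cl D C)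
    (hr : ∀ ρ ∈ 𝓡, ρ.prem.length ≤ r) (hH : ∀ t, Good D h S (H t) (C t))
    (hs : (4 * r + 12) * (S + 1) ≤ s) :
    ∀ T ≤ M, ∃ l, Seq (CR.all 𝓡) Cl s l ∧ l.length ≤ T * (2 ^ h * nl r h) ∧
      ∀ t : Fin M, t.1 < T → ∀ τ, cs x0 D (H t) (C t) τ ∈ l := by
  intro T
  induction T with
  | zero =>
    intro _
    exact ⟨[], Seq.nil, by simp, fun t ht => absurd ht (Nat.not_lt_zero _)⟩
  | succ T ih =>
    intro hT
    obtain ⟨l, h1, h2, h3⟩ := ih (by omega)
    set t : Fin M := ⟨T, hT⟩ with ht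
    have hder : ∀ τ, Der (CR.all 𝓡) Cl s {B | B ∈ l} (nl r h) (cs x0 D (H t) (C t) τ) := by
      intro τ
      have hgt := hH t
      rcases href.line t with ⟨A, hA, hC⟩ | ⟨i, hC | hC⟩ | ⟨ρ, hρ, θ, hC, hp⟩
      · rw [hC] at hgt ⊢
        exact line_clause hgt hs hA τ
      · rw [hC] at hgt ⊢
        exact line_ext hgt hs τ
      · rw [hC] at hgt ⊢
        exact line_ext' hgt hs τ
      · rw [hC] at hgt ⊢
        have : Nonempty (Fin M) := ⟨t⟩
        choose! f hf1 hf2 using hp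
        refine line_rule hD hρ (hr ρ hρ) θ hgt (fun P => H (f P)) ?_ ?_ hs τ
        · intro P hP
          have h4 := hH (f P)
          rw [hf2 P hP] at h4
          exact h4
        · intro P hP τ'
          have h4 := h3 (f P) (hf1 P hP) τ'
          rw [hf2 P hP] at h4
          exact h4
    obtain ⟨l', h4, h5, h6⟩ := Der.many (H t).powerset (fun τ => cs x0 D (H t) (C t) τ)
      (fun τ _ => hder τ) l h1 (fun B hB => hB)
    refine ⟨l' ++ l, h4, ?_, ?_⟩
    · rw [List.length_append, Nat.add_mul, one_mul]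
      rw [Finset.card_powerset] at h5
      have h7 : 2 ^ (H t).card * nl r h ≤ 2 ^ h * nl r h :=
        Nat.mul_le_mul_right _ (Nat.pow_le_pow_right (by norm_num) (hH t).card)
      omega
    · intro t' ht' τ
      by_cases hlt : t'.1 < T
      · exact List.mem_append_right _ (h3 t' hlt τ)
      · have e : t' = t := Fin.ext (by
          show t'.1 = T
          omega)
        rw [e, ← cs_inter (hH t).closed (hH t).covers τ]
        exact h6 _ (Finset.mem_powerset.2 Finset.inter_subset_right)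

/-- The formula `¬ (x → x)` from a contradiction `A, ¬ A`. -/
theorem end_one (hD : Acyclic D) {A : Form (α ⊕ Fin m)} {H1 H2 : Finset (Fin m)}
    (g1 : Good D h S H1 A) (g2 : Good D h S H2 (.neg A))
    (hs : (4 * r + 12) * (S + 1) ≤ s)
    (h1 : ∀ τ, cs x0 D H1 A τ ∈ Γ) (h2 : ∀ τ, cs x0 D H2 (.neg A) τ ∈ Γ) :
    Der (CR.all 𝓡) Cl s Γ (2 ^ (2 * h) * (4 * h ^ 2 + 2 * h + 6) + 1) (CR.ff (.var x0)) := by
  classical
  set Hn := H1 ∪ H2 with hHn
  have hS : 12 * (S + 1) ≤ s := le_trans (Nat.mul_le_mul_right _ (by omega)) hs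
  have hsum : ∑ i ∈ Hn, (D i).leaves ≤ 2 * S - A.leaves - A.leaves := by
    have e := Finset.sum_union_inter (s₁ := H1) (s₂ := H2) (f := fun i => (D i).leaves)
    have e1 := g1.size
    have e2 : A.leaves + ∑ i ∈ H2, (D i).leaves ≤ S := g2.size
    rw [← hHn] at e
    omega
  have hA1 := g1.size
  have hcard : Hn.card ≤ 2 * h := by
    refine (Finset.card_union_le _ _).trans ?_
    have := g1.card
    have := g2.card
    omega
  have b2 : ∀ τ, (ev x0 τ A).leaves ≤ 2 * A.leaves := fun τ => leaves_ev τ A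
  have hweak : ∀ τ, ∀ B, ∀ H0, H0 ⊆ Hn → H0.card ≤ h → (ev x0 τ B).leaves ≤ 2 * A.leaves →
      cs x0 D H0 B τ ∈ Γ →
      Der (CR.all 𝓡) Cl s Γ (2 * h ^ 2 + h + 2) (.imp (PP x0 D τ (ord Hn)) (ev x0 τ B)) := by
    intro τ B H0 hsub hc hB hmem
    have c1 := leaves_PP_ord (x0 := x0) (D := D) τ Hn
    have c2 := leaves_PP_ord (x0 := x0) (D := D) τ H0
    have c3 : ∑ i ∈ H0, (D i).leaves ≤ ∑ i ∈ Hn, (D i).leaves :=
      Finset.sum_le_sum_of_subset hsub
    have c1' : (CR.conj (.var x0) ((ord Hn).map (guard x0 D τ))).leaves ≤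
      2 + 2 * ∑ i ∈ Hn, (D i).leaves := c1
    have c2' : (CR.conj (.var x0) ((ord H0).map (guard x0 D τ))).leaves ≤
      2 + 2 * ∑ i ∈ H0, (D i).leaves := c2
    refine (der_weaken (L' := (ord H0).map (guard x0 D τ))
      (L := (ord Hn).map (guard x0 D τ)) (n := 0) ?_ ?_ ?_ ?_).mono ?_ subset_rfl
    · intro a ha
      obtain ⟨i, hi, rfl⟩ := List.mem_map.1 ha
      exact List.mem_map_of_mem (mem_ord.2 (hsub (mem_ord.1 hi)))
    · omega
    · omega
    · exact Der.hyp hmem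
    · rw [List.length_map, List.length_map, length_ord, length_ord]
      have := Nat.mul_le_mul hc (Nat.add_le_add_right hcard 1)
      have e : h * (2 * h + 1) = 2 * h ^ 2 + h := by ring
      omega
  have hcon : ∀ τ, Der (CR.all 𝓡) Cl s Γ (4 * h ^ 2 + 2 * h + 5)
      (.imp (PP x0 D τ (ord Hn)) (CR.ff (.var x0))) := by
    intro τ
    have c1 := leaves_PP_ord (x0 := x0) (D := D) τ Hn
    have d1 := hweak τ A H1 Finset.subset_union_left g1.card (b2 τ) (h1 τ)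
    have d2 := hweak τ (.neg A) H2 Finset.subset_union_right g2.card (b2 τ) (h2 τ)
    refine (der_contr (y := .var x0) ?_ d1 d2).mono ?_ subset_rfl
    · show _ + 2 * 1 ≤ s
      omega
    · omega
  have hfin := elim_list (x0 := x0) (Ht := ∅) hD closed_empty
    (A := CR.ff (.var (Sum.inl x0))) (R := [])
    (by
      intro j hj
      have hj' : (Sum.inl x0 : α ⊕ Fin m) = Sum.inr j ∨ (Sum.inl x0 : α ⊕ Fin m) = Sum.inr j := hj
      simp at hj')
    (fun i hi => absurd hi List.not_mem_nil) (ord Hn) _ (ord_pairwise _)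
    (fun i _ => Finset.notMem_empty i) (s := s)
    (by
      rw [List.append_nil, sum_ord]
      show 2 + 2 * (∑ i ∈ Hn, (D i).leaves) + 2 * (1 + 1) ≤ s
      omega)
    (by
      intro τ
      rw [List.append_nil]
      exact hcon τ) ∅
  have hfin' : Der (CR.all 𝓡) Cl s Γ (2 ^ (ord Hn).length * (4 * h ^ 2 + 2 * h + 5 + 1))
      (.imp (CR.tt (.var x0)) (CR.ff (.var x0))) := hfin
  refine (der_fin ?_ hfin').mono ?_ subset_rfl
  · show 1 + 1 ≤ s
    omega
  · have h3 : 2 ^ (ord Hn).length ≤ 2 ^ (2 * h) :=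
      Nat.pow_le_pow_right (by norm_num) (by rw [length_ord]; exact hcard)
    have e := Nat.mul_le_mul_right (4 * h ^ 2 + 2 * h + 5 + 1) h3
    have e' : 4 * h ^ 2 + 2 * h + 5 + 1 = 4 * h ^ 2 + 2 * h + 6 := rfl
    rw [e'] at e ⊢
    omega

theorem leaves_lift (A : Form α) : (A.lift : Form (α ⊕ Fin m)).leaves = A.leaves := by
  unfold Form.lift
  induction A with
  | var x => rfl
  | neg f ih => exact ih
  | and f g ihf ihg => exact congrArg₂ (· + ·) ihf ihg
  | or f g ihf ihg => exact congrArg₂ (· + ·) ihf ihg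
  | imp f g ihf ihg => exact congrArg₂ (· + ·) ihf ihg

theorem not_occ_lift (A : Form α) (j : Fin m) : ¬ (A.lift : Form (α ⊕ Fin m)).Occ (Sum.inr j) := by
  unfold Form.lift
  induction A with
  | var x =>
    intro h
    have h' : (Sum.inl x : α ⊕ Fin m) = Sum.inr j := h
    simp at h'
  | neg f ih => exact ih
  | and f g ihf ihg => exact fun h => h.elim ihf ihg
  | or f g ihf ihg => exact fun h => h.elim ihf ihg
  | imp f g ihf ihg => exact fun h => h.elim ihf ihg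

/-- A line without extension variables. -/
theorem end_two (hD : Acyclic D) {A : Form α} {H1 : Finset (Fin m)}
    (g1 : Good D h S H1 A.lift) (hs : (4 * r + 12) * (S + 1) ≤ s)
    (h1 : ∀ τ, cs x0 D H1 A.lift τ ∈ Γ) :
    Der (CR.all 𝓡) Cl s Γ (2 ^ h + 1) A := by
  have hS : 12 * (S + 1) ≤ s := le_trans (Nat.mul_le_mul_right _ (by omega)) hs
  have hlv : (A.lift : Form (α ⊕ Fin m)).leaves = A.leaves := leaves_lift A
  have hsz := g1.size
  have hfin := elim_list (𝓡 := 𝓡) (Cl := Cl) (Γ := Γ) (x0 := x0) (Ht := ∅) hD closed_empty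
    (A := A.lift) (R := [])
    (fun j hj => absurd hj (not_occ_lift A j))
    (fun i hi => absurd hi List.not_mem_nil) (ord H1) 0 (ord_pairwise _)
    (fun i _ => Finset.notMem_empty i) (s := s)
    (by
      rw [List.append_nil, sum_ord]
      omega)
    (by
      intro τ
      rw [List.append_nil]
      exact Der.hyp (h1 τ)) ∅
  rw [ev_lift] at hfin
  have hfin' : Der (CR.all 𝓡) Cl s Γ (2 ^ (ord H1).length * (0 + 1))
      (.imp (CR.tt (.var x0)) A) := hfin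
  refine (der_fin (by omega) hfin').mono ?_ subset_rfl
  have h3 : 2 ^ (ord H1).length ≤ 2 ^ h :=
    Nat.pow_le_pow_right (by norm_num) (by rw [length_ord]; exact g1.card)
  omega

theorem nums (r h M : ℕ) :
    M * (2 ^ h * nl r h) + (2 ^ (2 * h) * (4 * h ^ 2 + 2 * h + 6) + 1 + 1) ≤
      (M + 1) * 2 ^ ((8 * r + 24) * (h + 1)) ∧
    M * (2 ^ h * nl r h) + (2 ^ h + 1) ≤ (M + 1) * 2 ^ ((8 * r + 24) * (h + 1)) := by
  have p1 : ∀ n : ℕ, n + 1 ≤ 2 ^ n := fun n => Nat.lt_two_pow_self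
  have h1 := p1 h
  have h2 := p1 r
  have hr2 : r + 2 ≤ 2 ^ (r + 1) := p1 (r + 1)
  have a1 : h * ((r + 1) * h + 1) ≤ 2 ^ (2 * h + r + 1) := by
    have c1 : (r + 1) * h + 1 ≤ (r + 2) * (h + 1) := by nlinarith
    calc h * ((r + 1) * h + 1) ≤ (h + 1) * ((r + 2) * (h + 1)) :=
          Nat.mul_le_mul (Nat.le_succ h) c1
      _ ≤ 2 ^ h * (2 ^ (r + 1) * 2 ^ h) := Nat.mul_le_mul h1 (Nat.mul_le_mul hr2 h1)
      _ = 2 ^ (2 * h + r + 1) := by
          rw [← pow_add, ← pow_add]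
          congr 1
          ring
  have a2 : h * ((r + 1) * h + 1) + 2 ≤ 2 ^ (2 * h + r + 2) := by
    have c1 : 2 ≤ 2 ^ (2 * h + r + 1) := by
      calc 2 = 2 ^ 1 := rfl
        _ ≤ _ := Nat.pow_le_pow_right (by norm_num) (by omega)
    have c2 : 2 ^ (2 * h + r + 2) = 2 * 2 ^ (2 * h + r + 1) := by
      rw [show 2 * h + r + 2 = (2 * h + r + 1) + 1 by ring, pow_succ]
      ring
    omega
  have a3 : r * (h * ((r + 1) * h + 1) + 2) + 2 ≤ 2 ^ (2 * h + 2 * r + 3) := by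
    have c0 : r * (h * ((r + 1) * h + 1) + 2) ≤ 2 ^ r * 2 ^ (2 * h + r + 2) :=
      Nat.mul_le_mul (by omega) a2
    rw [← pow_add] at c0
    have c1 : 2 ≤ 2 ^ (r + (2 * h + r + 2)) := by
      calc 2 = 2 ^ 1 := rfl
        _ ≤ _ := Nat.pow_le_pow_right (by norm_num) (by omega)
    have c2 : 2 ^ (2 * h + 2 * r + 3) = 2 * 2 ^ (r + (2 * h + r + 2)) := by
      rw [show 2 * h + 2 * r + 3 = (r + (2 * h + r + 2)) + 1 by ring, pow_succ]
      ring
    omega
  have a4 : nl r h ≤ 2 ^ (r * h + (2 * h + 2 * r + 3) + 1) := by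
    have c0 : 2 ^ (r * h) * (r * (h * ((r + 1) * h + 1) + 2) + 2) ≤
        2 ^ (r * h) * 2 ^ (2 * h + 2 * r + 3) := Nat.mul_le_mul_left _ a3
    rw [← pow_add] at c0
    have c1 : h + 3 ≤ 2 ^ (r * h + (2 * h + 2 * r + 3)) := by
      calc h + 3 ≤ 2 ^ (h + 2) := p1 (h + 2)
        _ ≤ _ := Nat.pow_le_pow_right (by norm_num) (by nlinarith [Nat.zero_le (r * h)])
    unfold nl
    rw [pow_succ]
    omega
  have a5 : 2 ^ h * nl r h ≤ 2 ^ ((8 * r + 24) * (h + 1)) := by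
    calc 2 ^ h * nl r h ≤ 2 ^ h * 2 ^ (r * h + (2 * h + 2 * r + 3) + 1) :=
          Nat.mul_le_mul_left _ a4
      _ = 2 ^ (h + (r * h + (2 * h + 2 * r + 3) + 1)) := by rw [← pow_add]
      _ ≤ _ := Nat.pow_le_pow_right (by norm_num) (by nlinarith [Nat.zero_le (r * h)])
  have a6 : 2 ^ (2 * h) * (4 * h ^ 2 + 2 * h + 6) + 1 + 1 ≤ 2 ^ ((8 * r + 24) * (h + 1)) := by
    have c1 : 4 * h ^ 2 + 2 * h + 6 ≤ 2 ^ 3 * (2 ^ h * 2 ^ h) := by
      have := Nat.mul_le_mul h1 h1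
      nlinarith
    have c2 : 2 ^ (2 * h) * (4 * h ^ 2 + 2 * h + 6) ≤ 2 ^ (4 * h + 3) := by
      calc _ ≤ 2 ^ (2 * h) * (2 ^ 3 * (2 ^ h * 2 ^ h)) := Nat.mul_le_mul_left _ c1
        _ = 2 ^ (4 * h + 3) := by
          rw [← pow_add, ← pow_add, ← pow_add]
          congr 1
          ring
    have c3 : 2 ≤ 2 ^ (4 * h + 3) := by
      calc 2 = 2 ^ 1 := rfl
        _ ≤ _ := Nat.pow_le_pow_right (by norm_num) (by omega)
    have c4 : 2 ^ (4 * h + 4) = 2 * 2 ^ (4 * h + 3) := by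
      rw [show 4 * h + 4 = (4 * h + 3) + 1 by ring, pow_succ]
      ring
    have c5 : 2 ^ (4 * h + 4) ≤ 2 ^ ((8 * r + 24) * (h + 1)) :=
      Nat.pow_le_pow_right (by norm_num) (by nlinarith [Nat.zero_le (r * h)])
    omega
  have a7 : 2 ^ h + 1 ≤ 2 ^ ((8 * r + 24) * (h + 1)) := by
    refine le_trans ?_ a6
    have c1 : 2 ^ h ≤ 2 ^ (2 * h) := Nat.pow_le_pow_right (by norm_num) (by omega)
    have c2 : 2 ^ (2 * h) * 1 ≤ 2 ^ (2 * h) * (4 * h ^ 2 + 2 * h + 6) :=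
      Nat.mul_le_mul_left _ (by omega)
    omega
  have a8 := Nat.mul_le_mul_left M a5
  rw [Nat.add_mul, one_mul]
  omega

/-- **The distinction of cases.** -/
theorem cases_main (x0 : α) (𝓡 : List FrRule) (r : ℕ)
    (hr : ∀ ρ ∈ 𝓡, ρ.prem.length ≤ r) (Cl : Set (Form α))
    (m M : ℕ) (D : Fin m → Form (α ⊕ Fin m)) (C : Fin M → Form (α ⊕ Fin m))
    (hD : Acyclic D) (href : IsRefutation 𝓡 Cl D C)
    (h S : ℕ) (H : Fin M → Finset (Fin m)) (hH : ∀ t, Good D h S (H t) (C t)) :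
    ∃ M' : ℕ, M' ≤ (M + 1) * 2 ^ ((8 * r + 24) * (h + 1)) ∧ ∃ C' : Fin M' → Form (α ⊕ Fin 0),
      IsRefutation (CR.all 𝓡) Cl (fun i => i.elim0) C' ∧
      ∀ (U : Fin 0 → Form α) (t : Fin M'), (unfold U (C' t)).leaves ≤
        (8 * r + 24) * (S + 1) := by
  obtain ⟨l, h1, h2, h3⟩ := lines_upto (x0 := x0) (s := (4 * r + 12) * (S + 1)) hD href hr hH
    le_rfl M le_rfl
  have hs : (4 * r + 12) * (S + 1) ≤ (8 * r + 24) * (S + 1) :=
    Nat.mul_le_mul_right _ (by omega)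
  obtain ⟨n1, n2⟩ := nums r h M
  rcases href.contra with ⟨t, t', hc⟩ | ⟨t, A, hA, hc⟩
  · have g2 := hH t'
    rw [hc] at g2
    have hder := end_one (x0 := x0) (𝓡 := 𝓡) (Cl := Cl) (Γ := {B | B ∈ l}) (r := r)
      (s := (4 * r + 12) * (S + 1)) hD (hH t) g2 le_rfl
      (fun τ => h3 t t.2 τ) (fun τ => by
        have := h3 t' t'.2 τ
        rw [hc] at this
        exact this)
    obtain ⟨l1, e1, e2, e3⟩ := hder l h1 (fun B hB => hB)
    have hder2 : Der (CR.all 𝓡) Cl ((4 * r + 12) * (S + 1)) {B | B ∈ l1 ++ l} 1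
        (CR.tt (.var x0)) := der_refl (by
      show 2 * 1 ≤ _
      nlinarith)
    obtain ⟨l2, e4, e5, e6⟩ := hder2 (l1 ++ l) e1 (fun B hB => hB)
    obtain ⟨C', f1, f2⟩ := refutation_of_seq e4 (Or.inl ⟨_, e6, List.mem_append_right _ e3⟩)
    refine ⟨_, ?_, C', f1, fun U t => (f2 U t).trans hs⟩
    rw [List.length_append, List.length_append]
    omega
  · have g1 := hH t
    rw [hc] at g1
    have hder := end_two (x0 := x0) (𝓡 := 𝓡) (Cl := Cl) (Γ := {B | B ∈ l}) (A := .neg A) (r := r)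
      (s := (4 * r + 12) * (S + 1)) hD g1 le_rfl (fun τ => by
        have := h3 t t.2 τ
        rw [hc] at this
        exact this)
    obtain ⟨l1, e1, e2, e3⟩ := hder l h1 (fun B hB => hB)
    obtain ⟨C', f1, f2⟩ := refutation_of_seq e1 (Or.inr ⟨A, hA, e3⟩)
    refine ⟨_, ?_, C', f1, fun U t => (f2 U t).trans hs⟩
    rw [List.length_append]
    omega

end All

end Pool.Agent.EFS
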