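import Pool.Agent.Lib.EFS.CaseRules

/-!
# Derivations for the distinction of cases (project EFS, row CaseDer, helper49)

`Der 𝓡 Cl s Γ n A`: every derivation containing `Γ` has a continuation by at most `n` lines (of at
most `s` leaves) containing `A`.
-/

set_option autoImplicit false

namespace Pool.Agent.EFS

open Pool.Agent.EFT

variable {α : Type*} {𝓡 : List FrRule} {Cl : Set (Form α)} {s n : ℕ} {Γ : Set (Form α)}
  {y A d Q : Form α} {L L' : List (Form α)}

theorem leaves_pos' {γ : Type*} (A : Form γ) : 1 ≤ A.leaves := by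
  induction A with
  | var x => exact le_refl _
  | neg f ih => exact ih
  | and f g ihf ihg => exact ihf.trans (Nat.le_add_right _ _)
  | or f g ihf ihg => exact ihf.trans (Nat.le_add_right _ _)
  | imp f g ihf ihg => exact ihf.trans (Nat.le_add_right _ _)

theorem base_mem {ρ : FrRule} (h : ρ ∈ CR.base) : ρ ∈ CR.all 𝓡 := List.mem_append_left _ h

theorem all0 {P : Form α → Prop} {k : ℕ} {θ : Fin k → Form α} :
    ∀ A ∈ ([] : List (Form (Fin k))), P (A.subst θ) := fun _ h => absurd h List.not_mem_nil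

theorem all1 {P : Form α → Prop} {k : ℕ} {θ : Fin k → Form α} {B : Form (Fin k)}
    (h : P (B.subst θ)) : ∀ C ∈ [B], P (C.subst θ) := by
  intro C hC
  rw [List.mem_singleton] at hC
  rw [hC]
  exact h

theorem all2 {P : Form α → Prop} {k : ℕ} {θ : Fin k → Form α} {B B' : Form (Fin k)}
    (h : P (B.subst θ)) (h' : P (B'.subst θ)) : ∀ C ∈ [B, B'], P (C.subst θ) := by
  intro C hC
  rcases List.mem_cons.1 hC with rfl | hC
  · exact h
  · exact all1 h' C hC

/-- Two derived premises with different counts. -/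
theorem Der.two {m1 m2 : ℕ} {A1 A2 B : Form α} (h1 : Der 𝓡 Cl s Γ m1 A1)
    (h2 : Der 𝓡 Cl s Γ m2 A2) (h : Der 𝓡 Cl s {A1, A2} 1 B) : Der 𝓡 Cl s Γ (m1 + m2 + 1) B := by
  intro l hl hΓ
  obtain ⟨l1, a1, a2, a3⟩ := h1 l hl hΓ
  obtain ⟨l2, b1, b2, b3⟩ := h2 (l1 ++ l) a1 fun C hC => List.mem_append_right _ (hΓ C hC)
  obtain ⟨l3, c1, c2, c3⟩ := h (l2 ++ (l1 ++ l)) b1 (by
    intro C hC
    rcases hC with rfl | hC
    · exact List.mem_append_right _ a3
    · rw [Set.mem_singleton_iff] at hC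
      rw [hC]
      exact b3)
  refine ⟨l3 ++ (l2 ++ l1), by simpa [List.append_assoc] using c1, ?_,
    by simpa [List.append_assoc] using c3⟩
  rw [List.length_append, List.length_append]
  omega

theorem Der.one {m1 : ℕ} {A1 B : Form α} (h1 : Der 𝓡 Cl s Γ m1 A1)
    (h : Der 𝓡 Cl s {A1} 1 B) : Der 𝓡 Cl s Γ (m1 + 1) B := by
  intro l hl hΓ
  obtain ⟨l1, a1, a2, a3⟩ := h1 l hl hΓ
  obtain ⟨l3, c1, c2, c3⟩ := h (l1 ++ l) a1 (by
    intro C hC
    rw [Set.mem_singleton_iff] at hC
    rw [hC]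
    exact a3)
  refine ⟨l3 ++ l1, by simpa [List.append_assoc] using c1, ?_,
    by simpa [List.append_assoc] using c3⟩
  rw [List.length_append]
  omega

theorem leaves_le_conj {a : Form α} (h : a ∈ L) : a.leaves ≤ (CR.conj y L).leaves := by
  induction L with
  | nil => exact absurd h List.not_mem_nil
  | cons b L ih =>
    change _ ≤ b.leaves + (CR.conj y L).leaves
    rcases List.mem_cons.1 h with rfl | h
    · omega
    · have := ih h
      omega

theorem der_proj (h : A ∈ L) (hs : (CR.conj y L).leaves + A.leaves ≤ s) :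
    Der (CR.all 𝓡) Cl s Γ L.length (.imp (CR.conj y L) A) := by
  induction L with
  | nil => exact absurd h List.not_mem_nil
  | cons b L ih =>
    have e : (CR.conj y (b :: L)).leaves = b.leaves + (CR.conj y L).leaves := rfl
    by_cases hA : A = b
    · subst hA
      exact (Der.rule (ρ := CR.fst) (base_mem (by simp [CR.base])) ![A, CR.conj y L] hs
        all0).mono (by simp) subset_rfl
    · have h' : A ∈ L := (List.mem_cons.1 h).resolve_left hA
      have h1 := ih h' (by omega)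
      exact Der.one h1 (Der.rule (ρ := CR.snd) (base_mem (by simp [CR.base]))
        ![b, CR.conj y L, A] hs (all1 (Set.mem_singleton _)))

theorem der_sub (h : ∀ a ∈ L', a ∈ L) (hs : (CR.conj y L).leaves + (CR.conj y L').leaves ≤ s) :
    Der (CR.all 𝓡) Cl s Γ (L'.length * (L.length + 1) + 1)
      (.imp (CR.conj y L) (CR.conj y L')) := by
  induction L' with
  | nil =>
    exact (Der.rule (ρ := CR.top) (base_mem (by simp [CR.base])) ![CR.conj y L, y] hs
      all0).mono (by simp) subset_rfl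
  | cons b L' ih =>
    have e : (CR.conj y (b :: L')).leaves = b.leaves + (CR.conj y L').leaves := rfl
    have h1 := ih (fun a ha => h a (List.mem_cons_of_mem _ ha)) (by omega)
    have h2 : Der (CR.all 𝓡) Cl s Γ L.length (.imp (CR.conj y L) b) :=
      der_proj (h b List.mem_cons_self) (by omega)
    refine (Der.two h2 h1 (Der.rule (ρ := CR.pair) (base_mem (by simp [CR.base]))
      ![CR.conj y L, b, CR.conj y L'] hs (all2 (Set.mem_insert _ _)
        (Set.mem_insert_of_mem _ (Set.mem_singleton _))))).mono ?_ subset_rfl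
    rw [List.length_cons]
    nlinarith

theorem der_weaken (h : ∀ a ∈ L', a ∈ L) (hs : (CR.conj y L).leaves + (CR.conj y L').leaves ≤ s)
    (hs' : (CR.conj y L).leaves + A.leaves ≤ s)
    (hA : Der (CR.all 𝓡) Cl s Γ n (.imp (CR.conj y L') A)) :
    Der (CR.all 𝓡) Cl s Γ (n + L'.length * (L.length + 1) + 2) (.imp (CR.conj y L) A) := by
  have h1 : Der (CR.all 𝓡) Cl s Γ (L'.length * (L.length + 1) + 1)
      (.imp (CR.conj y L) (CR.conj y L')) := der_sub h hs
  refine (Der.two h1 hA (Der.rule (ρ := CR.trans) (base_mem (by simp [CR.base]))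
      ![CR.conj y L, CR.conj y L', A] hs' (all2 (Set.mem_insert _ _)
        (Set.mem_insert_of_mem _ (Set.mem_singleton _))))).mono ?_ subset_rfl
  omega

theorem der_lift {ρ : FrRule} (hρ : ρ ∈ 𝓡) (θ : Fin ρ.n → Form α)
    (hs : Q.leaves + (ρ.concl.subst θ).leaves ≤ s)
    (h : ∀ P ∈ ρ.prem, Der (CR.all 𝓡) Cl s Γ n (.imp Q (P.subst θ))) :
    Der (CR.all 𝓡) Cl s Γ (ρ.prem.length * n + 1) (.imp Q (ρ.concl.subst θ)) := by
  have key : ∀ B : Form (Fin ρ.n), (Form.imp (.var 0)
      (B.subst fun i => .var i.succ)).subst (Fin.cons (α := fun _ => Form α) Q θ) =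
      Form.imp Q (B.subst θ) := by
    intro B
    have e1 : (Form.imp (.var 0) (B.subst fun i => .var i.succ)).subst
        (Fin.cons (α := fun _ => Form α) Q θ) = Form.imp Q
        ((B.subst fun i => .var i.succ).subst (Fin.cons (α := fun _ => Form α) Q θ)) := rfl
    rw [e1, Form.subst_subst]
    rfl
  have hmem : CR.lift ρ ∈ CR.all 𝓡 := List.mem_append_right _ (List.mem_map_of_mem hρ)
  have h2 := Der.ruleD (𝓡 := CR.all 𝓡) (Cl := Cl) (s := s) (Γ := Γ) (n := n) hmem
    (Fin.cons (α := fun _ => Form α) Q θ)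
    (by
      have e := key ρ.concl
      change (Form.subst (Fin.cons (α := fun _ => Form α) Q θ) (Form.imp (.var 0)
        (ρ.concl.subst fun i => .var i.succ))).leaves ≤ s
      rw [e]
      exact hs)
    (by
      intro B hB
      obtain ⟨A, hA, rfl⟩ := List.mem_map.1 hB
      have e := key A
      have h3 := h A hA
      rw [← e] at h3
      exact h3)
  have e := key ρ.concl
  have e' : (CR.lift ρ).prem.length = ρ.prem.length := List.length_map _
  rw [e'] at h2
  rw [← e]
  exact h2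

theorem der_elim (hs : Q.leaves + A.leaves ≤ s)
    (h1 : Der (CR.all 𝓡) Cl s Γ n (.imp (.and d Q) A))
    (h2 : Der (CR.all 𝓡) Cl s Γ n (.imp (.and (.neg d) Q) A)) :
    Der (CR.all 𝓡) Cl s Γ (2 * n + 1) (.imp Q A) := by
  refine (Der.two h1 h2 (Der.rule (ρ := CR.elim) (base_mem (by simp [CR.base]))
      ![d, Q, A] hs (all2 (Set.mem_insert _ _)
        (Set.mem_insert_of_mem _ (Set.mem_singleton _))))).mono ?_ subset_rfl
  omega

theorem der_extT (hy : y.leaves = 1) (h : d ∈ L)
    (hs : (CR.conj y L).leaves + (2 * d.leaves + 4) ≤ s) :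
    Der (CR.all 𝓡) Cl s Γ (L.length + 1) (.imp (CR.conj y L) (.iff (CR.tt y) d)) := by
  refine Der.one (der_proj h (by omega)) (Der.rule (ρ := CR.extT)
    (base_mem (by simp [CR.base])) ![CR.conj y L, d, y] ?_ (all1 (Set.mem_singleton _)))
  change (CR.conj y L).leaves + (y.leaves + y.leaves + d.leaves +
    (d.leaves + (y.leaves + y.leaves))) ≤ s
  omega

theorem der_extT' (hy : y.leaves = 1) (h : d ∈ L)
    (hs : (CR.conj y L).leaves + (2 * d.leaves + 4) ≤ s) :
    Der (CR.all 𝓡) Cl s Γ (L.length + 1) (.imp (CR.conj y L) (.iff' (CR.tt y) d)) := by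
  refine Der.one (der_proj h (by omega)) (Der.rule (ρ := CR.extT')
    (base_mem (by simp [CR.base])) ![CR.conj y L, d, y] ?_ (all1 (Set.mem_singleton _)))
  change (CR.conj y L).leaves + (y.leaves + y.leaves + d.leaves +
    (d.leaves + (y.leaves + y.leaves))) ≤ s
  omega

theorem der_extF (hy : y.leaves = 1) (h : .neg d ∈ L)
    (hs : (CR.conj y L).leaves + (2 * d.leaves + 4) ≤ s) :
    Der (CR.all 𝓡) Cl s Γ (L.length + 1) (.imp (CR.conj y L) (.iff (CR.ff y) d)) := by
  have e : (Form.neg d).leaves = d.leaves := rfl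
  refine Der.one (der_proj h (by omega)) (Der.rule (ρ := CR.extF)
    (base_mem (by simp [CR.base])) ![CR.conj y L, d, y] ?_ (all1 (Set.mem_singleton _)))
  change (CR.conj y L).leaves + (y.leaves + y.leaves + d.leaves +
    (d.leaves + (y.leaves + y.leaves))) ≤ s
  omega

theorem der_extF' (hy : y.leaves = 1) (h : .neg d ∈ L)
    (hs : (CR.conj y L).leaves + (2 * d.leaves + 4) ≤ s) :
    Der (CR.all 𝓡) Cl s Γ (L.length + 1) (.imp (CR.conj y L) (.iff' (CR.ff y) d)) := by
  have e : (Form.neg d).leaves = d.leaves := rfl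
  refine Der.one (der_proj h (by omega)) (Der.rule (ρ := CR.extF')
    (base_mem (by simp [CR.base])) ![CR.conj y L, d, y] ?_ (all1 (Set.mem_singleton _)))
  change (CR.conj y L).leaves + (y.leaves + y.leaves + d.leaves +
    (d.leaves + (y.leaves + y.leaves))) ≤ s
  omega

theorem der_contr (hs : Q.leaves + 2 * y.leaves ≤ s)
    (h1 : Der (CR.all 𝓡) Cl s Γ n (.imp Q A)) (h2 : Der (CR.all 𝓡) Cl s Γ n (.imp Q (.neg A))) :
    Der (CR.all 𝓡) Cl s Γ (2 * n + 1) (.imp Q (CR.ff y)) := by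
  refine (Der.two h1 h2 (Der.rule (ρ := CR.contr) (base_mem (by simp [CR.base]))
      ![Q, A, y] ?_ (all2 (Set.mem_insert _ _)
        (Set.mem_insert_of_mem _ (Set.mem_singleton _))))).mono ?_ subset_rfl
  · change Q.leaves + (y.leaves + y.leaves) ≤ s
    omega
  · omega

theorem der_clause (hA : A ∈ Cl) (hs : Q.leaves + A.leaves ≤ s) :
    Der (CR.all 𝓡) Cl s Γ 2 (.imp Q A) :=
  Der.one (Der.cl hA (by omega)) (Der.rule (ρ := CR.wk) (base_mem (by simp [CR.base]))
    ![Q, A] hs (all1 (Set.mem_singleton _)))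

theorem der_fin (hs : A.leaves ≤ s) (h : Der (CR.all 𝓡) Cl s Γ n (.imp (CR.tt y) A)) :
    Der (CR.all 𝓡) Cl s Γ (n + 1) A :=
  Der.one h (Der.rule (ρ := CR.fin) (base_mem (by simp [CR.base]))
    ![y, A] hs (all1 (Set.mem_singleton _)))

theorem der_refl (hs : 2 * y.leaves ≤ s) : Der (CR.all 𝓡) Cl s Γ 1 (CR.tt y) := by
  refine Der.rule (ρ := CR.refl) (base_mem (by simp [CR.base])) ![y] ?_ all0
  change y.leaves + y.leaves ≤ s
  omega

/-! ## Conversion to a refutation -/

theorem Seq.le {l : List (Form α)} (hl : Seq 𝓡 Cl s l) : ∀ A ∈ l, A.leaves ≤ s := by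
  induction hl with
  | nil => intro A hA; exact absurd hA List.not_mem_nil
  | cl _ hs _ ih =>
    intro B hB
    rcases List.mem_cons.1 hB with rfl | hB
    · exact hs
    · exact ih B hB
  | rule _ _ hs _ ih =>
    intro B hB
    rcases List.mem_cons.1 hB with rfl | hB
    · exact hs
    · exact ih B hB

theorem Seq.get_step {l : List (Form α)} (h : Seq 𝓡 Cl s l) :
    ∀ (i : ℕ) (hi : i < l.reverse.length), l.reverse[i] ∈ Cl ∨ ∃ ρ ∈ 𝓡, ∃ θ : Fin ρ.n → Form α,
      l.reverse[i] = ρ.concl.subst θ ∧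
      ∀ P ∈ ρ.prem, ∃ (j : ℕ) (hj : j < i), l.reverse[j] = P.subst θ := by
  have key : ∀ (A : Form α) (l : List (Form α)),
      (∀ (i : ℕ) (hi : i < l.reverse.length), l.reverse[i] ∈ Cl ∨
        ∃ ρ ∈ 𝓡, ∃ θ : Fin ρ.n → Form α, l.reverse[i] = ρ.concl.subst θ ∧
        ∀ P ∈ ρ.prem, ∃ (j : ℕ) (hj : j < i), l.reverse[j] = P.subst θ) →
      (A ∈ Cl ∨ ∃ ρ ∈ 𝓡, ∃ θ : Fin ρ.n → Form α, A = ρ.concl.subst θ ∧
        ∀ P ∈ ρ.prem, P.subst θ ∈ l) →
      ∀ (i : ℕ) (hi : i < (A :: l).reverse.length), (A :: l).reverse[i] ∈ Cl ∨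
        ∃ ρ ∈ 𝓡, ∃ θ : Fin ρ.n → Form α, (A :: l).reverse[i] = ρ.concl.subst θ ∧
        ∀ P ∈ ρ.prem, ∃ (j : ℕ) (hj : j < i), (A :: l).reverse[j] = P.subst θ := by
    intro A l ih hs i hi
    have hlen : (A :: l).reverse.length = l.reverse.length + 1 := by simp
    have hrev : (A :: l).reverse = l.reverse ++ [A] := List.reverse_cons
    by_cases h : i < l.reverse.length
    · have e : ∀ (j : ℕ) (hj : j < l.reverse.length) (hj' : j < (A :: l).reverse.length),
          (A :: l).reverse[j] = l.reverse[j] := by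
        intro j hj hj'
        simp only [hrev]
        exact List.getElem_append_left hj
      rw [e i h hi]
      rcases ih i h with h1 | ⟨ρ, hρ, θ, h2, h3⟩
      · exact Or.inl h1
      · refine Or.inr ⟨ρ, hρ, θ, h2, fun P hP => ?_⟩
        obtain ⟨j, hj, h4⟩ := h3 P hP
        exact ⟨j, hj, (e j (hj.trans h) _).trans h4⟩
    · have hi' : i = l.reverse.length := by omega
      have eA : (A :: l).reverse[i] = A := by
        simp only [hrev, hi']
        simp
      rw [eA]
      rcases hs with h1 | ⟨ρ, hρ, θ, h2, h3⟩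
      · exact Or.inl h1
      · refine Or.inr ⟨ρ, hρ, θ, h2, fun P hP => ?_⟩
        have h4 : P.subst θ ∈ l.reverse := List.mem_reverse.2 (h3 P hP)
        obtain ⟨j, hj, h5⟩ := List.getElem_of_mem h4
        refine ⟨j, by omega, ?_⟩
        simp only [hrev]
        rw [List.getElem_append_left hj]
        exact h5
  induction h with
  | nil => intro i hi; exact absurd hi (by simp)
  | @cl A l hA _ _ ih => exact key A l ih (Or.inl hA)
  | @rule ρ θ l hρ hp _ _ ih => exact key _ l ih (Or.inr ⟨ρ, hρ, θ, rfl, hp⟩)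

theorem lift_subst' {k q : ℕ} (f : Form (Fin q)) (θ : Fin q → Form α) :
    (f.subst θ).lift (m := k) = f.subst fun i => (θ i).lift (m := k) := by
  unfold Form.lift
  rw [Form.subst_subst]

/-- A derivation with a contradiction is a refutation without extension variables. -/
theorem refutation_of_seq {l : List (Form α)} (hl : Seq 𝓡 Cl s l)
    (hc : (∃ A, A ∈ l ∧ .neg A ∈ l) ∨ ∃ A, Conj Cl A ∧ .neg A ∈ l) :
    ∃ C : Fin l.length → Form (α ⊕ Fin 0),
      IsRefutation 𝓡 Cl (fun i => i.elim0) C ∧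
      ∀ (U : Fin 0 → Form α) (t : Fin l.length), (unfold U (C t)).leaves ≤ s := by
  have hlen : l.length = l.reverse.length := List.length_reverse.symm
  rw [hlen]
  refine ⟨fun t => (l.reverse[t.1]).lift, ⟨fun t => ?_, ?_⟩, fun U t => ?_⟩
  · rcases hl.get_step t.1 t.2 with h5 | ⟨ρ, hρ, θ, h5, h6⟩
    · exact Or.inl ⟨_, h5, rfl⟩
    · refine Or.inr (Or.inr ⟨ρ, hρ, fun i => (θ i).lift, ?_, fun P hP => ?_⟩)
      · rw [h5, lift_subst']
      · obtain ⟨j, hj, h7⟩ := h6 P hP
        refine ⟨⟨j, hj.trans t.2⟩, hj, ?_⟩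
        rw [← lift_subst', ← h7]
  · have hget : ∀ A ∈ l, ∃ t : Fin l.reverse.length, l.reverse[t.1] = A := by
      intro A hA
      obtain ⟨j, hj, h5⟩ := List.getElem_of_mem (List.mem_reverse.2 hA)
      exact ⟨⟨j, hj⟩, h5⟩
    rcases hc with ⟨A, hA, hnA⟩ | ⟨A, hA, hnA⟩
    · obtain ⟨t, ht⟩ := hget A hA
      obtain ⟨t', ht'⟩ := hget _ hnA
      refine Or.inl ⟨t, t', ?_⟩
      change (l.reverse[t'.1]).lift = Form.neg (l.reverse[t.1]).lift
      rw [ht, ht']
      rfl
    · obtain ⟨t, ht⟩ := hget _ hnA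
      refine Or.inr ⟨t, A, hA, ?_⟩
      change (l.reverse[t.1]).lift = Form.neg A.lift
      rw [ht]
      rfl
  · rw [unfold_lift]
    exact hl.le _ (List.mem_reverse.1 (List.getElem_mem _))

end Pool.Agent.EFS
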