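import Pool.Agent.Lib.EFS.Cases

/-!
# One line (project EFS, row FOLD2, helper90)
-/

set_option autoImplicit false

namespace Pool.Agent.EFS

open Pool.Agent.EFT Finset

theorem sum_biUnion_le {ι κ : Type*} [DecidableEq ι] [DecidableEq κ] (X : Finset κ)
    (f : κ → Finset ι) (g : ι → ℕ) : ∑ i ∈ X.biUnion f, g i ≤ ∑ a ∈ X, ∑ i ∈ f a, g i := by
  induction X using Finset.induction_on with
  | empty => simp
  | insert a X ha ih =>
    rw [Finset.biUnion_insert, Finset.sum_insert ha]
    have := Finset.sum_union_inter (s₁ := f a) (s₂ := X.biUnion f) (f := g)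
    omega

section Line

variable {α : Type*} {m : ℕ} {x0 : α} {D : Fin m → Form (α ⊕ Fin m)} {𝓡 : List FrRule}
  {Cl : Set (Form α)} {s h S r : ℕ} {Γ : Set (Form α)}

/-- The formula for the line `A`, the set `H` and the values `τ`. -/
def cs (x0 : α) (D : Fin m → Form (α ⊕ Fin m)) (H : Finset (Fin m)) (A : Form (α ⊕ Fin m))
    (τ : Finset (Fin m)) : Form α := .imp (PP x0 D τ (ord H)) (ev x0 τ A)

/-- What is assumed of a line `A` with its set `H`. -/
structure Good (D : Fin m → Form (α ⊕ Fin m)) (h S : ℕ) (H : Finset (Fin m))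
    (A : Form (α ⊕ Fin m)) : Prop where
  closed : Closed D H
  covers : Covers H A
  card : H.card ≤ h
  size : A.leaves + ∑ i ∈ H, (D i).leaves ≤ S

theorem leaves_PP_ord (τ : Finset (Fin m)) (H : Finset (Fin m)) :
    (PP x0 D τ (ord H)).leaves ≤ 2 + 2 * ∑ i ∈ H, (D i).leaves := by
  refine (leaves_PP τ (ord H)).trans ?_
  rw [sum_ord]

/-- number of lines for one line -/
def nl (r h : ℕ) : ℕ := 2 ^ (r * h) * (r * (h * ((r + 1) * h + 1) + 2) + 2) + h + 3

theorem line_clause {H : Finset (Fin m)} {A : Form α} (hg : Good D h S H A.lift)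
    (hs : (4 * r + 12) * (S + 1) ≤ s) (hA : A ∈ Cl) (τ : Finset (Fin m)) :
    Der (CR.all 𝓡) Cl s Γ (nl r h) (cs x0 D H A.lift τ) := by
  have h1 := leaves_PP_ord (x0 := x0) (D := D) τ H
  have h2 := leaves_ev (x0 := x0) τ (A.lift : Form (α ⊕ Fin m))
  rw [ev_lift] at h2
  have h3 := hg.size
  unfold cs
  rw [ev_lift]
  refine (der_clause hA ?_).mono ?_ subset_rfl
  · refine le_trans ?_ hs
    nlinarith
  · unfold nl
    omega

theorem line_ext {H : Finset (Fin m)} {i : Fin m}
    (hg : Good D h S H (Form.iff (.var (Sum.inr i)) (D i)))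
    (hs : (4 * r + 12) * (S + 1) ≤ s) (τ : Finset (Fin m)) :
    Der (CR.all 𝓡) Cl s Γ (nl r h) (cs x0 D H (Form.iff (.var (Sum.inr i)) (D i)) τ) := by
  have hi : i ∈ H := hg.covers i (Or.inl (Or.inl rfl))
  have h1 := leaves_PP_ord (x0 := x0) (D := D) τ H
  have h2 := leaves_ev (x0 := x0) τ (D i)
  have h3 := hg.size
  have h4 : (D i).leaves ≤ ∑ i ∈ H, (D i).leaves :=
    Finset.single_le_sum (f := fun i => (D i).leaves) (fun _ _ => Nat.zero_le _) hi
  have hL : (ord H).length = H.card := length_ord H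
  have hc := hg.card
  have hs1 : (CR.conj (.var x0) ((ord H).map (guard x0 D τ))).leaves +
      (2 * (ev x0 τ (D i)).leaves + 4) ≤ s := by
    refine le_trans ?_ hs
    have h1' : (CR.conj (.var x0) ((ord H).map (guard x0 D τ))).leaves ≤
      2 + 2 * ∑ i ∈ H, (D i).leaves := h1
    nlinarith
  have hmem : guard x0 D τ i ∈ (ord H).map (guard x0 D τ) := List.mem_map_of_mem (mem_ord.2 hi)
  have hn : ((ord H).map (guard x0 D τ)).length + 1 ≤ nl r h := by
    rw [List.length_map, hL]
    unfold nl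
    omega
  by_cases hiτ : i ∈ τ
  · have e : cs x0 D H (Form.iff (.var (Sum.inr i)) (D i)) τ =
        .imp (CR.conj (.var x0) ((ord H).map (guard x0 D τ)))
          (.iff (CR.tt (.var x0)) (ev x0 τ (D i))) := by
      show Form.imp _ (.iff (if i ∈ τ then CR.tt (.var x0) else CR.ff (.var x0)) (ev x0 τ (D i)))
        = _
      rw [if_pos hiτ]
      rfl
    rw [e]
    unfold guard at hmem
    rw [if_pos hiτ] at hmem
    exact (der_extT rfl hmem hs1).mono hn subset_rfl
  · have e : cs x0 D H (Form.iff (.var (Sum.inr i)) (D i)) τ =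
        .imp (CR.conj (.var x0) ((ord H).map (guard x0 D τ)))
          (.iff (CR.ff (.var x0)) (ev x0 τ (D i))) := by
      show Form.imp _ (.iff (if i ∈ τ then CR.tt (.var x0) else CR.ff (.var x0)) (ev x0 τ (D i)))
        = _
      rw [if_neg hiτ]
      rfl
    rw [e]
    unfold guard at hmem
    rw [if_neg hiτ] at hmem
    exact (der_extF rfl hmem hs1).mono hn subset_rfl

theorem line_ext' {H : Finset (Fin m)} {i : Fin m}
    (hg : Good D h S H (Form.iff' (.var (Sum.inr i)) (D i)))
    (hs : (4 * r + 12) * (S + 1) ≤ s) (τ : Finset (Fin m)) :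
    Der (CR.all 𝓡) Cl s Γ (nl r h) (cs x0 D H (Form.iff' (.var (Sum.inr i)) (D i)) τ) := by
  have hi : i ∈ H := hg.covers i (Or.inl (Or.inl rfl))
  have h1 := leaves_PP_ord (x0 := x0) (D := D) τ H
  have h2 := leaves_ev (x0 := x0) τ (D i)
  have h3 := hg.size
  have h4 : (D i).leaves ≤ ∑ i ∈ H, (D i).leaves :=
    Finset.single_le_sum (f := fun i => (D i).leaves) (fun _ _ => Nat.zero_le _) hi
  have hL : (ord H).length = H.card := length_ord H
  have hc := hg.card
  have hs1 : (CR.conj (.var x0) ((ord H).map (guard x0 D τ))).leaves +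
      (2 * (ev x0 τ (D i)).leaves + 4) ≤ s := by
    refine le_trans ?_ hs
    have h1' : (CR.conj (.var x0) ((ord H).map (guard x0 D τ))).leaves ≤
      2 + 2 * ∑ i ∈ H, (D i).leaves := h1
    nlinarith
  have hmem : guard x0 D τ i ∈ (ord H).map (guard x0 D τ) := List.mem_map_of_mem (mem_ord.2 hi)
  have hn : ((ord H).map (guard x0 D τ)).length + 1 ≤ nl r h := by
    rw [List.length_map, hL]
    unfold nl
    omega
  by_cases hiτ : i ∈ τ
  · have e : cs x0 D H (Form.iff' (.var (Sum.inr i)) (D i)) τ =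
        .imp (CR.conj (.var x0) ((ord H).map (guard x0 D τ)))
          (.iff' (CR.tt (.var x0)) (ev x0 τ (D i))) := by
      show Form.imp _ (.iff' (if i ∈ τ then CR.tt (.var x0) else CR.ff (.var x0)) (ev x0 τ (D i)))
        = _
      rw [if_pos hiτ]
      rfl
    rw [e]
    unfold guard at hmem
    rw [if_pos hiτ] at hmem
    exact (der_extT' rfl hmem hs1).mono hn subset_rfl
  · have e : cs x0 D H (Form.iff' (.var (Sum.inr i)) (D i)) τ =
        .imp (CR.conj (.var x0) ((ord H).map (guard x0 D τ)))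
          (.iff' (CR.ff (.var x0)) (ev x0 τ (D i))) := by
      show Form.imp _ (.iff' (if i ∈ τ then CR.tt (.var x0) else CR.ff (.var x0)) (ev x0 τ (D i)))
        = _
      rw [if_neg hiτ]
      rfl
    rw [e]
    unfold guard at hmem
    rw [if_neg hiτ] at hmem
    exact (der_extF' rfl hmem hs1).mono hn subset_rfl

theorem line_rule (hD : Acyclic D) {ρ : FrRule} (hρ : ρ ∈ 𝓡) (hr : ρ.prem.length ≤ r)
    (θ : Fin ρ.n → Form (α ⊕ Fin m)) {Ht : Finset (Fin m)}
    (hg : Good D h S Ht (ρ.concl.subst θ)) (Hp : Form (Fin ρ.n) → Finset (Fin m))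
    (hp : ∀ P ∈ ρ.prem, Good D h S (Hp P) (P.subst θ))
    (hΓ : ∀ P ∈ ρ.prem, ∀ τ, cs x0 D (Hp P) (P.subst θ) τ ∈ Γ)
    (hs : (4 * r + 12) * (S + 1) ≤ s) (τ : Finset (Fin m)) :
    Der (CR.all 𝓡) Cl s Γ (nl r h) (cs x0 D Ht (ρ.concl.subst θ) τ) := by
  classical
  set U : Finset (Fin m) := ρ.prem.toFinset.biUnion Hp with hU
  set Hn := Ht ∪ U with hHn
  have hUc : U.card ≤ r * h := by
    refine Finset.card_biUnion_le.trans ?_
    refine (Finset.sum_le_card_nsmul _ _ h fun P hP => (hp P (List.mem_toFinset.1 hP)).card).trans ?_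
    rw [smul_eq_mul]
    exact Nat.mul_le_mul_right _ ((List.toFinset_card_le _).trans hr)
  have hUs : ∑ i ∈ U, (D i).leaves ≤ r * S := by
    refine (sum_biUnion_le _ _ _).trans ?_
    refine (Finset.sum_le_card_nsmul _ _ S fun P hP => ?_).trans ?_
    · have := (hp P (List.mem_toFinset.1 hP)).size
      omega
    · rw [smul_eq_mul]
      exact Nat.mul_le_mul_right _ ((List.toFinset_card_le _).trans hr)
  have hsd : (Hn \ Ht) ⊆ U := by
    intro i hi
    rw [hHn] at hi
    obtain ⟨h1, h2⟩ := Finset.mem_sdiff.1 hi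
    exact (Finset.mem_union.1 h1).resolve_left h2
  set E := ord (Hn \ Ht) with hE
  set R := ord Ht with hR
  have hEl : E.length ≤ r * h := by
    rw [hE, length_ord]
    exact (Finset.card_le_card hsd).trans hUc
  have hRl : R.length ≤ h := by
    rw [hR, length_ord]
    exact hg.card
  have hmemER : ∀ i ∈ Hn, i ∈ E ++ R := by
    intro i hi
    rw [List.mem_append, hE, hR, mem_ord, mem_ord, Finset.mem_sdiff]
    by_cases h1 : i ∈ Ht
    · exact Or.inr h1
    · exact Or.inl ⟨hi, h1⟩
  have hsum : ((E ++ R).map fun i => (D i).leaves).sum ≤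
      r * S + ∑ i ∈ Ht, (D i).leaves := by
    rw [List.map_append, List.sum_append, hE, hR, sum_ord, sum_ord]
    have := Finset.sum_le_sum_of_subset (f := fun i => (D i).leaves) hsd
    omega
  have hgs := hg.size
  have hbase : ∀ τ, Der (CR.all 𝓡) Cl s Γ (r * (h * ((r + 1) * h + 1) + 2) + 1)
      (.imp (PP x0 D τ (E ++ R)) (ev x0 τ (ρ.concl.subst θ))) := by
    intro τ
    have b1 := leaves_PP (x0 := x0) (D := D) τ (E ++ R)
    have b2 := leaves_ev (x0 := x0) τ (ρ.concl.subst θ)
    rw [ev_subst] at b2 ⊢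
    refine (der_lift (n := h * ((r + 1) * h + 1) + 2) hρ (fun i => ev x0 τ (θ i)) ?_ ?_).mono ?_
      subset_rfl
    · refine le_trans ?_ hs
      nlinarith
    · intro P hP
      have hgP := hp P hP
      have hsub : Hp P ⊆ Hn := (Finset.subset_biUnion_of_mem Hp (List.mem_toFinset.2 hP)).trans
        Finset.subset_union_right
      have b3 := leaves_PP_ord (x0 := x0) (D := D) τ (Hp P)
      have b4 := leaves_ev (x0 := x0) τ (P.subst θ)
      have b5 := hgP.size
      rw [← ev_subst]
      refine (der_weaken (L' := (ord (Hp P)).map (guard x0 D τ))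
        (L := (E ++ R).map (guard x0 D τ)) (n := 0) ?_ ?_ ?_ ?_).mono ?_ subset_rfl
      · intro a ha
        obtain ⟨i, hi, rfl⟩ := List.mem_map.1 ha
        exact List.mem_map_of_mem (hmemER i (hsub (mem_ord.1 hi)))
      · have b1' : (CR.conj (.var x0) ((E ++ R).map (guard x0 D τ))).leaves ≤
          2 + 2 * ((E ++ R).map fun i => (D i).leaves).sum := b1
        have b3' : (CR.conj (.var x0) ((ord (Hp P)).map (guard x0 D τ))).leaves ≤
          2 + 2 * ∑ i ∈ Hp P, (D i).leaves := b3
        refine le_trans ?_ hs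
        nlinarith
      · have b1' : (CR.conj (.var x0) ((E ++ R).map (guard x0 D τ))).leaves ≤
          2 + 2 * ((E ++ R).map fun i => (D i).leaves).sum := b1
        refine le_trans ?_ hs
        nlinarith
      · exact Der.hyp (hΓ P hP τ)
      · rw [List.length_map, List.length_map, List.length_append, length_ord]
        have c1 := hgP.card
        have c2 : E.length + R.length + 1 ≤ (r + 1) * h + 1 := by nlinarith
        have := Nat.mul_le_mul c1 c2
        omega
    · have := Nat.mul_le_mul_right (h * ((r + 1) * h + 1) + 2) hr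
      omega
  have hfin := elim_list hD hg.closed hg.covers (R := R) (fun i hi => mem_ord.1 hi) E _
    (ord_pairwise _) (fun i hi => (Finset.mem_sdiff.1 (mem_ord.1 hi)).2) (s := s) (by
      refine le_trans ?_ hs
      nlinarith) hbase τ
  refine hfin.mono ?_ subset_rfl
  have h1 : 2 ^ E.length ≤ 2 ^ (r * h) := Nat.pow_le_pow_right (by norm_num) hEl
  have h2 := Nat.mul_le_mul_right (r * (h * ((r + 1) * h + 1) + 2) + 2) h1
  have h3 : r * (h * ((r + 1) * h + 1) + 2) + 1 + 1 = r * (h * ((r + 1) * h + 1) + 2) + 2 := rfl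
  rw [h3]
  unfold nl
  omega

end Line

end Pool.Agent.EFS
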