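import Pool.Agent.Lib.EFS.Calc

/-!
# The rules used for the distinction of cases (project EFS, row FOLD2, helper90)
-/

set_option autoImplicit false

namespace Pool.Agent.EFS

open Pool.Agent.EFT

namespace CR

/-- `a₁ ∧ (a₂ ∧ (… ∧ (y → y)))` -/
def conj {α : Type*} (y : Form α) : List (Form α) → Form α
  | [] => .imp y y
  | a :: l => .and a (conj y l)

/-- schematic variable -/
abbrev v {n : ℕ} (i : Fin n) : Form (Fin n) := .var i

/-- `y → y` -/
def tt {α : Type*} (y : Form α) : Form α := .imp y y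

/-- `¬ (y → y)` -/
def ff {α : Type*} (y : Form α) : Form α := .neg (.imp y y)

/-- `/ (a ∧ b) → a` -/
def fst : FrRule := ⟨2, [], .imp (.and (v 0) (v 1)) (v 0)⟩
/-- `b → y / (a ∧ b) → y` -/
def snd : FrRule := ⟨3, [.imp (v 1) (v 2)], .imp (.and (v 0) (v 1)) (v 2)⟩
/-- `/ q → (y → y)` -/
def top : FrRule := ⟨2, [], .imp (v 0) (tt (v 1))⟩
/-- `q → a, q → b / q → (a ∧ b)` -/
def pair : FrRule := ⟨3, [.imp (v 0) (v 1), .imp (v 0) (v 2)], .imp (v 0) (.and (v 1) (v 2))⟩
/-- `q → p, p → y / q → y` -/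
def trans : FrRule := ⟨3, [.imp (v 0) (v 1), .imp (v 1) (v 2)], .imp (v 0) (v 2)⟩
/-- `p / q → p` -/
def wk : FrRule := ⟨2, [v 1], .imp (v 0) (v 1)⟩
/-- `q → d / q → ((y → y) ↔ d)` -/
def extT : FrRule := ⟨3, [.imp (v 0) (v 1)], .imp (v 0) (.iff (tt (v 2)) (v 1))⟩
/-- the same with the other form of `↔` -/
def extT' : FrRule := ⟨3, [.imp (v 0) (v 1)], .imp (v 0) (.iff' (tt (v 2)) (v 1))⟩
/-- `q → ¬ d / q → (¬ (y → y) ↔ d)` -/
def extF : FrRule := ⟨3, [.imp (v 0) (.neg (v 1))], .imp (v 0) (.iff (ff (v 2)) (v 1))⟩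
/-- the same with the other form of `↔` -/
def extF' : FrRule := ⟨3, [.imp (v 0) (.neg (v 1))], .imp (v 0) (.iff' (ff (v 2)) (v 1))⟩
/-- `(p ∧ q) → y, (¬ p ∧ q) → y / q → y` -/
def elim : FrRule := ⟨3, [.imp (.and (v 0) (v 1)) (v 2), .imp (.and (.neg (v 0)) (v 1)) (v 2)],
  .imp (v 1) (v 2)⟩
/-- `q → p, q → ¬ p / q → ¬ (y → y)` -/
def contr : FrRule := ⟨3, [.imp (v 0) (v 1), .imp (v 0) (.neg (v 1))], .imp (v 0) (ff (v 2))⟩
/-- `(y → y) → z / z` -/
def fin : FrRule := ⟨2, [.imp (tt (v 0)) (v 1)], v 1⟩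
/-- `/ y → y` -/
def refl : FrRule := ⟨1, [], tt (v 0)⟩

/-- `q → A₁, …, q → A_r / q → B` -/
def lift (ρ : FrRule) : FrRule := ⟨ρ.n + 1,
  ρ.prem.map (fun A => .imp (v 0) (A.subst fun i => .var i.succ)),
  .imp (v 0) (ρ.concl.subst fun i => .var i.succ)⟩

/-- all rules for the distinction of cases -/
def base : List FrRule :=
  [fst, snd, top, pair, trans, wk, extT, extT', extF, extF', elim, contr, fin, refl]

/-- all rules -/
def all (𝓡 : List FrRule) : List FrRule := base ++ 𝓡.map lift

theorem eval_subst {α β : Type*} (a : β → Bool) (θ : α → Form β) (f : Form α) :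
    (f.subst θ).eval a = f.eval fun x => (θ x).eval a := by
  induction f with
  | var x => rfl
  | neg f ih => simp only [Form.subst, Form.eval, ih]
  | and f g ihf ihg => simp only [Form.subst, Form.eval, ihf, ihg]
  | or f g ihf ihg => simp only [Form.subst, Form.eval, ihf, ihg]
  | imp f g ihf ihg => simp only [Form.subst, Form.eval, ihf, ihg]

theorem lift_sound {ρ : FrRule} (h : ρ.Sound) : (lift ρ).Sound := by
  intro (a : Fin (ρ.n + 1) → Bool) ha
  show (!(a 0) || (ρ.concl.subst fun i => .var i.succ).eval a) = true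
  rw [eval_subst]
  cases h0 : a 0
  · rfl
  · refine h _ ?_
    intro A hA
    have h1 := ha _ (List.mem_map_of_mem hA)
    have h2 : (!(a 0) || (A.subst fun i => .var i.succ).eval a) = true := h1
    rw [h0, eval_subst] at h2
    exact h2

theorem fst_sound : fst.Sound := by
  intro (a : Fin 2 → Bool) _
  show (!(a 0 && a 1) || a 0) = true
  cases a 0 <;> cases a 1 <;> rfl

theorem snd_sound : snd.Sound := by
  intro (a : Fin 3 → Bool) h
  have h1 : (!(a 1) || a 2) = true := h _ List.mem_cons_self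
  show (!(a 0 && a 1) || a 2) = true
  revert h1
  cases a 0 <;> cases a 1 <;> cases a 2 <;> decide

theorem top_sound : top.Sound := by
  intro (a : Fin 2 → Bool) _
  show (!(a 0) || (!(a 1) || a 1)) = true
  cases a 0 <;> cases a 1 <;> rfl

theorem pair_sound : pair.Sound := by
  intro (a : Fin 3 → Bool) h
  have h1 : (!(a 0) || a 1) = true := h _ List.mem_cons_self
  have h2 : (!(a 0) || a 2) = true := h _ (List.mem_cons_of_mem _ List.mem_cons_self)
  show (!(a 0) || (a 1 && a 2)) = true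
  revert h1 h2
  cases a 0 <;> cases a 1 <;> cases a 2 <;> decide

theorem trans_sound : trans.Sound := by
  intro (a : Fin 3 → Bool) h
  have h1 : (!(a 0) || a 1) = true := h _ List.mem_cons_self
  have h2 : (!(a 1) || a 2) = true := h _ (List.mem_cons_of_mem _ List.mem_cons_self)
  show (!(a 0) || a 2) = true
  revert h1 h2
  cases a 0 <;> cases a 1 <;> cases a 2 <;> decide

theorem wk_sound : wk.Sound := by
  intro (a : Fin 2 → Bool) h
  have h1 : a 1 = true := h _ List.mem_cons_self
  show (!(a 0) || a 1) = true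
  revert h1
  cases a 0 <;> cases a 1 <;> decide

theorem extT_sound : extT.Sound := by
  intro (a : Fin 3 → Bool) h
  have h1 : (!(a 0) || a 1) = true := h _ List.mem_cons_self
  show (!(a 0) || ((!(!(a 2) || a 2) || a 1) && (!(a 1) || (!(a 2) || a 2)))) = true
  revert h1
  cases a 0 <;> cases a 1 <;> cases a 2 <;> decide

theorem extT'_sound : extT'.Sound := by
  intro (a : Fin 3 → Bool) h
  have h1 : (!(a 0) || a 1) = true := h _ List.mem_cons_self
  show (!(a 0) || !(!(!(!(a 2) || a 2) || a 1) || !(!(a 1) || (!(a 2) || a 2)))) = true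
  revert h1
  cases a 0 <;> cases a 1 <;> cases a 2 <;> decide

theorem extF_sound : extF.Sound := by
  intro (a : Fin 3 → Bool) h
  have h1 : (!(a 0) || !(a 1)) = true := h _ List.mem_cons_self
  show (!(a 0) || ((!(!(!(a 2) || a 2)) || a 1) && (!(a 1) || !(!(a 2) || a 2)))) = true
  revert h1
  cases a 0 <;> cases a 1 <;> cases a 2 <;> decide

theorem extF'_sound : extF'.Sound := by
  intro (a : Fin 3 → Bool) h
  have h1 : (!(a 0) || !(a 1)) = true := h _ List.mem_cons_self
  show (!(a 0) || !(!(!(!(!(a 2) || a 2)) || a 1) || !(!(a 1) || !(!(a 2) || a 2)))) = true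
  revert h1
  cases a 0 <;> cases a 1 <;> cases a 2 <;> decide

theorem elim_sound : elim.Sound := by
  intro (a : Fin 3 → Bool) h
  have h1 : (!(a 0 && a 1) || a 2) = true := h _ List.mem_cons_self
  have h2 : (!(!(a 0) && a 1) || a 2) = true :=
    h _ (List.mem_cons_of_mem _ List.mem_cons_self)
  show (!(a 1) || a 2) = true
  revert h1 h2
  cases a 0 <;> cases a 1 <;> cases a 2 <;> decide

theorem contr_sound : contr.Sound := by
  intro (a : Fin 3 → Bool) h
  have h1 : (!(a 0) || a 1) = true := h _ List.mem_cons_self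
  have h2 : (!(a 0) || !(a 1)) = true := h _ (List.mem_cons_of_mem _ List.mem_cons_self)
  show (!(a 0) || !(!(a 2) || a 2)) = true
  revert h1 h2
  cases a 0 <;> cases a 1 <;> cases a 2 <;> decide

theorem fin_sound : fin.Sound := by
  intro (a : Fin 2 → Bool) h
  have h1 : (!(!(a 0) || a 0) || a 1) = true := h _ List.mem_cons_self
  show a 1 = true
  revert h1
  cases a 0 <;> cases a 1 <;> decide

theorem refl_sound : refl.Sound := by
  intro (a : Fin 1 → Bool) _
  show (!(a 0) || a 0) = true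
  cases a 0 <;> rfl

theorem base_sound : ∀ ρ ∈ base, ρ.Sound := by
  intro ρ hρ
  simp only [base, List.mem_cons, List.not_mem_nil, or_false] at hρ
  rcases hρ with rfl | rfl | rfl | rfl | rfl | rfl | rfl | rfl | rfl | rfl | rfl | rfl | rfl | rfl
  · exact fst_sound
  · exact snd_sound
  · exact top_sound
  · exact pair_sound
  · exact trans_sound
  · exact wk_sound
  · exact extT_sound
  · exact extT'_sound
  · exact extF_sound
  · exact extF'_sound
  · exact elim_sound
  · exact contr_sound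
  · exact fin_sound
  · exact refl_sound

theorem all_sound {𝓡 : List FrRule} (h : ∀ ρ ∈ 𝓡, ρ.Sound) : ∀ ρ ∈ all 𝓡, ρ.Sound := by
  intro ρ hρ
  rcases List.mem_append.1 hρ with h1 | h1
  · exact base_sound ρ h1
  · obtain ⟨ρ', h2, rfl⟩ := List.mem_map.1 h1
    exact lift_sound (h ρ' h2)

end CR

end Pool.Agent.EFS
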