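import Pool.Agent.Lib.EFS.CaseDer

/-!
# The distinction of cases (project EFS, row FOLD2, helper90)

An Extended Frege refutation in which every line depends on at most `h` extension variables becomes
a Frege refutation: for each line `A` and each assignment `τ` of the extension variables on which
`A` depends there is the line `(⋀ (D i)^τ = τ i) → A^τ`.
-/

set_option autoImplicit false

namespace Pool.Agent.EFS

open Pool.Agent.EFT Finset

section Ev

variable {α : Type*} {m : ℕ} (x0 : α) (D : Fin m → Form (α ⊕ Fin m))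

/-- Put constants for the extension variables: true for those in `τ`. -/
def ev (τ : Finset (Fin m)) (f : Form (α ⊕ Fin m)) : Form α :=
  f.subst (Sum.elim (fun x => .var x) fun i => if i ∈ τ then CR.tt (.var x0) else CR.ff (.var x0))

/-- The literal which says that the variable `i` has the right value. -/
def guard (τ : Finset (Fin m)) (i : Fin m) : Form α :=
  if i ∈ τ then ev x0 τ (D i) else .neg (ev x0 τ (D i))

/-- The conjunction of the literals for a list of extension variables. -/
def PP (τ : Finset (Fin m)) (L : List (Fin m)) : Form α :=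
  CR.conj (.var x0) (L.map (guard x0 D τ))

variable {x0} {D}

theorem ev_congr {τ τ' : Finset (Fin m)} {f : Form (α ⊕ Fin m)}
    (h : ∀ j, f.Occ (Sum.inr j) → (j ∈ τ ↔ j ∈ τ')) : ev x0 τ f = ev x0 τ' f := by
  refine Form.subst_congr _ _ f ?_
  rintro (x | j) hj
  · rfl
  · show (if j ∈ τ then _ else _) = (if j ∈ τ' then _ else _)
    exact if_congr (h j hj) rfl rfl

theorem ev_subst (τ : Finset (Fin m)) {n : ℕ} (θ : Fin n → Form (α ⊕ Fin m)) (A : Form (Fin n)) :
    ev x0 τ (A.subst θ) = A.subst fun i => ev x0 τ (θ i) :=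
  Form.subst_subst _ _ _

theorem ev_lift (τ : Finset (Fin m)) (A : Form α) : ev x0 τ (A.lift) = A := by
  unfold ev Form.lift
  rw [Form.subst_subst]
  exact Form.subst_var A

theorem leaves_ev (τ : Finset (Fin m)) (f : Form (α ⊕ Fin m)) :
    (ev x0 τ f).leaves ≤ 2 * f.leaves := by
  induction f with
  | var x =>
    rcases x with x | i
    · show 1 ≤ 2 * 1
      omega
    · show (if i ∈ τ then CR.tt (.var x0) else CR.ff (.var x0) : Form α).leaves ≤ 2 * 1
      split_ifs
      · show 1 + 1 ≤ 2 * 1
        omega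
      · show 1 + 1 ≤ 2 * 1
        omega
  | neg f ih => exact ih
  | and f g ihf ihg =>
    show (ev x0 τ f).leaves + (ev x0 τ g).leaves ≤ 2 * (f.leaves + g.leaves)
    omega
  | or f g ihf ihg =>
    show (ev x0 τ f).leaves + (ev x0 τ g).leaves ≤ 2 * (f.leaves + g.leaves)
    omega
  | imp f g ihf ihg =>
    show (ev x0 τ f).leaves + (ev x0 τ g).leaves ≤ 2 * (f.leaves + g.leaves)
    omega

theorem guard_congr {τ τ' : Finset (Fin m)} {i : Fin m} (hi : i ∈ τ ↔ i ∈ τ')
    (h : ∀ j, (D i).Occ (Sum.inr j) → (j ∈ τ ↔ j ∈ τ')) : guard x0 D τ i = guard x0 D τ' i := by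
  unfold guard
  rw [ev_congr h]
  exact if_congr hi rfl rfl

theorem leaves_guard (τ : Finset (Fin m)) (i : Fin m) :
    (guard x0 D τ i).leaves ≤ 2 * (D i).leaves := by
  unfold guard
  split_ifs
  · exact leaves_ev τ _
  · exact leaves_ev τ _

theorem PP_congr {τ τ' : Finset (Fin m)} {L : List (Fin m)} (hL : ∀ i ∈ L, (i ∈ τ ↔ i ∈ τ') ∧
    ∀ j, (D i).Occ (Sum.inr j) → (j ∈ τ ↔ j ∈ τ')) : PP x0 D τ L = PP x0 D τ' L := by
  unfold PP
  congr 1
  exact List.map_congr_left fun i hi => guard_congr (hL i hi).1 (hL i hi).2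

theorem leaves_PP (τ : Finset (Fin m)) (L : List (Fin m)) :
    (PP x0 D τ L).leaves ≤ 2 + 2 * (L.map fun i => (D i).leaves).sum := by
  induction L with
  | nil => exact le_rfl
  | cons i L ih =>
    show (guard x0 D τ i).leaves + (PP x0 D τ L).leaves ≤ _
    rw [List.map_cons, List.sum_cons]
    have := leaves_guard (x0 := x0) (D := D) τ i
    omega

end Ev

section Closed

variable {α : Type*} {m : ℕ} (D : Fin m → Form (α ⊕ Fin m))

/-- The set `H` contains all extension variables in the formula `A`. -/
def Covers (H : Finset (Fin m)) (A : Form (α ⊕ Fin m)) : Prop :=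
  ∀ j, A.Occ (Sum.inr j) → j ∈ H

/-- `H` is closed under the definitions. -/
def Closed (H : Finset (Fin m)) : Prop := ∀ i ∈ H, Covers H (D i)

/-- The definitions only use earlier extension variables. -/
def Acyclic : Prop := ∀ i j, (D i).Occ (Sum.inr j) → j < i

variable {D}

theorem Covers.mono {H H' : Finset (Fin m)} {A : Form (α ⊕ Fin m)} (h : Covers H A)
    (hH : H ⊆ H') : Covers H' A := fun j hj => hH (h j hj)

theorem Closed.union {H H' : Finset (Fin m)} (h : Closed D H) (h' : Closed D H') :
    Closed D (H ∪ H') := by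
  intro i hi
  rcases Finset.mem_union.1 hi with hi | hi
  · exact (h i hi).mono Finset.subset_union_left
  · exact (h' i hi).mono Finset.subset_union_right

theorem Closed.biUnion {ι : Type*} {X : Finset ι} {f : ι → Finset (Fin m)}
    (h : ∀ a ∈ X, Closed D (f a)) : Closed D (X.biUnion f) := by
  intro i hi
  obtain ⟨a, ha, hia⟩ := Finset.mem_biUnion.1 hi
  exact (h a ha i hia).mono (Finset.subset_biUnion_of_mem f ha)

theorem closed_empty : Closed D ∅ := fun i hi => absurd hi (Finset.notMem_empty i)

end Closed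

/-- The elements of `H` in decreasing order. -/
def ord {m : ℕ} (H : Finset (Fin m)) : List (Fin m) := H.sort (· ≥ ·)

theorem mem_ord {m : ℕ} {H : Finset (Fin m)} {i : Fin m} : i ∈ ord H ↔ i ∈ H :=
  Finset.mem_sort _

theorem length_ord {m : ℕ} (H : Finset (Fin m)) : (ord H).length = H.card :=
  Finset.length_sort _

theorem ord_pairwise {m : ℕ} (H : Finset (Fin m)) : (ord H).Pairwise (· > ·) :=
  (Finset.sortedGT_sort H).pairwise

theorem sum_ord {m : ℕ} (H : Finset (Fin m)) (f : Fin m → ℕ) :
    ((ord H).map f).sum = ∑ i ∈ H, f i := by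
  have h : (ord H).toFinset = H := by
    unfold ord
    exact Finset.sort_toFinset _ _
  rw [← List.sum_toFinset f ((ord_pairwise H).imp fun h => h.ne'), h]

section Elim

variable {α : Type*} {m : ℕ} {x0 : α} {D : Fin m → Form (α ⊕ Fin m)} {𝓡 : List FrRule}
  {Cl : Set (Form α)} {s : ℕ} {Γ : Set (Form α)}

/-- Elimination of superfluous extension variables. -/
theorem elim_list (hD : Acyclic D) {Ht : Finset (Fin m)} (hcl : Closed D Ht)
    {A : Form (α ⊕ Fin m)} (hA : Covers Ht A) {R : List (Fin m)} (hR : ∀ i ∈ R, i ∈ Ht)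
    (E : List (Fin m)) : ∀ (n : ℕ), E.Pairwise (· > ·) → (∀ i ∈ E, i ∉ Ht) →
    2 + 2 * ((E ++ R).map fun i => (D i).leaves).sum + 2 * A.leaves ≤ s →
    (∀ τ, Der (CR.all 𝓡) Cl s Γ n (.imp (PP x0 D τ (E ++ R)) (ev x0 τ A))) →
    ∀ τ, Der (CR.all 𝓡) Cl s Γ (2 ^ E.length * (n + 1))
      (.imp (PP x0 D τ R) (ev x0 τ A)) := by
  classical
  induction E with
  | nil =>
    intro n _ _ _ h τ
    refine (h τ).mono ?_ subset_rfl
    simp
  | cons i E ih =>
    intro n hE hEt hs h τ
    have hE' := List.pairwise_cons.1 hE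
    have hsum : ((i :: E ++ R).map fun i => (D i).leaves).sum =
        (D i).leaves + ((E ++ R).map fun i => (D i).leaves).sum := by
      rw [List.cons_append, List.map_cons, List.sum_cons]
    have hstep : ∀ τ, Der (CR.all 𝓡) Cl s Γ (2 * n + 1)
        (.imp (PP x0 D τ (E ++ R)) (ev x0 τ A)) := by
      intro τ
      have hiHt : i ∉ Ht := hEt i List.mem_cons_self
      -- the formulas do not depend on the value of `i`
      have key : ∀ τ' : Finset (Fin m), (∀ j, j ≠ i → (j ∈ τ' ↔ j ∈ τ)) →
          PP x0 D τ' (E ++ R) = PP x0 D τ (E ++ R) ∧ ev x0 τ' A = ev x0 τ A ∧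
            ev x0 τ' (D i) = ev x0 τ (D i) := by
        intro τ' hτ'
        refine ⟨PP_congr ?_, ev_congr ?_, ev_congr ?_⟩
        · intro j hj
          rcases List.mem_append.1 hj with hj | hj
          · have hji : j < i := hE'.1 j hj
            refine ⟨hτ' j hji.ne, fun l hl => hτ' l ?_⟩
            exact ((hD j l hl).trans hji).ne
          · have hjt := hR j hj
            refine ⟨hτ' j (fun e => hiHt (e ▸ hjt)), fun l hl => hτ' l ?_⟩
            intro e
            exact hiHt (e ▸ hcl j hjt l hl)
        · intro l hl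
          exact hτ' l fun e => hiHt (e ▸ hA l hl)
        · intro l hl
          exact hτ' l (hD i l hl).ne
      obtain ⟨k1, k2, k3⟩ := key (insert i τ) fun j hj => by
        rw [Finset.mem_insert]
        exact ⟨fun h => h.resolve_left hj, Or.inr⟩
      obtain ⟨k4, k5, k6⟩ := key (τ.erase i) fun j hj => by
        rw [Finset.mem_erase]
        exact ⟨fun h => h.2, fun h => ⟨hj, h⟩⟩
      have e1 : PP x0 D (insert i τ) (i :: E ++ R) =
          .and (ev x0 τ (D i)) (PP x0 D τ (E ++ R)) := by
        show Form.and (guard x0 D (insert i τ) i) (PP x0 D (insert i τ) (E ++ R)) = _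
        rw [k1]
        unfold guard
        rw [if_pos (Finset.mem_insert_self i τ), k3]
      have e2 : PP x0 D (τ.erase i) (i :: E ++ R) =
          .and (.neg (ev x0 τ (D i))) (PP x0 D τ (E ++ R)) := by
        show Form.and (guard x0 D (τ.erase i) i) (PP x0 D (τ.erase i) (E ++ R)) = _
        rw [k4]
        unfold guard
        rw [if_neg (Finset.notMem_erase i τ), k6]
      have h1 := h (insert i τ)
      have h2 := h (τ.erase i)
      rw [e1, k2] at h1
      rw [e2, k5] at h2
      refine der_elim ?_ h1 h2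
      have b1 := leaves_PP (x0 := x0) (D := D) τ (E ++ R)
      have b2 := leaves_ev (x0 := x0) τ A
      rw [hsum] at hs
      omega
    have := ih (2 * n + 1) hE'.2 (fun j hj => hEt j (List.mem_cons_of_mem _ hj)) (by
      rw [hsum] at hs
      omega) hstep τ
    refine this.mono (le_of_eq ?_) subset_rfl
    rw [List.length_cons, pow_succ]
    ring

end Elim

end Pool.Agent.EFS
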