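import Mathlib

/-!
# Bounds of binomial coefficients (project EFS, helper57)
-/

set_option autoImplicit false

open Finset

namespace Pool.Agent.EFS

/-- `q ^ q ≤ 3 ^ q * q!`. -/
theorem pow_le_fact (q : ℕ) : (q : ℝ) ^ q ≤ 3 ^ q * q.factorial := by
  have h1 := Real.pow_div_factorial_le_exp (x := (q : ℝ)) (Nat.cast_nonneg q) q
  have hf : (0 : ℝ) < q.factorial := by exact_mod_cast q.factorial_pos
  rw [div_le_iff₀ hf] at h1
  have h2 : Real.exp (q : ℝ) ≤ 3 ^ q := by
    have h3 : Real.exp (q : ℝ) = Real.exp 1 ^ q := by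
      rw [← Real.exp_nat_mul, mul_one]
    rw [h3]
    refine pow_le_pow_left₀ (Real.exp_pos _).le ?_ q
    have := Real.exp_one_lt_d9
    linarith
  exact h1.trans (mul_le_mul_of_nonneg_right h2 hf.le)

/-- `N.choose q ≤ (3 N / q) ^ q`. -/
theorem choose_le (N q : ℕ) : (N.choose q : ℝ) ≤ (3 * N / q : ℝ) ^ q := by
  rcases Nat.eq_zero_or_pos q with rfl | hq
  · simp
  have hf : (0 : ℝ) < q.factorial := by exact_mod_cast q.factorial_pos
  have hq' : (0 : ℝ) < q := by exact_mod_cast hq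
  have h1 := Nat.choose_le_pow_div (α := ℝ) q N
  refine h1.trans ?_
  rw [div_pow, div_le_div_iff₀ hf (by positivity), mul_pow]
  have h2 := pow_le_fact q
  calc (N : ℝ) ^ q * q ^ q ≤ N ^ q * (3 ^ q * q.factorial) :=
        mul_le_mul_of_nonneg_left h2 (by positivity)
    _ = _ := by ring

/-- `∑_{i ≤ m} N.choose i ≤ (3 N / m) ^ m` for `1 ≤ m ≤ N`. -/
theorem sum_choose_le {N m : ℕ} (hm : 1 ≤ m) (hN : m ≤ N) :
    ∑ i ∈ range (m + 1), (N.choose i : ℝ) ≤ (3 * N / m : ℝ) ^ m := by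
  have hm' : (0 : ℝ) < m := by exact_mod_cast hm
  have hN' : (0 : ℝ) < N := by exact_mod_cast (by omega : 0 < N)
  set x : ℝ := m / N with hx
  have hx0 : 0 < x := by positivity
  have hx1 : x ≤ 1 := by
    rw [hx, div_le_one hN']
    exact_mod_cast hN
  have h1 : (∑ i ∈ range (m + 1), (N.choose i : ℝ)) * x ^ m ≤ (1 + x) ^ N := by
    calc (∑ i ∈ range (m + 1), (N.choose i : ℝ)) * x ^ m
        = ∑ i ∈ range (m + 1), (N.choose i : ℝ) * x ^ m := by rw [sum_mul]
      _ ≤ ∑ i ∈ range (m + 1), x ^ i * 1 ^ (N - i) * (N.choose i : ℝ) := by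
          refine sum_le_sum fun i hi => ?_
          have hi' : i ≤ m := Nat.lt_succ_iff.1 (mem_range.1 hi)
          have h2 : x ^ m ≤ x ^ i := pow_le_pow_of_le_one hx0.le hx1 hi'
          rw [one_pow, mul_one, mul_comm (x ^ i)]
          exact mul_le_mul_of_nonneg_left h2 (Nat.cast_nonneg _)
      _ ≤ ∑ i ∈ range (N + 1), x ^ i * 1 ^ (N - i) * (N.choose i : ℝ) := by
          refine sum_le_sum_of_subset_of_nonneg ?_ fun i _ _ => by positivity
          exact range_subset_range.2 (by omega)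
      _ = (x + 1) ^ N := (add_pow x 1 N).symm
      _ = (1 + x) ^ N := by rw [add_comm]
  have h3 : (1 + x) ^ N ≤ 3 ^ m := by
    have h4 : 1 + x ≤ Real.exp x := by
      have := Real.add_one_le_exp x
      linarith
    have h5 : (1 + x) ^ N ≤ Real.exp x ^ N := pow_le_pow_left₀ (by positivity) h4 N
    have h6 : Real.exp x ^ N = Real.exp 1 ^ m := by
      rw [← Real.exp_nat_mul, ← Real.exp_nat_mul, hx]
      congr 1
      field_simp
    rw [h6] at h5
    refine h5.trans (pow_le_pow_left₀ (Real.exp_pos _).le ?_ m)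
    have := Real.exp_one_lt_d9
    linarith
  have h7 : (3 * N / m : ℝ) ^ m * x ^ m = 3 ^ m := by
    rw [← mul_pow, hx]
    congr 1
    field_simp
  have hxm : 0 < x ^ m := pow_pos hx0 m
  exact le_of_mul_le_mul_right ((h1.trans h3).trans h7.ge) hxm

end Pool.Agent.EFS
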