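import Mathlib

/-!
# The numbers of the sharp trade-off (project EFS, helper57)

As `Pool.Agent.EFT.Nums`, with the sharper tails (`th1`, `th2`) and the sharper bound `A2` of the
number of classes of degree at most `2 d` of the small world.
-/

set_option autoImplicit false

namespace Pool.Agent.EFS

/-- All numbers for one refutation with at most `M` lines with at most `L` leaves and and-height at
most `hh`; the big world is `CCC_k`, the small world `CCC_k'`; `nn`, `C` belong to the rules. -/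
structure Nums (k k' hh L M nn : ℕ) (C : ℝ) where
  Dl : ℕ
  p : ℕ
  τ : ℝ
  b : ℝ
  θ : ℝ
  th : ℝ
  hk : 3 ≤ k
  hk' : 3 ≤ k'
  D3 : 3 ≤ Dl
  p1 : 1 ≤ p
  τ0 : 0 ≤ τ
  θ0 : 0 ≤ θ
  θ1 : θ ≤ 1
  th0 : 0 ≤ th
  hL : hh + 1 ≤ L
  hn : nn ≤ hh
  hh1 : 1 ≤ hh
  hb : Real.cosh (hh * τ) ^ L * (1 + θ) ^ (2 * L) ≤ b
  hγ : (12 * b ^ 2) ^ hh * (2 * (3 * k * 2 ^ (k - 1) : ℕ) * b ^ 2 * Real.exp (-(τ * Dl))) ≤
    θ ^ 2 / 16
  hθ : (1 + θ) ^ (2 * L * (hh + 1)) ≤ 2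
  rad : 8 * (2 * k) * ((5 * hh + 6) * Dl + 8) < k * 2 ^ k
  rad' : 16 * (2 * k') * (2 * ((hh + 6) * (12 * p))) < k' * 2 ^ k'
  /-- `2 * p` disjoint edges -/
  th1 : 3 * (3 * k' * 2 ^ (k' - 1) : ℕ) / (2 * p : ℕ) * ((((hh + 2) * Dl : ℕ) + 1 : ℝ) * (2 * k) /
    (k * 2 ^ k)) ≤ th
  th2 : 3 * (k' * 2 ^ k' : ℕ) / (2 * p : ℕ) * ((2 * (2 * k) * (((hh + 2) * Dl : ℕ) + 1) : ℝ) /
    (k * 2 ^ k)) ≤ th
  /-- at most `(3 N' / (24 p)) ^ (24 p)` classes of degree at most `24 p` in the small world -/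
  fin : (3 * (3 * k' * 2 ^ (k' - 1) : ℕ) / (24 * p : ℕ) : ℝ) ^ (24 * p) * (8 * 3 ^ hh * (8 *
    ((M * L + (3 * k * 2 ^ (k - 1) : ℕ)) * (16 * L * (2 * th ^ p +
      2 * (3 * k * 2 ^ (k - 1) : ℕ) * b ^ 2 * Real.exp (-(τ * Dl))))) * (5 * L) ^ hh)) *
    ((C + 100) * L ^ 2) ≤ 1

end Pool.Agent.EFS
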