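import Pool.Agent.Lib.EFT.Prod
import Pool.Agent.Lib.EFS.Choose

/-!
# The truncated algebra of a world with a sharper bound of the multiplications (project EFS)
-/

set_option autoImplicit false

namespace Pool.Agent.EFT

open Finset World

noncomputable section

namespace World

variable {V E : Type} [Fintype V] [Fintype E] (G : World V E)

open Classical in
/-- Number of the classes of degree at most `m`. -/
def nLow (m : ℕ) : ℕ := (univ.filter fun s : G.K => G.deg s ≤ m).card

theorem nLow_mono {a b : ℕ} (h : a ≤ b) : G.nLow a ≤ G.nLow b := by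
  classical
  unfold nLow
  refine card_le_card fun s hs => ?_
  rw [mem_filter] at hs ⊢
  exact ⟨hs.1, hs.2.trans h⟩

/-- `nLow m` is at most the number of sets of at most `m` edges. -/
theorem nLow_le_sum (m : ℕ) :
    G.nLow m ≤ ∑ i ∈ range (m + 1), (Fintype.card E).choose i := by
  classical
  have h1 : G.nLow m ≤ ((range (m + 1)).biUnion fun i => powersetCard i (univ : Finset E)).card := by
    unfold nLow
    refine card_le_card_of_injOn (fun s => univ.filter fun e => G.rep s e ≠ 0) ?_ ?_
    · intro s hs
      have hs' := (mem_filter.1 (mem_coe.1 hs)).2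
      rw [mem_coe, mem_biUnion]
      refine ⟨G.deg s, ?_, ?_⟩
      · rw [mem_range]
        omega
      · rw [mem_powersetCard]
        refine ⟨subset_univ _, ?_⟩
        rw [← G.wt_rep s]
        rfl
    · intro s _ t _ h
      have h2 : ∀ e, G.rep s e = G.rep t e := by
        intro e
        have h3 : e ∈ (univ.filter fun e => G.rep s e ≠ 0) ↔
            e ∈ (univ.filter fun e => G.rep t e ≠ 0) := by
          have h' : (univ.filter fun e => G.rep s e ≠ 0) = univ.filter fun e => G.rep t e ≠ 0 := h
          rw [h']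
        simp only [mem_filter, mem_univ, true_and] at h3
        rcases zmod2_cases (G.rep s e) with h4 | h4 <;> rcases zmod2_cases (G.rep t e) with h5 | h5
        · rw [h4, h5]
        · exfalso
          exact (h3.2 (by rw [h5]; exact one_ne_zero)) h4
        · exfalso
          exact (h3.1 (by rw [h4]; exact one_ne_zero)) h5
        · rw [h4, h5]
      have h3 : G.rep s = G.rep t := funext h2
      rw [← G.cls_rep s, ← G.cls_rep t, h3]
  refine h1.trans (card_biUnion_le.trans (le_of_eq ?_))
  refine sum_congr rfl fun i _ => ?_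
  rw [card_powersetCard, card_univ]

theorem nLow_le {m : ℕ} (hm : 1 ≤ m) (hE : m ≤ Fintype.card E) :
    (G.nLow m : ℝ) ≤ (3 * Fintype.card E / m : ℝ) ^ m := by
  refine le_trans ?_ (Pool.Agent.EFS.sum_choose_le hm hE)
  exact_mod_cast G.nLow_le_sum m

theorem star_boundS {m : ℕ} {F : G.Hs} (hF : F ∈ G.Low m) (u : G.Hs) :
    ‖G.star F u‖ ≤ (G.nLow m : ℝ) * ‖F‖ * ‖u‖ := by
  classical
  rw [star_def]
  have h1 : ∑ s, F s • G.Z (G.rep s) u =
      ∑ s ∈ univ.filter (fun s : G.K => G.deg s ≤ m), F s • G.Z (G.rep s) u := by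
    symm
    refine sum_subset (subset_univ _) fun s _ hs => ?_
    rw [mem_filter, not_and] at hs
    rw [hF s (not_le.1 (hs (mem_univ _))), zero_smul]
  rw [h1]
  refine (norm_sum_le _ _).trans ?_
  have h2 : ∀ s ∈ univ.filter (fun s : G.K => G.deg s ≤ m),
      ‖F s • G.Z (G.rep s) u‖ ≤ ‖F‖ * ‖u‖ := by
    intro s _
    rw [norm_smul, Z_norm, Real.norm_eq_abs]
    exact mul_le_mul_of_nonneg_right (G.abs_le_norm F s) (norm_nonneg _)
  refine (sum_le_card_nsmul _ _ _ h2).trans ?_
  rw [nsmul_eq_mul, mul_assoc]
  refine mul_le_mul_of_nonneg_right ?_ (by positivity)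
  unfold nLow
  exact_mod_cast le_of_eq (by congr)

/-- The truncated algebra of a world. -/
def talgS (R : ℕ) (hR : 8 * G.Lam * R < Fintype.card V) : TAlg G.Hs where
  nm u := ‖u‖
  ip u v := inner ℝ u v
  nm_nonneg u := norm_nonneg u
  nm_add u v := norm_add_le u v
  nm_neg u := norm_neg u
  nm_sq u := (real_inner_self_eq_norm_sq u).symm
  cs u v := real_inner_le_norm u v
  ip_add u v w := inner_add_right u v w
  Low := G.Low
  low_mono h := G.low_mono h
  one := G.d0
  one_low := G.d0_low
  nm_one := G.norm_d0
  mul := G.star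
  mul_low hF hu := G.star_low hF hu
  one_mul u := G.d0_star u
  comm u v := G.star_comm u v
  A m := (G.nLow m : ℝ)
  A_nonneg m := by positivity
  bound hF u := G.star_boundS hF u
  rad := R
  assoc h hF hH hu := G.star_assoc hR h hF hH hu
  symm F u v := G.star_symm F u v

end World

end

end Pool.Agent.EFT
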