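import Pool.Agent.Lib.EFT.Tails
import Pool.Agent.Lib.EFS.Choose

/-!
# Sharper tail bounds for a uniformly random map `κ : V' → V` (project EFS)

As in `Pool.Agent.Lib.EFT.Tails`, with the binomial coefficient bounded by `(3 N / q) ^ q`.
-/

namespace Pool.Agent.EFS

open Finset Pool.Agent.EFT

section Count

variable {V' E' V : Type*} [Fintype V'] [DecidableEq V'] [Fintype V] [DecidableEq V]
variable [Fintype E'] [DecidableEq E']

omit [DecidableEq V] in
/-- (R3), first half: few edges of `E'` are mapped to bad pairs. -/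
theorem card_tail_pairs (B : V → V → Prop) [DecidableRel B] (src tgt : E' → V')
    (hloop : ∀ e, src e ≠ tgt e) (D0 : ℕ) (hD : 1 ≤ D0)
    (hdeg : ∀ v, (univ.filter fun e => src e = v ∨ tgt e = v).card ≤ D0)
    (c : ℝ) (hV : 0 < Fintype.card V)
    (hB : ((univ.filter fun p : V × V => B p.1 p.2).card : ℝ) ≤ c * Fintype.card V) (q : ℕ) :
    ((univ.filter fun κ : V' → V =>
        2 * D0 * q ≤ (univ.filter fun e : E' => B (κ (src e)) (κ (tgt e))).card).card : ℝ)
      ≤ (3 * Fintype.card E' / q * (c / Fintype.card V)) ^ q *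
        (Fintype.card V : ℝ) ^ Fintype.card V' := by
  classical
  set n : ℝ := (Fintype.card V : ℝ) with hn
  have hn0 : 0 < n := by rw [hn]; exact_mod_cast hV
  have hsub : (univ.filter fun κ : V' → V =>
        2 * D0 * q ≤ (univ.filter fun e : E' => B (κ (src e)) (κ (tgt e))).card)
      ⊆ ((Finset.powersetCard q (univ : Finset E')).filter fun M =>
          ∀ e ∈ M, ∀ f ∈ M, e ≠ f → Disj src tgt e f).biUnion fun M =>
          univ.filter fun κ : V' → V => ∀ e ∈ M, B (κ (src e)) (κ (tgt e)) := by
    intro κ hκ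
    obtain ⟨M, hMS, hMc, hMd⟩ := exists_matching src tgt D0 hD hdeg q _ (Finset.mem_filter.1 hκ).2
    rw [Finset.mem_biUnion]
    refine ⟨M, ?_, ?_⟩
    · rw [Finset.mem_filter, Finset.mem_powersetCard]
      exact ⟨⟨Finset.subset_univ _, hMc⟩, hMd⟩
    · rw [Finset.mem_filter]
      exact ⟨Finset.mem_univ _, fun e he => (Finset.mem_filter.1 (hMS he)).2⟩
  set b : ℝ := ((univ.filter fun p : V × V => B p.1 p.2).card : ℝ) with hb
  have hb0 : 0 ≤ b := by rw [hb]; positivity
  have hc0 : 0 ≤ c := by
    by_contra hc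
    push Not at hc
    have : c * n < 0 := mul_neg_of_neg_of_pos hc hn0
    linarith
  have hone : ∀ M ∈ ((Finset.powersetCard q (univ : Finset E')).filter fun M =>
          ∀ e ∈ M, ∀ f ∈ M, e ≠ f → Disj src tgt e f),
      ((univ.filter fun κ : V' → V => ∀ e ∈ M, B (κ (src e)) (κ (tgt e))).card : ℝ)
        ≤ (c / n) ^ q * n ^ Fintype.card V' := by
    intro M hM
    rw [Finset.mem_filter, Finset.mem_powersetCard] at hM
    obtain ⟨⟨-, hMc⟩, hMd⟩ := hM
    have h := card_matching_le (V := V) B src tgt hloop M hMd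
    rw [hMc] at h
    have h' : ((univ.filter fun κ : V' → V => ∀ e ∈ M, B (κ (src e)) (κ (tgt e))).card : ℝ)
        * n ^ (2 * q) ≤ b ^ q * n ^ Fintype.card V' := by
      rw [hn, hb]; exact_mod_cast h
    have h2 : b ^ q ≤ (c * n) ^ q := pow_le_pow_left₀ hb0 hB q
    have h3 : (c / n) ^ q * n ^ (2 * q) = (c * n) ^ q := by
      rw [pow_mul, ← mul_pow]
      congr 1
      field_simp
    have h4 : (0 : ℝ) < n ^ (2 * q) := by positivity
    have h5 : (0 : ℝ) ≤ n ^ Fintype.card V' := by positivity
    refine le_of_mul_le_mul_right ?_ h4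
    calc _ ≤ b ^ q * n ^ Fintype.card V' := h'
      _ ≤ (c * n) ^ q * n ^ Fintype.card V' := mul_le_mul_of_nonneg_right h2 h5
      _ = _ := by rw [← h3]; ring
  calc ((univ.filter fun κ : V' → V =>
        2 * D0 * q ≤ (univ.filter fun e : E' => B (κ (src e)) (κ (tgt e))).card).card : ℝ)
      ≤ ((((Finset.powersetCard q (univ : Finset E')).filter fun M =>
          ∀ e ∈ M, ∀ f ∈ M, e ≠ f → Disj src tgt e f).biUnion fun M =>
          univ.filter fun κ : V' → V => ∀ e ∈ M, B (κ (src e)) (κ (tgt e))).card : ℝ) := by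
        exact_mod_cast Finset.card_le_card hsub
    _ ≤ ∑ M ∈ ((Finset.powersetCard q (univ : Finset E')).filter fun M =>
          ∀ e ∈ M, ∀ f ∈ M, e ≠ f → Disj src tgt e f),
          ((univ.filter fun κ : V' → V => ∀ e ∈ M, B (κ (src e)) (κ (tgt e))).card : ℝ) := by
        exact_mod_cast Finset.card_biUnion_le
    _ ≤ ∑ M ∈ ((Finset.powersetCard q (univ : Finset E')).filter fun M =>
          ∀ e ∈ M, ∀ f ∈ M, e ≠ f → Disj src tgt e f), ((c / n) ^ q * n ^ Fintype.card V') :=
        Finset.sum_le_sum hone
    _ = (((Finset.powersetCard q (univ : Finset E')).filter fun M =>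
          ∀ e ∈ M, ∀ f ∈ M, e ≠ f → Disj src tgt e f).card : ℝ)
          * ((c / n) ^ q * n ^ Fintype.card V') := by
        rw [Finset.sum_const, nsmul_eq_mul]
    _ ≤ ((3 * Fintype.card E' / q : ℝ) ^ q) * ((c / n) ^ q * n ^ Fintype.card V') := by
        apply mul_le_mul_of_nonneg_right _ (by positivity)
        have h1 := Finset.card_filter_le (Finset.powersetCard q (univ : Finset E'))
          (fun M => ∀ e ∈ M, ∀ f ∈ M, e ≠ f → Disj src tgt e f)
        rw [Finset.card_powersetCard, Finset.card_univ] at h1
        have h2 := choose_le (Fintype.card E') q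
        refine le_trans ?_ h2
        exact_mod_cast h1
    _ = _ := by
        rw [← mul_assoc, ← mul_pow]

omit [Fintype E'] [DecidableEq E'] in
/-- (R3), second half: few vertices of `V'` are mapped into a small set `W`. -/
theorem card_tail_set (W : Finset V) (hV : 0 < Fintype.card V) (q : ℕ) :
    ((univ.filter fun κ : V' → V => q ≤ (univ.filter fun v : V' => κ v ∈ W).card).card : ℝ)
      ≤ (3 * Fintype.card V' / q * (W.card / Fintype.card V)) ^ q
        * (Fintype.card V : ℝ) ^ Fintype.card V' := by
  classical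
  set n : ℝ := (Fintype.card V : ℝ) with hn
  have hn0 : 0 < n := by rw [hn]; exact_mod_cast hV
  have hsub : (univ.filter fun κ : V' → V => q ≤ (univ.filter fun v : V' => κ v ∈ W).card)
      ⊆ (Finset.powersetCard q (univ : Finset V')).biUnion fun M =>
          univ.filter fun κ : V' → V => ∀ v ∈ M, κ v ∈ W := by
    intro κ hκ
    obtain ⟨M, hMS, hMc⟩ := Finset.exists_subset_card_eq (Finset.mem_filter.1 hκ).2
    rw [Finset.mem_biUnion]
    refine ⟨M, ?_, ?_⟩
    · rw [Finset.mem_powersetCard]
      exact ⟨Finset.subset_univ _, hMc⟩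
    · rw [Finset.mem_filter]
      exact ⟨Finset.mem_univ _, fun e he => (Finset.mem_filter.1 (hMS he)).2⟩
  have hone : ∀ M ∈ (Finset.powersetCard q (univ : Finset V')),
      ((univ.filter fun κ : V' → V => ∀ v ∈ M, κ v ∈ W).card : ℝ)
        ≤ (W.card / n) ^ q * n ^ Fintype.card V' := by
    intro M hM
    rw [Finset.mem_powersetCard] at hM
    obtain ⟨-, hMc⟩ := hM
    have h : (univ.filter fun κ : V' → V => ∀ v ∈ M, κ v ∈ W)
        = Fintype.piFinset fun v : V' => if v ∈ M then W else univ := by
      ext κ
      simp only [Finset.mem_filter, Finset.mem_univ, true_and, Fintype.mem_piFinset]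
      constructor
      · intro h v
        by_cases hv : v ∈ M
        · simp [hv, h v hv]
        · simp [hv]
      · intro h v hv
        have := h v
        simpa [hv] using this
    have h' : (univ.filter fun κ : V' → V => ∀ v ∈ M, κ v ∈ W).card
        * Fintype.card V ^ q = W.card ^ q * Fintype.card V ^ Fintype.card V' := by
      rw [h, Fintype.card_piFinset]
      have h1 : ∏ v : V', (if v ∈ M then W else (univ : Finset V)).card
          = (∏ v ∈ M, W.card) * ∏ v ∈ Mᶜ, Fintype.card V := by
        rw [← Finset.prod_mul_prod_compl M]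
        congr 1
        · apply Finset.prod_congr rfl
          intro v hv
          simp [hv]
        · apply Finset.prod_congr rfl
          intro v hv
          have : v ∉ M := by simpa using hv
          simp [this, Finset.card_univ]
      rw [h1, Finset.prod_const, Finset.prod_const, hMc, Finset.card_compl, hMc, mul_assoc,
        ← pow_add]
      congr 2
      have : M.card ≤ Fintype.card V' := Finset.card_le_univ M
      omega
    have h2 : ((univ.filter fun κ : V' → V => ∀ v ∈ M, κ v ∈ W).card : ℝ)
        * n ^ q = (W.card : ℝ) ^ q * n ^ Fintype.card V' := by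
      rw [hn]; exact_mod_cast h'
    have h4 : (0 : ℝ) < n ^ q := by positivity
    refine le_of_eq (mul_right_cancel₀ h4.ne' ?_)
    rw [h2, div_pow]
    field_simp
  calc ((univ.filter fun κ : V' → V =>
        q ≤ (univ.filter fun v : V' => κ v ∈ W).card).card : ℝ)
      ≤ (((Finset.powersetCard q (univ : Finset V')).biUnion fun M =>
          univ.filter fun κ : V' → V => ∀ v ∈ M, κ v ∈ W).card : ℝ) := by
        exact_mod_cast Finset.card_le_card hsub
    _ ≤ ∑ M ∈ (Finset.powersetCard q (univ : Finset V')),
          ((univ.filter fun κ : V' → V => ∀ v ∈ M, κ v ∈ W).card : ℝ) := by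
        exact_mod_cast Finset.card_biUnion_le
    _ ≤ ∑ M ∈ (Finset.powersetCard q (univ : Finset V')),
          ((W.card / n) ^ q * n ^ Fintype.card V') := Finset.sum_le_sum hone
    _ = ((Finset.powersetCard q (univ : Finset V')).card : ℝ)
          * ((W.card / n) ^ q * n ^ Fintype.card V') := by
        rw [Finset.sum_const, nsmul_eq_mul]
    _ ≤ ((3 * Fintype.card V' / q : ℝ) ^ q) * ((W.card / n) ^ q * n ^ Fintype.card V') := by
        apply mul_le_mul_of_nonneg_right _ (by positivity)
        rw [Finset.card_powersetCard, Finset.card_univ]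
        exact choose_le (Fintype.card V') q
    _ = _ := by
        rw [← mul_assoc, ← mul_pow]

end Count

end Pool.Agent.EFS
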