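import Pool.Agent.Lib.EFT.RestAv
import Pool.Agent.Lib.EFS.Tails

/-!
# Averages over `κ` and `r` with the sharper tails (project EFS)

As in `Pool.Agent.Lib.EFT.RestMom`, `Pool.Agent.Lib.EFT.RestAv`.
-/

set_option autoImplicit false

namespace Pool.Agent.EFT

open Finset World

noncomputable section

namespace World

variable {V E V' E' : Type} [Fintype V] [Fintype E] [Fintype V'] [Fintype E']

/-- tail of the weight of a pull-back -/
theorem card_pull_tailS [DecidableEq V'] [DecidableEq E'] (G : World V E) (H : World V' E')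
    (hloop : ∀ e, H.src e ≠ H.tgt e)
    (D0 : ℕ) (hD0 : 1 ≤ D0)
    (hdeg : ∀ v, (univ.filter fun e => H.src e = v ∨ H.tgt e = v).card ≤ D0)
    (hV : 0 < Fintype.card V) (S : E → ZMod 2) (q D : ℕ) (hD : 2 * D0 * q ≤ D) :
    ((univ.filter fun κ : V' → V => D < wt (G.pull H κ S)).card : ℝ)
      ≤ (3 * Fintype.card E' / q * ((wt S * G.Lam) / Fintype.card V) : ℝ) ^ q
        * (Fintype.card V : ℝ) ^ Fintype.card V' := by
  classical
  have h := Pool.Agent.EFS.card_tail_pairs (V' := V') (E' := E')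
    (fun a b : V => (∑ e, S e * G.X a b e) ≠ 0) H.src H.tgt hloop D0 hD0
    hdeg (wt S * G.Lam : ℝ) hV (G.card_B S) q
  refine le_trans ?_ h
  have hsub : (univ.filter fun κ : V' → V => D < wt (G.pull H κ S))
      ⊆ (univ.filter fun κ : V' → V => 2 * D0 * q ≤ (univ.filter fun e' : E' =>
        (∑ e, S e * G.X (κ (H.src e')) (κ (H.tgt e')) e) ≠ 0).card) := by
    intro κ hκ
    rw [mem_filter] at hκ ⊢
    refine ⟨mem_univ _, ?_⟩
    have := hκ.2
    rw [wt_pull] at this
    omega
  exact_mod_cast card_le_card hsub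

variable [DecidableEq V'] [DecidableEq E']

/-- numeric hypotheses for the restriction -/
structure NumRS (G : World V E) (H : World V' E') (r1 D D0 d p : ℕ) (th : ℝ) : Prop where
  rad : 8 * G.Lam * (r1 + 2) < Fintype.card V
  rad' : 16 * H.Lam * D < Fintype.card V'
  degree : ∀ a, (univ.filter fun e' => H.src e' = a ∨ H.tgt e' = a).card ≤ D0
  loop : ∀ e', H.src e' ≠ H.tgt e'
  D01 : 1 ≤ D0
  dD : d ≤ D
  qd : 4 * D0 * p ≤ d
  qn : 8 * p ≤ Fintype.card V'
  th1 : 3 * (Fintype.card E' : ℝ) / (2 * p : ℕ) * ((r1 + 1) * G.Lam / Fintype.card V) ≤ th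
  th2 : 3 * (Fintype.card V' : ℝ) / (2 * p : ℕ) * ((2 * G.Lam * (r1 + 1)) / Fintype.card V) ≤ th

/-- tail of a pull-back in terms of `th` -/
lemma tail_thS [Nonempty V] {G : World V E} {H : World V' E'} {r1 D D0 d p : ℕ} {th : ℝ}
    (h : NumRS G H r1 D D0 d p th) {S : E → ZMod 2} (hS : wt S ≤ r1 + 1) {m : ℕ} (hm : d ≤ m) :
    ((univ.filter fun κ : V' → V => m < wt (G.pull H κ S)).card : ℝ)
      ≤ (th ^ p) ^ 2 * (Fintype.card (V' → V) : ℝ) := by
  have hV : 0 < Fintype.card V := Fintype.card_pos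
  have hV' : (0 : ℝ) < Fintype.card V := by exact_mod_cast hV
  have h1 := G.card_pull_tailS H h.loop D0 h.D01 h.degree hV S (2 * p) m
    (by have := h.qd; calc 2 * D0 * (2 * p) = 4 * D0 * p := by ring
          _ ≤ d := this
          _ ≤ m := hm)
  refine h1.trans ?_
  rw [card_fun_real, ← pow_mul, mul_comm p 2]
  apply mul_le_mul_of_nonneg_right _ (by positivity)
  apply pow_le_pow_left₀ (by positivity)
  refine le_trans ?_ h.th1
  have : (wt S : ℝ) ≤ r1 + 1 := by exact_mod_cast hS
  gcongr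

open Classical in
/-- tail of a composite with a small set -/
lemma tail_set_thS [Nonempty V] {G : World V E} {H : World V' E'} {r1 D D0 d p : ℕ} {th : ℝ}
    (h : NumRS G H r1 D D0 d p th) {W : V → ZMod 2} (hW : wt W ≤ 2 * G.Lam * (r1 + 1)) :
    ((univ.filter fun κ : V' → V => ¬ H.small (fun v => W (κ v))).card : ℝ)
      ≤ (th ^ p) ^ 2 * (Fintype.card (V' → V) : ℝ) := by
  classical
  have hV : 0 < Fintype.card V := Fintype.card_pos
  have hV' : (0 : ℝ) < Fintype.card V := by exact_mod_cast hV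
  have h1 := Pool.Agent.EFS.card_tail_set (V' := V') (univ.filter fun v : V => W v ≠ 0) hV (2 * p)
  have h2 : ((univ.filter fun κ : V' → V => ¬ H.small (fun v => W (κ v))).card : ℝ)
      ≤ ((univ.filter fun κ : V' → V => 2 * p ≤
        (univ.filter fun v : V' => κ v ∈ (univ.filter fun v : V => W v ≠ 0)).card).card : ℝ) := by
    have hsub : (univ.filter fun κ : V' → V => ¬ H.small (fun v => W (κ v)))
        ⊆ (univ.filter fun κ : V' → V => 2 * p ≤
        (univ.filter fun v : V' => κ v ∈ (univ.filter fun v : V => W v ≠ 0)).card) := by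
      intro κ hκ
      rw [mem_filter] at hκ ⊢
      refine ⟨mem_univ _, ?_⟩
      have h3 := hκ.2
      unfold small wt at h3
      have h4 : (univ.filter fun v : V' => κ v ∈ (univ.filter fun v : V => W v ≠ 0)).card
          = (univ.filter fun v : V' => W (κ v) ≠ 0).card := by
        congr 1
        ext v; simp
      rw [h4]
      have h5 := h.qn
      have h6 : Fintype.card V' ≤ 4 * (univ.filter fun v : V' => W (κ v) ≠ 0).card := by
        convert not_lt.mp h3
      omega
    exact_mod_cast card_le_card hsub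
  refine h2.trans (h1.trans ?_)
  rw [card_fun_real, ← pow_mul, mul_comm p 2]
  apply mul_le_mul_of_nonneg_right _ (by positivity)
  apply pow_le_pow_left₀ (by positivity)
  refine le_trans ?_ h.th2
  have : (((univ.filter fun v : V => W v ≠ 0).card : ℕ) : ℝ) ≤ 2 * G.Lam * (r1 + 1) := by
    exact_mod_cast hW
  gcongr

/-- the proportion of the `κ` for which a class is bad -/
lemma card_badS [Nonempty V] {G : World V E} {H : World V' E'} {r1 D D0 d p : ℕ} {th : ℝ}
    (h : NumRS G H r1 D D0 d p th) (e : E) {s : G.K} (hs : G.deg s ≤ r1)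
    [DecidablePred fun κ : V' → V => ¬ G.Good H κ D s (one e)] :
    ((univ.filter fun κ : V' → V => ¬ G.Good H κ D s (one e)).card : ℝ)
      ≤ (2 * th ^ p) ^ 2 * (Fintype.card (V' → V) : ℝ) := by
  classical
  have hd2 : G.deg (s + G.cls (one e)) ≤ r1 + 1 := by
    have := G.deg_add_le s (one e)
    rw [wt_one] at this
    omega
  have hCut : G.rep s + one e + G.rep (s + G.cls (one e)) ∈ G.Cut := by
    rw [← cls_eq_zero, cls_add, cls_add, cls_rep, cls_rep, K_add_self]
  have hwt : wt (G.rep s + one e + G.rep (s + G.cls (one e))) ≤ 2 * (r1 + 1) := by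
    have := wt_add3 (G.rep s) (one e) (G.rep (s + G.cls (one e)))
    rw [wt_rep, wt_rep, wt_one] at this
    omega
  obtain ⟨W, hW, hWc⟩ := G.small_exists hCut (by
    have h1 := h.rad
    calc 4 * G.Lam * wt (G.rep s + one e + G.rep (s + G.cls (one e)))
        ≤ 4 * G.Lam * (2 * (r1 + 1)) := Nat.mul_le_mul_left _ hwt
      _ = 8 * G.Lam * (r1 + 1) := by ring
      _ ≤ 8 * G.Lam * (r1 + 2) := Nat.mul_le_mul_left _ (by omega)
      _ < _ := h1)
  have hWwt : wt W ≤ 2 * G.Lam * (r1 + 1) := by
    have h2 := G.W2 W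
    rw [hWc] at h2
    have h3 : wt W ≤ Fintype.card V - wt W := by
      unfold small at hW; omega
    rw [min_eq_left h3] at h2
    calc wt W ≤ G.Lam * wt (G.rep s + one e + G.rep (s + G.cls (one e))) := h2
      _ ≤ G.Lam * (2 * (r1 + 1)) := Nat.mul_le_mul_left _ hwt
      _ = _ := by ring
  have hsub : (univ.filter fun κ : V' → V => ¬ G.Good H κ D s (one e))
      ⊆ (univ.filter fun κ : V' → V => D < wt (G.pull H κ (G.rep s))) ∪
        ((univ.filter fun κ : V' → V => D < wt (G.pull H κ (G.rep (s + G.cls (one e))))) ∪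
        ((univ.filter fun κ : V' → V => D < wt (G.pull H κ (one e))) ∪
        (univ.filter fun κ : V' → V => ¬ H.small (fun v => W (κ v))))) := by
    intro κ hκ
    rw [mem_filter] at hκ
    by_contra hcon
    simp only [mem_union, mem_filter, mem_univ, true_and, not_or, not_lt, not_not] at hcon
    exact hκ.2 ⟨hcon.1, hcon.2.1, hcon.2.2.1, W, hW, hWc, hcon.2.2.2⟩
  have c1 := tail_thS h (S := G.rep s) (by rw [wt_rep]; omega) h.dD
  have c2 := tail_thS h (S := G.rep (s + G.cls (one e))) (by rw [wt_rep]; omega) h.dD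
  have c3 := tail_thS h (S := one e) (by rw [wt_one]; omega) h.dD
  have c4 := tail_set_thS h hWwt
  have c5 : ((univ.filter fun κ : V' → V => ¬ G.Good H κ D s (one e)).card : ℝ)
      ≤ ((univ.filter fun κ : V' → V => D < wt (G.pull H κ (G.rep s))).card : ℝ) +
        (((univ.filter fun κ : V' → V => D < wt (G.pull H κ (G.rep (s + G.cls (one e))))).card : ℝ)
        + (((univ.filter fun κ : V' → V => D < wt (G.pull H κ (one e))).card : ℝ) +
        ((univ.filter fun κ : V' → V => ¬ H.small (fun v => W (κ v))).card : ℝ))) := by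
    have := (card_le_card hsub).trans ((card_union_le _ _).trans
      (Nat.add_le_add_left ((card_union_le _ _).trans
        (Nat.add_le_add_left (card_union_le _ _) _)) _))
    exact_mod_cast this
  calc _ ≤ _ := c5
    _ ≤ (th ^ p) ^ 2 * (Fintype.card (V' → V) : ℝ) + ((th ^ p) ^ 2 * (Fintype.card (V' → V) : ℝ)
        + ((th ^ p) ^ 2 * (Fintype.card (V' → V) : ℝ)
        + (th ^ p) ^ 2 * (Fintype.card (V' → V) : ℝ))) := by linarith
    _ = _ := by ring

section main

variable {G : World V E} {H : World V' E'} {r1 D D0 d p : ℕ} {th : ℝ}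

/-- (R4), first half -/
theorem av_DfS [Nonempty V] (h : NumRS G H r1 D D0 d p th) (hth : 0 ≤ th)
    (hOm : ∀ κ, (G.OmF H κ).Nonempty) (hO : Orth G H) (e : E) {y : G.Hs} (hy : y ∈ G.Low r1) :
    G.av H (fun κ r => ‖G.Df H κ D r (one e) y‖) ≤ 2 * th ^ p * ‖y‖ := by
  classical
  apply G.av_le_of_sq H hOm (by positivity)
  have := G.av_carried H (fun κ s => ¬ G.Good H κ D s (one e))
    (fun κ r => ‖G.Df H κ D r (one e) y‖ ^ 2) y ((2 * th ^ p) ^ 2)
    (fun κ => G.Df_moment H κ D (one e) (hO κ)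
      (fun s r hg hr => G.Rs_Z H κ hr hg h.rad') y)
    (fun s hs => card_badS h e (by
      by_contra hc
      exact hs (hy s (not_le.mp hc))))
  refine this.trans (le_of_eq ?_)
  ring

/-- (R4), second half -/
theorem av_HiS [Nonempty V] (h : NumRS G H r1 D D0 d p th) (hth : 0 ≤ th)
    (hOm : ∀ κ, (G.OmF H κ).Nonempty) (hO : Orth G H) {y : G.Hs} (hy : y ∈ G.Low r1) :
    G.av H (fun κ r => ‖H.Hi d (G.Rs H κ D r y)‖) ≤ th ^ p * ‖y‖ := by
  classical
  apply G.av_le_of_sq H hOm (by positivity)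
  have := G.av_carried H (fun κ s => d < wt (G.pull H κ (G.rep s)))
    (fun κ r => ‖H.Hi d (G.Rs H κ D r y)‖ ^ 2) y ((th ^ p) ^ 2)
    (fun κ => G.Hi_moment H κ D d (hO κ) y)
    (fun s hs => tail_thS h (by
      rw [wt_rep]
      by_contra hc
      exact hs (hy s (by omega))) (le_refl d))
  refine this.trans (le_of_eq ?_)
  ring

/-- the pull-backs of the variables are short -/
theorem av_pullS [Nonempty V] (h : NumRS G H r1 D D0 d p th) (hth : 0 ≤ th)
    (hOm : ∀ κ, (G.OmF H κ).Nonempty) (e : E) :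
    G.av H (fun κ _ => if d < wt (G.pull H κ (one e)) then 1 else 0) ≤ th ^ p := by
  classical
  apply G.av_le_of_sq H hOm (by positivity)
  have hN : 0 < (Fintype.card (V' → V) : ℝ) := by
    have : 0 < Fintype.card (V' → V) := Fintype.card_pos
    positivity
  unfold av
  rw [div_le_iff₀ hN]
  have h1 := tail_thS h (S := one e) (by rw [wt_one]; omega) (le_refl d)
  refine le_trans (le_of_eq ?_) h1
  rw [Finset.card_filter]
  push_cast
  refine sum_congr rfl fun κ _ => ?_
  have hc : ((G.OmF H κ).card : ℝ) ≠ 0 := by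
    have := Finset.card_pos.mpr (hOm κ)
    positivity
  rw [sum_const, nsmul_eq_mul]
  split_ifs <;> field_simp <;> simp

end main

end World

end

end Pool.Agent.EFT
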