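import Pool.Agent.Lib.EFT.InstCCC
import Pool.Agent.Lib.EFS.OneRho
import Pool.Agent.Lib.EFS.Nums

/-!
# The good restriction for two cube-connected cycles with the sharper counts (project EFS)

As `Pool.Agent.Lib.EFT.InstCCC`.
-/

set_option autoImplicit false

open Finset

namespace Pool.Agent.EFS

open Pool.Agent.EFT CCC World

noncomputable section

namespace Inst

variable {k k' hh L M nn : ℕ} {C : ℝ}

variable [NeZero k] [NeZero k']

theorem numR (N : Nums k k' hh L M nn C) (b : V k → ZMod 2) (b' : V k' → ZMod 2) :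
    NumRS (world b) (world b') ((hh + 2) * N.Dl) ((hh + 6) * (12 * N.p)) 3 (12 * N.p) N.p
      N.th where
  rad := by
    rw [world_Lam, card_V]
    refine lt_of_le_of_lt (Nat.mul_le_mul_left _ ?_) N.rad
    nlinarith [Nat.zero_le N.Dl, Nat.zero_le (hh * N.Dl)]
  rad' := by
    rw [world_Lam, card_V]
    refine lt_of_le_of_lt (Nat.mul_le_mul_left _ ?_) N.rad'
    omega
  degree a := by
    classical
    have h := card_star_le a
    convert h <;> rfl
  loop e' := src_ne_tgt (by have := N.hk'; omega) e'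
  D01 := by norm_num
  dD := by nlinarith [Nat.zero_le N.p, Nat.zero_le (hh * N.p)]
  qd := by omega
  qn := by
    rw [card_V]
    have h1 := N.rad'
    have h2 := N.hk'
    have h3 : 8 * N.p ≤ 16 * (2 * k') * (2 * ((hh + 6) * (12 * N.p))) := by
      calc 8 * N.p = 1 * (8 * N.p) := (one_mul _).symm
        _ ≤ (16 * (2 * k')) * (2 * ((hh + 6) * (12 * N.p))) := by
            refine Nat.mul_le_mul (by omega) ?_
            have h4 : 12 * N.p ≤ (hh + 6) * (12 * N.p) := Nat.le_mul_of_pos_left _ (by omega)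
            omega
    omega
  th1 := by
    have h := N.th1
    rw [Pool.Agent.EFT.Inst.card_E, card_V, world_Lam]
    push_cast at h ⊢
    exact h
  th2 := by
    have h := N.th2
    rw [card_V, card_V, world_Lam]
    push_cast at h ⊢
    exact h

theorem gCalc (N : Nums k k' hh L M nn C) (b : V k → ZMod 2) :
    GCalc (world b) ((hh + 2) * N.Dl) N.Dl L hh N.τ N.θ N.b where
  one_le := by have := N.D3; omega
  tau := N.τ0
  theta := N.θ0
  theta1 := N.θ1
  b_ge := N.hb
  small := by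
    rw [gam, epsT, Pool.Agent.EFT.Inst.card_E]
    exact N.hγ
  rad := by
    rw [world_Lam, card_V]
    refine lt_of_le_of_lt (Nat.mul_le_mul_left _ ?_) N.rad
    nlinarith [Nat.zero_le N.Dl, Nat.zero_le (hh * N.Dl)]

/-- The error of one cost. -/
def e0 (N : Nums k k' hh L M nn C) : ℝ :=
  ((M * L : ℕ) + Fintype.card (E k) : ℝ) *
    (16 * L * (2 * N.th ^ N.p + epsT (Fintype.card (E k)) N.Dl N.τ N.b))

theorem e0_nonneg (N : Nums k k' hh L M nn C) : 0 ≤ e0 N := by
  have h1 := Pool.Agent.EFT.Inst.epsT_nn (Fintype.card (E k)) N.Dl N.τ N.b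
  have h2 := N.th0
  unfold e0
  positivity

/-- The bound of the multiplications of degree `24 p` in the small world. -/
def bnd (N : Nums k k' hh L M nn C) : ℝ :=
  (3 * (3 * k' * 2 ^ (k' - 1) : ℕ) / (24 * N.p : ℕ) : ℝ) ^ (24 * N.p)

/-- The final inequality in terms of `e0`. -/
theorem fin' (N : Nums k k' hh L M nn C) :
    bnd N * (8 * 3 ^ hh * (8 * e0 N * (5 * L) ^ hh)) * ((C + 100) * (L : ℝ) ^ 2) ≤ 1 := by
  have h := N.fin
  rw [bnd, e0, epsT, Pool.Agent.EFT.Inst.card_E]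
  push_cast at h ⊢
  exact h

theorem nLow_le_bnd (N : Nums k k' hh L M nn C) (b' : V k' → ZMod 2) {m : ℕ}
    (hm : m ≤ 24 * N.p) : ((world b').nLow m : ℝ) ≤ bnd N := by
  have h0 := (world b').nLow_mono hm
  have h1 : ((world b').nLow m : ℝ) ≤ ((world b').nLow (24 * N.p) : ℝ) := by exact_mod_cast h0
  refine h1.trans ?_
  have hp := N.p1
  have h2 := (world b').nLow_le (m := 24 * N.p) (by omega) (by
    rw [Pool.Agent.EFT.Inst.card_E]
    have h3 := N.rad'
    have h4 := N.hk'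
    obtain ⟨j, hj⟩ : ∃ j, k' = j + 1 := ⟨k' - 1, by omega⟩
    have h5 : k' * 2 ^ k' = 2 * (k' * 2 ^ (k' - 1)) := by
      rw [hj, Nat.add_sub_cancel, pow_succ]; ring
    have h6 : 24 * N.p ≤ 2 * ((hh + 6) * (12 * N.p)) := by
      have : 12 * N.p ≤ (hh + 6) * (12 * N.p) := Nat.le_mul_of_pos_left _ (by omega)
      omega
    have h7 : 2 * (2 * ((hh + 6) * (12 * N.p))) ≤ 16 * (2 * k') * (2 * ((hh + 6) * (12 * N.p))) :=
      Nat.mul_le_mul_right _ (by omega)
    have h8 : 3 * k' * 2 ^ (k' - 1) = 3 * (k' * 2 ^ (k' - 1)) := by ring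
    omega)
  rw [Pool.Agent.EFT.Inst.card_E] at h2
  rw [bnd]
  exact h2

/-- **The values of all formulas of the lines.** -/
theorem val_CCC (N : Nums k k' hh L M nn C) (hC : 0 ≤ C) (b : V k → ZMod 2)
    (b' : V k' → ZMod 2) (hsum : ∑ v, b v = ∑ v, b' v) (ln : Fin M → Fm (E k))
    (hl : ∀ i, (ln i).lv ≤ L ∧ (ln i).ah ≤ hh) :
    ∃ (T : TAlg (world b').Hs) (F : Fm (E k) → (world b').Hs) (B I : ℝ),
      Val T (fun f => ∃ i, (ln i).Sub f) F (12 * N.p) ((hh + 8) * (12 * N.p)) B I ∧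
      (∀ g h, (world b).Qf N.Dl (.and g h) ((world b).dl 0) = 0 → F (.and g h) = 0) ∧
      (∀ f, F (.neg f) = T.one - F f) ∧
      T.A (12 * N.p) * (C * (B + I)) ≤ 1 / 2 ∧ 4 * I < 1 := by
  classical
  set G := world b with hG
  set H := world b' with hH
  set d : ℕ := 12 * N.p with hd
  have hsum' : ∑ v, G.b v = ∑ v, H.b v := hsum
  have hOm : ∀ κ, (G.OmF H κ).Nonempty := fun κ => G.OmF_nonempty H κ hsum'
  have hne : Nonempty (V k) := ⟨(0, 0)⟩
  have hR : 8 * H.Lam * (2 * ((hh + 6) * d)) < Fintype.card (V k') := by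
    rw [hH, world_Lam, card_V]
    refine lt_of_le_of_lt ?_ N.rad'
    exact Nat.mul_le_mul_right _ (by omega)
  have hRad : (hh + 6) * d + 4 * d ≤ 2 * ((hh + 6) * d) := by
    nlinarith [Nat.zero_le d, Nat.zero_le (hh * d)]
  have hL2 : 2 ≤ L := by have := N.hL; have := N.hh1; omega
  have he0 := e0_nonneg N
  have hfin := fin' N
  set X : ℝ := bnd N with hX
  have hX1 : 1 ≤ X := by
    have h1 := nLow_le_bnd N b' (m := 0) (Nat.zero_le _)
    refine le_trans ?_ h1
    have h2 : 0 < (world b').nLow 0 := by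
      unfold nLow
      refine card_pos.2 ⟨0, ?_⟩
      rw [mem_filter]
      refine ⟨mem_univ _, ?_⟩
      exact le_of_eq (world b').deg_zero
    exact_mod_cast h2
  set B : ℝ := 8 * e0 N * (5 * L) ^ hh with hB
  set I : ℝ := 8 * 3 ^ hh * B with hI
  have hLr : (2 : ℝ) ≤ L := by exact_mod_cast hL2
  have hL4 : (4 : ℝ) ≤ (L : ℝ) ^ 2 := by nlinarith
  have h5 : (1 : ℝ) ≤ (5 * L) ^ hh := one_le_pow₀ (by linarith)
  have h3 : (1 : ℝ) ≤ 3 ^ hh := one_le_pow₀ (by norm_num)
  have hB0 : 0 ≤ B := by positivity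
  have hI0 : 0 ≤ I := by positivity
  have hBI : B ≤ I := by
    rw [hI]; exact le_mul_of_one_le_left hB0 (by linarith)
  have heB : 8 * e0 N ≤ B := by
    rw [hB]; exact le_mul_of_one_le_right (by positivity) h5
  have hXI : 0 ≤ X * I := by positivity
  have hXI4 : X * I * (4 * (C + 100)) ≤ 1 := by
    refine le_trans ?_ hfin
    refine mul_le_mul_of_nonneg_left ?_ hXI
    nlinarith
  have hXIC : X * I * C ≤ 1 / 4 := by nlinarith
  have hXI1 : X * I ≤ 1 / 400 := by nlinarith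
  have hIX : I ≤ X * I := le_mul_of_one_le_left hI0 hX1
  have he1 : e0 N < 1 := by linarith
  obtain ⟨S, hSd, hSD, hSQ, hSdl, hand, hc1, hc2⟩ := one_rhoS G H (numR N b b') N.th0 hOm
    (orth G H) (gCalc N b) (2 * ((hh + 6) * d)) hR hRad
    (Nat.mul_le_mul_right _ (by omega)) (Nat.mul_le_mul_right _ (by omega)) N.hθ (by omega)
    ln hl (e0 := e0 N) rfl he1
  have hA : ∀ m, (H.talgS (2 * ((hh + 6) * d)) hR).A m = (H.nLow m : ℝ) := fun m => rfl
  have hV := S.val (Sb := fun f => ∃ i, (ln i).Sub f) (fun f g ⟨t, ht⟩ hg => ⟨t, ht.trans hg⟩)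
    N.hL (fun f ⟨t, ht⟩ => ht.lv_le.trans (hl t).1) (fun f ⟨t, ht⟩ => ht.ah_le.trans (hl t).2)
    (by rw [hSd, hSD]; exact Nat.mul_le_mul_right _ (by omega)) he0 hc1 hc2 (by
      rw [hA, hSd]
      refine le_trans ?_ hfin
      have hle : (H.nLow (2 * d) : ℝ) ≤ X := nLow_le_bnd N b' (by omega)
      have hn0 : (0 : ℝ) ≤ H.nLow (2 * d) := Nat.cast_nonneg _
      have hBI' : 0 ≤ 8 * 3 ^ hh * (8 * e0 N * (5 * L) ^ hh) := hI0
      refine mul_le_mul (mul_le_mul_of_nonneg_right hle hBI') ?_ (by positivity)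
        (mul_nonneg (by linarith) hBI')
      nlinarith)
  rw [hSd, hSD] at hV
  refine ⟨_, S.F, B, I, ?_, ?_, S.F_neg, ?_, by linarith⟩
  · have e : (hh + 8) * d = (hh + 6) * d + 2 * d := by ring
    rw [e]
    exact hV
  · intro g h h0
    exact hand g h (by rw [hSQ, hSdl]; exact h0)
  · rw [hA]
    have hXd : (H.nLow d : ℝ) ≤ X := nLow_le_bnd N b' (by omega)
    calc (H.nLow d : ℝ) * (C * (B + I)) ≤ X * (C * (I + I)) := by
          refine mul_le_mul hXd ?_ (by positivity) (by linarith)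
          exact mul_le_mul_of_nonneg_left (by linarith) hC
      _ = 2 * (X * I * C) := by ring
      _ ≤ 1 / 2 := by linarith

end Inst

end

end Pool.Agent.EFS
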