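import Pool.Agent.Lib.EFS.NumA

/-!
# The numbers of the sharp trade-off (project EFS, helper15)
-/

set_option autoImplicit false

namespace Pool.Agent.EFS

namespace Par

/-- A polynomial against a power of two. -/
theorem exists_pow (A : ℕ) : ∃ u₁ : ℕ, ∀ u ≥ u₁, A * (u ^ 2 + 1) ^ 2 ≤ 2 ^ (u / 2) := by
  refine ⟨16 * (A + 16), fun u hu => ?_⟩
  obtain ⟨w, hw⟩ : ∃ w, w = u / 16 := ⟨_, rfl⟩
  have h1 : w < 2 ^ w := Nat.lt_two_pow_self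
  have h2 : A + 16 ≤ w := by omega
  have h3 : u + 1 ≤ 16 * (w + 1) := by omega
  have h4 : (u ^ 2 + 1) ^ 2 ≤ (16 * (w + 1)) ^ 4 := by
    have h5 : u ^ 2 + 1 ≤ (u + 1) ^ 2 := by nlinarith
    calc (u ^ 2 + 1) ^ 2 ≤ ((u + 1) ^ 2) ^ 2 := Nat.pow_le_pow_left h5 2
      _ = (u + 1) ^ 4 := by ring
      _ ≤ _ := Nat.pow_le_pow_left h3 4
  have h5 : (16 * (w + 1)) ^ 4 ≤ (16 * 2 ^ w) ^ 4 :=
    Nat.pow_le_pow_left (Nat.mul_le_mul_left _ h1) 4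
  have h6 : (16 * 2 ^ w) ^ 4 = 2 ^ (16 + 4 * w) := by
    rw [mul_pow, pow_add, ← pow_mul, mul_comm w 4]
    norm_num
  have h7 : A ≤ 2 ^ w := by omega
  calc A * (u ^ 2 + 1) ^ 2 ≤ 2 ^ w * 2 ^ (16 + 4 * w) := by
        refine Nat.mul_le_mul h7 (h4.trans (h5.trans h6.le))
    _ = 2 ^ (w + (16 + 4 * w)) := (pow_add _ _ _).symm
    _ ≤ 2 ^ (u / 2) := Nat.pow_le_pow_right (by norm_num) (by omega)

theorem pow_exp_le {a b : ℕ} (h : 2 ^ a ≤ 2 ^ b) : a ≤ b :=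
  (Nat.pow_le_pow_iff_right (by norm_num)).mp h

/-- All numbers, in natural numbers. `G` is `1 + log₂ M`. -/
theorem nat_nums {A k u L M G c : ℕ} (hc : c = 400)
    (hu : A * (u ^ 2 + 1) ^ 2 ≤ 2 ^ (u / 2)) (hA : 100000 ≤ A) (hu10 : 500 ≤ u)
    (hk3 : 3 ≤ k) (hku : 4 * k ≤ u ^ 2) (hL : 1 ≤ L) (hG : 1 ≤ G) (hM : M ≤ 2 ^ G)
    (hL2 : L * G * 2 ^ (200 * u) ≤ 2 ^ c * (3 * k * 2 ^ (k - 1)) ^ 2) :
    ∃ p, Sc k u (2 ^ u) (L * (2 ^ u) ^ 4) p ∧ M * (60 * L ^ 4 + L) ≤ 2 ^ p ∧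
      2 ≤ 2 ^ (u / 4) ∧ 60 * L * 2 ^ Nat.log (2 ^ (u / 4)) L + 3 ≤ L * (2 ^ u) ^ 4 ∧
      6 * 2 ^ (u / 4) * (Nat.log 2 L + 1) ^ 2 + 2 ≤ 2 ^ u := by
  set W := (u ^ 2 + 1) ^ 2 with hW
  have hW1 : u ^ 2 + 1 ≤ W := by rw [hW]; nlinarith
  have hAW : 100000 * W ≤ 2 ^ (u / 2) := (Nat.mul_le_mul_right _ hA).trans hu
  have hhalf : 2 ^ (u / 2) * 2 ^ (u / 2) ≤ 2 ^ u := by
    rw [← pow_add]
    exact Nat.pow_le_pow_right (by norm_num) (by omega)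
  have hle1 : 2 ^ (u / 2) ≤ 2 ^ u := Nat.pow_le_pow_right (by norm_num) (by omega)
  have huu : u ≤ u ^ 2 := Nat.le_self_pow (by norm_num) u
  -- edges
  have hE : (3 * k * 2 ^ (k - 1)) ^ 2 ≤ 2 ^ (u + 2 * k) := by
    have h1 : 3 * k ≤ 2 ^ (u / 2) := by omega
    have h2 : (3 * k) ^ 2 ≤ 2 ^ u := by
      rw [pow_two]
      exact (Nat.mul_le_mul h1 h1).trans hhalf
    rw [mul_pow, pow_add, ← pow_mul, mul_comm (k - 1) 2]
    exact Nat.mul_le_mul h2 (Nat.pow_le_pow_right (by norm_num) (by omega))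
  have hL3 : L * G * 2 ^ (194 * u) * 2 ^ (6 * u) ≤ 2 ^ (2 * k) * 2 ^ (6 * u) := by
    have e1 : L * G * 2 ^ (194 * u) * 2 ^ (6 * u) = L * G * 2 ^ (200 * u) := by
      rw [mul_assoc (L * G), ← pow_add]; congr 2; ring
    rw [e1]
    refine hL2.trans ((Nat.mul_le_mul_left _ hE).trans ?_)
    rw [← pow_add, ← pow_add]
    exact Nat.pow_le_pow_right (by norm_num) (by omega)
  have hL4 : L * G * 2 ^ (194 * u) ≤ 2 ^ (2 * k) :=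
    Nat.le_of_mul_le_mul_right hL3 (by positivity)
  clear hL2 hL3
  have hLe : L ≤ 2 ^ (2 * k) := by
    refine le_trans ?_ hL4
    rw [mul_assoc]
    exact Nat.le_mul_of_pos_right _ (by positivity)
  -- number of levels
  set n := Nat.log (2 ^ (u / 4)) L with hn
  have hn1 : u / 4 * n ≤ 2 * k := by
    apply pow_exp_le
    rw [pow_mul]
    exact (Nat.pow_log_le_self _ (by omega)).trans hLe
  have hn2 : n ≤ 3 * u := by
    by_contra hcon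
    have h1 : 3 * u + 1 ≤ n := by omega
    have h2 : u ≤ 4 * (u / 4) + 3 := by omega
    have h3 : u * (3 * u + 1) ≤ (4 * (u / 4) + 3) * (3 * u + 1) := Nat.mul_le_mul_right _ h2
    have h4 : u / 4 * (3 * u + 1) ≤ u / 4 * n := Nat.mul_le_mul_left _ h1
    have h5 : (4 * (u / 4) + 3) * (3 * u + 1) = 4 * (u / 4 * (3 * u + 1)) + (9 * u + 3) := by ring
    have h6 : u * (3 * u + 1) = 3 * u ^ 2 + u := by ring
    have h7 : u ^ 2 = u * u := pow_two u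
    have h8 : 500 * u ≤ u * u := Nat.mul_le_mul_right _ hu10
    omega
  have hlog : Nat.log 2 L ≤ 2 * k := by
    apply pow_exp_le
    exact (Nat.pow_log_le_self _ (by omega)).trans hLe
  have hS1 : 100000 * (u + k + 1) ≤ 2 ^ u := by
    refine le_trans ?_ (hAW.trans hle1)
    apply Nat.mul_le_mul_left
    have : W = (u ^ 2 + 1) * (u ^ 2 + 1) := by rw [hW, pow_two]
    nlinarith
  have hS2 : 7 + 8 * k + (2 ^ u) ^ 2 ≤ (2 ^ u) ^ 3 := by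
    have h1 : 7 + 8 * k ≤ 2 ^ u := by omega
    have h2 : 2 ^ u ≤ (2 ^ u) ^ 2 := Nat.le_self_pow (by norm_num) _
    have h3 : (2 ^ u) ^ 3 = 2 ^ u * (2 ^ u) ^ 2 := by ring
    rw [h3]
    have h4 : 2 * (2 ^ u) ^ 2 ≤ 2 ^ u * (2 ^ u) ^ 2 := Nat.mul_le_mul_right _ (by omega)
    omega
  refine ⟨G + 6 + 8 * k + (2 ^ u) ^ 2, ⟨rfl, by omega, hk3, hS1, Nat.le_add_left _ _, ?_, ?_⟩,
    ?_, ?_, ?_, ?_⟩
  · -- `S + 1 ≤ L'`
    have h1 : (2 ^ u) ^ 2 ≤ (2 ^ u) ^ 4 := Nat.pow_le_pow_right (by positivity) (by norm_num)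
    have h2 : 2 ^ u * 2 ^ u = (2 ^ u) ^ 2 := by ring
    have h3 : 2 * 2 ^ u ≤ 2 ^ u * 2 ^ u := Nat.mul_le_mul_right _ (by omega)
    have h4 : (2 ^ u) ^ 4 ≤ L * (2 ^ u) ^ 4 := Nat.le_mul_of_pos_left _ hL
    omega
  · -- main
    have h1 : G + 6 + 8 * k + (2 ^ u) ^ 2 ≤ G * (2 ^ u) ^ 3 := by
      calc G + 6 + 8 * k + (2 ^ u) ^ 2 ≤ G * (7 + 8 * k + (2 ^ u) ^ 2) := by
            have : 6 + 8 * k + (2 ^ u) ^ 2 ≤ G * (6 + 8 * k + (2 ^ u) ^ 2) :=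
              Nat.le_mul_of_pos_left _ hG
            have e : G * (7 + 8 * k + (2 ^ u) ^ 2) = G + G * (6 + 8 * k + (2 ^ u) ^ 2) := by ring
            omega
        _ ≤ G * (2 ^ u) ^ 3 := Nat.mul_le_mul_left _ hS2
    calc L * (2 ^ u) ^ 4 * (G + 6 + 8 * k + (2 ^ u) ^ 2) * (2 ^ u) ^ 176
        ≤ L * (2 ^ u) ^ 4 * (G * (2 ^ u) ^ 3) * (2 ^ u) ^ 176 := by gcongr
      _ = L * G * (2 ^ u) ^ 183 := by ring
      _ ≤ L * G * (2 ^ u) ^ 194 :=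
          Nat.mul_le_mul_left _ (Nat.pow_le_pow_right (by positivity) (by norm_num))
      _ = L * G * 2 ^ (194 * u) := by rw [← pow_mul, mul_comm u]
      _ ≤ 2 ^ (2 * k) := hL4
      _ = 4 ^ k := by rw [pow_mul]; norm_num
  · -- lines
    have h1 : 60 * L ^ 4 + L ≤ 2 ^ 6 * L ^ 4 := by
      have : L ≤ L ^ 4 := Nat.le_self_pow (by norm_num) L
      omega
    have h2 : 2 ^ 6 * L ^ 4 ≤ 2 ^ (6 + 2 * k * 4) := by
      rw [pow_add, pow_mul]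
      exact Nat.mul_le_mul_left _ (Nat.pow_le_pow_left hLe 4)
    calc M * (60 * L ^ 4 + L) ≤ 2 ^ G * 2 ^ (6 + 2 * k * 4) := Nat.mul_le_mul hM (h1.trans h2)
      _ = 2 ^ (G + (6 + 2 * k * 4)) := (pow_add _ _ _).symm
      _ ≤ _ := Nat.pow_le_pow_right (by norm_num) (by
        have : 0 ≤ (2 ^ u) ^ 2 := Nat.zero_le _
        omega)
  · calc 2 = 2 ^ 1 := by norm_num
      _ ≤ 2 ^ (u / 4) := Nat.pow_le_pow_right (by norm_num) (by omega)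
  · have h1 : 60 * L * 2 ^ n ≤ 60 * L * (2 ^ u) ^ 3 := by
      apply Nat.mul_le_mul_left
      rw [← pow_mul, mul_comm u]
      exact Nat.pow_le_pow_right (by norm_num) hn2
    have h2 : L * (2 ^ u) ^ 4 = 2 ^ u * (L * (2 ^ u) ^ 3) := by ring
    have h3 : 1 ≤ L * (2 ^ u) ^ 3 := Nat.mul_pos hL (by positivity)
    have h4 : 63 * (L * (2 ^ u) ^ 3) ≤ 2 ^ u * (L * (2 ^ u) ^ 3) :=
      Nat.mul_le_mul_right _ (by omega)
    have h5 : 60 * L * (2 ^ u) ^ 3 = 60 * (L * (2 ^ u) ^ 3) := by ring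
    omega
  · have h1 : Nat.log 2 L + 1 ≤ u ^ 2 + 1 := by omega
    have h2 : (Nat.log 2 L + 1) ^ 2 ≤ W := by rw [hW]; exact Nat.pow_le_pow_left h1 2
    have h3 : 6 * 2 ^ (u / 4) * (Nat.log 2 L + 1) ^ 2 ≤ 6 * 2 ^ (u / 2) * W :=
      Nat.mul_le_mul (Nat.mul_le_mul_left _
        (Nat.pow_le_pow_right (by norm_num) (by omega))) h2
    have h5 : 2 ^ (u / 2) * (6 * W + 2) ≤ 2 ^ (u / 2) * 2 ^ (u / 2) :=
      Nat.mul_le_mul_left _ (by omega)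
    have h7 : 2 ^ (u / 2) * (6 * W + 2) = 6 * 2 ^ (u / 2) * W + 2 * 2 ^ (u / 2) := by ring
    have h8 : 1 ≤ 2 ^ (u / 2) := Nat.one_le_two_pow
    omega

end Par

theorem nums_sharp (nn : ℕ) {C : ℝ} (hC : 0 ≤ C) : ∃ k₀ : ℕ, ∀ k ≥ k₀, ∀ L M : ℕ, 1 ≤ L → 1 ≤ M →
    (L : ℝ) * ((Real.logb 2 M + 1) * 2 ^ (400 * √(Real.logb 2 ((3 * k * 2 ^ (k - 1) : ℕ) : ℝ)))) ≤
      ((3 * k * 2 ^ (k - 1) : ℕ) : ℝ) ^ 2 →
    ∃ K k' hh L' : ℕ, 2 ≤ K ∧ 60 * L * 2 ^ Nat.log K L + 3 ≤ L' ∧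
      6 * K * (Nat.log 2 L + 1) ^ 2 + 2 ≤ hh ∧
      Nonempty (Nums k k' hh L' (M * (60 * L ^ 4 + L)) nn C) := by
  obtain ⟨A0, hA0⟩ := exists_nat_ge C
  set A : ℕ := 100000 + A0 + nn with hA
  obtain ⟨u₁, hu₁⟩ := Par.exists_pow A
  refine ⟨(u₁ + 500) ^ 2, ?_⟩
  intro k hk L M hL hM h
  -- the scale
  obtain ⟨r, hr⟩ : ∃ r, r = Nat.sqrt k := ⟨_, rfl⟩
  obtain ⟨u, hu⟩ : ∃ u, u = 2 * (r + 1) := ⟨_, rfl⟩
  have hr1 : u₁ + 500 ≤ r := by rw [hr]; exact Nat.le_sqrt'.2 hk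
  have hk3 : 3 ≤ k := by
    have : (0 + 2) ^ 2 ≤ (u₁ + 500) ^ 2 := Nat.pow_le_pow_left (by omega) 2
    omega
  have hku : 4 * k ≤ u ^ 2 := by
    have h1 := Nat.lt_succ_sqrt k
    rw [Nat.succ_eq_add_one, ← hr] at h1
    rw [hu]
    nlinarith
  have hrk : (r : ℝ) ≤ √(k : ℝ) := by
    apply Real.le_sqrt_of_sq_le
    have h1 := Nat.sqrt_le' k
    rw [← hr] at h1
    exact_mod_cast h1
  -- edges
  set E : ℕ := 3 * k * 2 ^ (k - 1) with hE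
  have hx1 : (2 : ℝ) ^ (k : ℝ) ≤ E := by
    rw [Real.rpow_natCast]
    have h1 : 2 ^ k ≤ 3 * k * 2 ^ (k - 1) := by
      obtain ⟨j, hj⟩ : ∃ j, k = j + 1 := ⟨k - 1, by omega⟩
      rw [hj, Nat.add_sub_cancel, pow_succ, mul_comm]
      exact Nat.mul_le_mul_right _ (by omega)
    exact_mod_cast h1
  have hx0 : (0 : ℝ) < E := lt_of_lt_of_le (by positivity) hx1
  have hlog : (k : ℝ) ≤ Real.logb 2 E := by
    rw [Real.le_logb_iff_rpow_le (by norm_num) hx0]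
    exact hx1
  have hsq : (r : ℝ) ≤ √(Real.logb 2 E) := hrk.trans (Real.sqrt_le_sqrt hlog)
  have hur : (u : ℝ) = 2 * (r + 1) := by rw [hu]; push_cast; ring
  have hexp : ((200 * u : ℕ) : ℝ) - 400 ≤ 400 * √(Real.logb 2 E) := by
    push_cast
    rw [hur]
    linarith
  -- lines
  obtain ⟨G, hG⟩ : ∃ G, G = Nat.log 2 M + 1 := ⟨_, rfl⟩
  have hM2 : M ≤ 2 ^ G := by rw [hG]; exact (Nat.lt_pow_succ_log_self (by norm_num) _).le
  have hM0 : (0 : ℝ) < M := by exact_mod_cast hM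
  have hGM : (G : ℝ) ≤ Real.logb 2 M + 1 := by
    have h1 : (2 : ℝ) ^ ((Nat.log 2 M : ℕ) : ℝ) ≤ M := by
      rw [Real.rpow_natCast]
      exact_mod_cast Nat.pow_log_le_self 2 (by omega)
    have h2 : ((Nat.log 2 M : ℕ) : ℝ) ≤ Real.logb 2 M := by
      rw [Real.le_logb_iff_rpow_le (by norm_num) hM0]
      exact h1
    rw [hG]
    push_cast
    linarith
  obtain ⟨c, hc⟩ : ∃ c : ℕ, c = 400 := ⟨_, rfl⟩
  have hmain : L * G * 2 ^ (200 * u) ≤ 2 ^ c * E ^ 2 := by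
    have h1 : (2 : ℝ) ^ (200 * u) ≤ 2 ^ c * 2 ^ (400 * √(Real.logb 2 E)) := by
      rw [← Real.rpow_natCast, ← Real.rpow_natCast, ← Real.rpow_add (by norm_num)]
      apply Real.rpow_le_rpow_of_exponent_le (by norm_num)
      rw [hc]
      push_cast at hexp ⊢
      linarith
    have h2 : ((L * G * 2 ^ (200 * u) : ℕ) : ℝ) ≤ ((2 ^ c * E ^ 2 : ℕ) : ℝ) := by
      push_cast
      calc (L : ℝ) * G * 2 ^ (200 * u)
          ≤ L * (Real.logb 2 M + 1) * (2 ^ c * 2 ^ (400 * √(Real.logb 2 E))) := by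
            have h3 : (0 : ℝ) ≤ G := Nat.cast_nonneg G
            have h4 : (0 : ℝ) ≤ L * (Real.logb 2 M + 1) :=
              mul_nonneg (Nat.cast_nonneg L) (h3.trans hGM)
            gcongr
        _ = 2 ^ c * (L * ((Real.logb 2 M + 1) * 2 ^ (400 * √(Real.logb 2 E)))) := by ring
        _ ≤ 2 ^ c * (E : ℝ) ^ 2 := mul_le_mul_of_nonneg_left h (by positivity)
    exact_mod_cast h2
  have hA1 : A ≤ A * (u ^ 2 + 1) ^ 2 := Nat.le_mul_of_pos_right _ (by positivity)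
  have hu' := hu₁ u (by omega)
  have hA2 : A ≤ 2 ^ u :=
    hA1.trans (hu'.trans (Nat.pow_le_pow_right (by norm_num) (by omega)))
  obtain ⟨p, n1, n2, n3, n4, n5⟩ := Par.nat_nums hc hu' (by omega) (by omega) hk3 hku hL
    (by omega) hM2 hmain
  refine ⟨2 ^ (u / 4), Par.kk (2 ^ u) p, 2 ^ u, L * (2 ^ u) ^ 4, n3, n4, n5,
    Par.nums_of n1 n2 hC ?_ (by omega)⟩
  have h1 : (A0 : ℝ) ≤ ((2 ^ u : ℕ) : ℝ) := by
    have : A0 ≤ 2 ^ u := by omega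
    exact_mod_cast this
  exact hA0.trans h1

end Pool.Agent.EFS
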