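import Pool.Agent.Lib.EFS.Strong
import Pool.Agent.Lib.EFS.NumRow

/-!
# The sharp trade-off for unfolded lines (project EFS, helper57)
-/

set_option autoImplicit false

open Finset

namespace Pool.Agent.EFS

open Pool.Agent.EFT Pool.Agent.EFT.Strong

/-- **The sharp trade-off.** Fix finitely many sound rules. For large `k` every Extended Frege
refutation with `M` lines of a Tseitin contradiction of `CCC_k`, `N` edges, contains a line whose
unfolding has more than `N ^ 2 / ((log₂ M + 1) * 2 ^ (400 * √(log₂ N)))` leaves. -/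
theorem main_sharp (𝓡 : List FrRule) (h𝓡 : ∀ ρ ∈ 𝓡, ρ.Sound) : ∃ k₀ : ℕ, ∀ k ≥ k₀,
    ∀ [NeZero k], ∀ b : CCC.V k → ZMod 2, ∑ v, b v = 1 →
    ∀ (m M : ℕ) (D : Fin m → Form (CCC.E k ⊕ Fin m)) (C : Fin M → Form (CCC.E k ⊕ Fin m))
      (U : Fin m → Form (CCC.E k)), (∀ i, U i = unfold U (D i)) →
      IsRefutation 𝓡 (tseitin b) D C →
      ∀ N : ℝ, N = Fintype.card (CCC.E k) →
        ∃ t, N ^ 2 / ((Real.logb 2 M + 1) * 2 ^ (400 * √(Real.logb 2 N))) <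
          (unfold U (C t)).leaves := by
  obtain ⟨k₀, h⟩ := nums_sharp (ruleN 𝓡 + 10) (cc_nonneg 𝓡)
  refine ⟨k₀, fun k hk hz b hb m M D C U hU href N hN => ?_⟩
  have e : N = ((3 * k * 2 ^ (k - 1) : ℕ) : ℝ) := by rw [hN, Pool.Agent.EFT.Inst.card_E]
  by_contra hcon
  push Not at hcon
  have hne : ∃ t : Fin M, True := by
    rcases href.contra with ⟨t, _⟩ | ⟨t, _⟩ <;> exact ⟨t, trivial⟩
  obtain ⟨t0, -⟩ := hne
  have hM : 1 ≤ M := Nat.succ_le_of_lt (Nat.zero_lt_of_lt t0.2)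
  have hM1 : (1 : ℝ) ≤ M := by exact_mod_cast hM
  have hlog : 0 ≤ Real.logb 2 M := Real.logb_nonneg one_lt_two hM1
  set Q : ℝ := (Real.logb 2 M + 1) * 2 ^ (400 * √(Real.logb 2 N)) with hQ
  have hQ0 : 0 < Q := mul_pos (by linarith) (Real.rpow_pos_of_pos two_pos _)
  set L : ℕ := ⌊N ^ 2 / Q⌋₊ with hL
  have hle : ∀ t, (unfold U (C t)).leaves ≤ L := fun t => Nat.le_floor (hcon t)
  have hL1 : 1 ≤ L := by
    refine le_trans ?_ (hle t0)
    rw [← Form.lv_tr]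
    exact Fm.lv_pos _
  have hL2 : (L : ℝ) * Q ≤ N ^ 2 := by
    rw [← le_div_iff₀ hQ0]
    exact Nat.floor_le (by positivity)
  rw [hQ, e] at hL2
  obtain ⟨K, k', hh, L', hK, hL', hhh, ⟨Nm⟩⟩ := h k hk L M hL1 hM hL2
  have : NeZero k' := ⟨by have := Nm.hk'; omega⟩
  exact no_refutation 𝓡 h𝓡 Nm hK hL' hhh b hb D C U hU href hle

end Pool.Agent.EFS
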