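import Pool.Agent.Lib.EFS.Main

/-!
# Numbers for the distinction of cases (project EFS, row NUM-TRANSFER, helper49)

The constants which are lost in the distinction of cases are absorbed by `2 ^ √(log₂ N)`.
-/

set_option autoImplicit false

open Finset

namespace Pool.Agent.EFS

open Pool.Agent.EFT

namespace NumTr

theorem le_card (k : ℕ) (hk : 1 ≤ k) : (2 : ℝ) ^ k ≤ ((3 * k * 2 ^ (k - 1) : ℕ) : ℝ) := by
  obtain ⟨j, rfl⟩ : ∃ j, k = j + 1 := ⟨k - 1, by omega⟩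
  rw [Nat.add_sub_cancel]
  have h : 2 ^ (j + 1) ≤ 3 * (j + 1) * 2 ^ j := by
    rw [pow_succ, mul_comm (2 ^ j) 2]
    exact Nat.mul_le_mul_right _ (by omega)
  exact_mod_cast h

theorem sqrt_le (k : ℕ) (hk : 1 ≤ k) {N : ℝ} (hN : N = ((3 * k * 2 ^ (k - 1) : ℕ) : ℝ)) :
    √(k : ℝ) ≤ √(Real.logb 2 N) := by
  refine Real.sqrt_le_sqrt ?_
  have h1 := le_card k hk
  rw [← hN] at h1
  have h0 : (0 : ℝ) < 2 ^ k := by positivity
  rw [Real.le_logb_iff_rpow_le one_lt_two (h0.trans_le h1), Real.rpow_natCast]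
  exact h1

/-- The logarithm of the number of lines. -/
theorem log_le {a h M M' : ℕ} (hM : 1 ≤ M) (hM' : 1 ≤ M')
    (h1 : M' ≤ (M + 2) * 2 ^ (a * (h + 1))) :
    Real.logb 2 M' + 1 ≤ (a + 3) * (Real.logb 2 M + h + 1) := by
  have hMr : (1 : ℝ) ≤ M := by exact_mod_cast hM
  have hM'r : (1 : ℝ) ≤ M' := by exact_mod_cast hM'
  have h2 : (M' : ℝ) ≤ M * 4 * 2 ^ (a * (h + 1)) := by
    have h3 : (M' : ℝ) ≤ (M + 2) * 2 ^ (a * (h + 1)) := by exact_mod_cast h1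
    have h4 : (0 : ℝ) < 2 ^ (a * (h + 1)) := by positivity
    nlinarith
  have h3 : Real.logb 2 M' ≤ Real.logb 2 (M * 4 * 2 ^ (a * (h + 1))) :=
    Real.logb_le_logb_of_le one_lt_two (by linarith) h2
  have h4 : Real.logb 2 (M * 4 * 2 ^ (a * (h + 1))) = Real.logb 2 M + 2 + a * (h + 1) := by
    rw [Real.logb_mul (by positivity) (by positivity), Real.logb_mul (by positivity) (by norm_num)]
    have e1 : Real.logb 2 4 = 2 := by
      rw [show (4 : ℝ) = 2 ^ (2 : ℝ) by norm_num, Real.logb_rpow two_pos (by norm_num)]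
    have e2 : Real.logb 2 ((2 : ℝ) ^ (a * (h + 1))) = a * (h + 1) := by
      rw [← Real.rpow_natCast, Real.logb_rpow two_pos (by norm_num)]
      push_cast
      ring
    rw [e1, e2]
  have h5 : 0 ≤ Real.logb 2 M := Real.logb_nonneg one_lt_two hMr
  have ha : (0 : ℝ) ≤ a := Nat.cast_nonneg a
  have hh : (0 : ℝ) ≤ h := Nat.cast_nonneg h
  nlinarith [mul_nonneg ha h5]

end NumTr

/-- **Numbers.** -/
theorem num_pure (a : ℕ) (c : ℝ) : ∃ k₀ : ℕ, ∀ k ≥ k₀, ∀ N : ℝ,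
    N = ((3 * k * 2 ^ (k - 1) : ℕ) : ℝ) → ∀ M M' h S s : ℕ, 1 ≤ M → 1 ≤ M' → 1 ≤ S →
      M' ≤ (M + 2) * 2 ^ (a * (h + 1)) → s ≤ a * (S + 1) →
      N ^ 2 / ((Real.logb 2 M' + 1) * 2 ^ (c * √(Real.logb 2 N))) < s →
      N ^ 2 / ((Real.logb 2 M + h + 1) * 2 ^ ((c + 1) * √(Real.logb 2 N))) < S := by
  obtain ⟨q, hq⟩ := exists_nat_ge (Real.logb 2 (2 * a * (a + 3) + 1))
  refine ⟨q ^ 2 + 1, fun k hk N hN M M' h S s hM hM' hS h1 h2 h3 => ?_⟩
  have hk1 : 1 ≤ k := by omega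
  set r : ℝ := √(Real.logb 2 N) with hr
  have hqr : (q : ℝ) ≤ r := by
    refine le_trans ?_ (NumTr.sqrt_le k hk1 hN)
    refine Real.le_sqrt_of_sq_le ?_
    have : q ^ 2 ≤ k := by omega
    exact_mod_cast this
  have ha : (0 : ℝ) ≤ a := Nat.cast_nonneg a
  have hc0 : (0 : ℝ) < 2 * a * (a + 3) + 1 := by positivity
  have hpow : 2 * a * (a + 3) + 1 ≤ (2 : ℝ) ^ r := by
    have e : (2 : ℝ) ^ Real.logb 2 (2 * a * (a + 3) + 1) = 2 * a * (a + 3) + 1 :=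
      Real.rpow_logb two_pos (by norm_num) hc0
    rw [← e]
    exact Real.rpow_le_rpow_of_exponent_le one_le_two (hq.trans hqr)
  have hMr : (1 : ℝ) ≤ M := by exact_mod_cast hM
  have hM'r : (1 : ℝ) ≤ M' := by exact_mod_cast hM'
  have hl : 0 ≤ Real.logb 2 M := Real.logb_nonneg one_lt_two hMr
  have hl' : 0 ≤ Real.logb 2 M' := Real.logb_nonneg one_lt_two hM'r
  have hh : (0 : ℝ) ≤ h := Nat.cast_nonneg h
  have hlog := NumTr.log_le (a := a) (h := h) hM hM' h1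
  have hSr : (1 : ℝ) ≤ S := by exact_mod_cast hS
  have hs : (s : ℝ) ≤ 2 * a * S := by
    have h4 : (s : ℝ) ≤ a * (S + 1) := by exact_mod_cast h2
    nlinarith
  set P : ℝ := 2 ^ (c * r) with hP
  have hP0 : 0 < P := Real.rpow_pos_of_pos two_pos _
  have e1 : (2 : ℝ) ^ ((c + 1) * r) = P * 2 ^ r := by
    rw [hP, ← Real.rpow_add two_pos]
    congr 1
    ring
  have hr0 : (0 : ℝ) < 2 ^ r := Real.rpow_pos_of_pos two_pos _
  set X : ℝ := Real.logb 2 M + h + 1 with hX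
  have hX0 : 1 ≤ X := by linarith
  have hY0 : 0 < (Real.logb 2 M' + 1) * P := by positivity
  rw [div_lt_iff₀ hY0] at h3
  rw [e1, div_lt_iff₀ (by positivity)]
  have h5 : (s : ℝ) * ((Real.logb 2 M' + 1) * P) ≤ (2 * a * S) * (((a + 3) * X) * P) := by
    refine mul_le_mul hs (mul_le_mul_of_nonneg_right hlog hP0.le) hY0.le (by positivity)
  have h6 : (2 * a * S) * (((a + 3) * X) * P) = (2 * a * (a + 3)) * (S * (X * P)) := by ring
  have h7 : (2 * a * (a + 3)) * (S * (X * P)) ≤ 2 ^ r * (S * (X * P)) := by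
    refine mul_le_mul_of_nonneg_right (by linarith) ?_
    positivity
  calc N ^ 2 < s * ((Real.logb 2 M' + 1) * P) := h3
    _ ≤ 2 ^ r * (S * (X * P)) := by rw [h6] at h5; exact h5.trans h7
    _ = S * (X * (P * 2 ^ r)) := by ring

/-- `a` is a constant (depends on the rules only), `S` the bound of the lines, `h` the number of
extension variables a line depends on. -/
theorem num_transfer (a : ℕ) (𝓡 : List FrRule) (h𝓡 : ∀ ρ ∈ 𝓡, ρ.Sound) : ∃ k₀ : ℕ, ∀ k ≥ k₀,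
    ∀ [NeZero k], ∀ b : CCC.V k → ZMod 2, ∑ v, b v = 1 →
    ∀ (M M' h S : ℕ), 1 ≤ M → 1 ≤ S → M' ≤ (M + 1) * 2 ^ (a * (h + 1)) →
    ∀ C : Fin M' → Form (CCC.E k ⊕ Fin 0), IsRefutation 𝓡 (tseitin b) (fun i => i.elim0) C →
    (∀ (U : Fin 0 → Form (CCC.E k)) (t : Fin M'), (unfold U (C t)).leaves ≤ a * (S + 1)) →
    ∀ N : ℝ, N = Fintype.card (CCC.E k) →
      N ^ 2 / ((Real.logb 2 M + h + 1) * 2 ^ (401 * √(Real.logb 2 N))) < S := by
  obtain ⟨k₁, h1⟩ := main_sharp 𝓡 h𝓡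
  obtain ⟨k₂, h2⟩ := num_pure a 400
  refine ⟨max k₁ k₂, fun k hk hz b hb M M' h S hM hS hM' C href hle N hN => ?_⟩
  have e : N = ((3 * k * 2 ^ (k - 1) : ℕ) : ℝ) := by rw [hN, Pool.Agent.EFT.Inst.card_E]
  set U : Fin 0 → Form (CCC.E k) := fun i => i.elim0 with hU
  obtain ⟨t, ht⟩ := h1 k ((le_max_left _ _).trans hk) b hb 0 M' (fun i => i.elim0) C U
    (fun i => i.elim0) href N hN
  have hM1 : 1 ≤ M' := Nat.succ_le_of_lt (Nat.zero_lt_of_lt t.2)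
  have hM2 : M' ≤ (M + 2) * 2 ^ (a * (h + 1)) :=
    hM'.trans (Nat.mul_le_mul_right _ (by omega))
  have h3 := h2 k ((le_max_right _ _).trans hk) N e M M' h S (a * (S + 1)) hM hM1 hS hM2 le_rfl
    (ht.trans_le (by exact_mod_cast hle U t))
  have e1 : (400 : ℝ) + 1 = 401 := by norm_num
  rw [e1] at h3
  exact h3

end Pool.Agent.EFS
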