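import Pool.Agent.Lib.EFS.PUnf
import Pool.Agent.Lib.EFS.CaseAll
import Pool.Agent.Lib.EFS.NumTr

/-!
# The sharp trade-off for Extended Frege refutations with kept extension variables

Project EFS (helper90). Theorem S from the distinction of cases and the trade-off without extension
variables.
-/

set_option autoImplicit false

open Finset

namespace Pool.Agent.EFS

open Pool.Agent.EFT

/-- **Theorem S.** Fix finitely many sound rules. For large `k` let an Extended Frege
refutation with `M` lines of a Tseitin contradiction of `CCC_k`, `N` edges, be given. The extension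
variables of a set `Z` are kept, the others are unfolded. `H t` is a set of at most `h` extension
variables which is closed under the definitions and contains the extension variables of the line
`t`. Then for some line `t` the line and the definitions of the variables in `H t` have together
more than `N ^ 2 / ((log₂ M + h + 1) * 2 ^ (401 * √(log₂ N)))` leaves. -/
theorem main_fold (𝓡 : List FrRule) (h𝓡 : ∀ ρ ∈ 𝓡, ρ.Sound) : ∃ k₀ : ℕ, ∀ k ≥ k₀,
    ∀ [NeZero k], ∀ b : CCC.V k → ZMod 2, ∑ v, b v = 1 →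
    ∀ (m M : ℕ) (D : Fin m → Form (CCC.E k ⊕ Fin m)) (C : Fin M → Form (CCC.E k ⊕ Fin m)),
      (∀ i j, (D i).Occ (Sum.inr j) → j < i) → IsRefutation 𝓡 (tseitin b) D C →
    ∀ (Z : Finset (Fin m)) (U : Fin m → Form (CCC.E k ⊕ Fin m)), PartialUnfolding D Z U →
    ∀ (h : ℕ) (H : Fin M → Finset (Fin m)), (∀ t, (H t).card ≤ h) →
      (∀ t j, (pUnf U (C t)).Occ (Sum.inr j) → j ∈ H t) →
      (∀ t, ∀ i ∈ H t, ∀ j, (pUnf U (D i)).Occ (Sum.inr j) → j ∈ H t) →
    ∀ N : ℝ, N = Fintype.card (CCC.E k) →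
      ∃ t, N ^ 2 / ((Real.logb 2 M + h + 1) * 2 ^ (401 * √(Real.logb 2 N))) <
        (((pUnf U (C t)).leaves + ∑ i ∈ H t, (pUnf U (D i)).leaves : ℕ) : ℝ) := by
  set 𝓡' : List FrRule := idRule :: idRule' :: 𝓡 with h𝓡'
  have hs' : ∀ ρ ∈ 𝓡', ρ.Sound := by
    intro ρ hρ
    rcases List.mem_cons.1 hρ with rfl | hρ
    · exact idRule_sound
    · rcases List.mem_cons.1 hρ with rfl | hρ
      · exact idRule'_sound
      · exact h𝓡 ρ hρ
  set r : ℕ := (𝓡'.map fun ρ => ρ.prem.length).sum with hr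
  have hr' : ∀ ρ ∈ 𝓡', ρ.prem.length ≤ r := fun ρ hρ =>
    List.single_le_sum (fun _ _ => Nat.zero_le _) _ (List.mem_map_of_mem hρ)
  obtain ⟨k₀, hk₀⟩ := num_transfer (8 * r + 24) (CR.all 𝓡') (CR.all_sound hs')
  refine ⟨k₀, ?_⟩
  intro k hk hz b hb m M D C hD href Z U hU h H hcard hcov hcl N hN
  by_contra hcon
  push Not at hcon
  have href' := isRefutation_pUnf' 𝓡 (tseitin b) href hU
  have hD' : Acyclic fun i => pUnf U (D i) := fun i j hj => (occ_pUnf_D hD hU i j hj).2
  have hne : ∃ t : Fin M, True := by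
    rcases href.contra with ⟨t, _⟩ | ⟨t, _⟩ <;> exact ⟨t, trivial⟩
  obtain ⟨t0, -⟩ := hne
  have hM : 1 ≤ M := Nat.succ_le_of_lt (Nat.zero_lt_of_lt t0.2)
  set X : ℝ := N ^ 2 / ((Real.logb 2 M + h + 1) * 2 ^ (401 * √(Real.logb 2 N))) with hX
  set S : ℕ := ⌊X⌋₊ with hS
  have hle : ∀ t, (pUnf U (C t)).leaves + ∑ i ∈ H t, (pUnf U (D i)).leaves ≤ S :=
    fun t => Nat.le_floor (hcon t)
  have hS1 : 1 ≤ S := by
    have h1 := leaves_pos' (pUnf U (C t0))
    have h2 := hle t0
    omega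
  have hX0 : 0 ≤ X := le_trans (Nat.cast_nonneg _) (hcon t0)
  have hSX : (S : ℝ) ≤ X := Nat.floor_le hX0
  have x0 : CCC.E k := Sum.inl (0, 0)
  obtain ⟨M', hM', C', h1, h2⟩ := cases_main x0 𝓡' r hr' (tseitin b) m M
    (fun i => pUnf U (D i)) (fun t => pUnf U (C t)) hD' href' h S H
    (fun t => ⟨fun i hi => hcl t i hi, fun j hj => hcov t j hj, hcard t, hle t⟩)
  have hfin := hk₀ k hk b hb M M' h S hM hS1 hM' C' h1 h2 N hN
  exact absurd hfin (not_lt.2 (hSX.trans_eq hX))

end Pool.Agent.EFS
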