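import Pool.Agent.Lib.EFS.Nums

/-!
# The numbers of the sharp trade-off, core (project EFS, helper15)

Scale `s = 2 ^ u`; the hypotheses are `L * p * s ^ 176 ≤ 4 ^ k`, `s ^ 2 ≤ p`, `M ≤ 2 ^ p` and `s`
large against `k`.
-/

set_option autoImplicit false

namespace Pool.Agent.EFS

namespace Par

open Real

theorem two_le_exp : (2 : ℝ) ≤ exp 1 := by
  have := add_one_le_exp (1 : ℝ); linarith

theorem two_pow_le_exp (j : ℕ) : (2 : ℝ) ^ j ≤ exp j := by
  calc (2 : ℝ) ^ j ≤ exp 1 ^ j := pow_le_pow_left₀ (by norm_num) two_le_exp _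
    _ = exp j := by rw [← exp_nat_mul, mul_one]

theorem four_pow_le_exp (j : ℕ) : (4 : ℝ) ^ j ≤ exp (2 * j) := by
  have := two_pow_le_exp (2 * j)
  rw [pow_mul] at this
  norm_num at this
  exact this

/-- the last inequality, abstractly -/
theorem fin_aux (h k : ℕ) (X Y P AA ML L ET C : ℝ) (hX1 : 1 ≤ X) (hY0 : 0 ≤ Y) (hP0 : 0 ≤ P)
    (hPY : P * Y * (X * X * X * X * X * X) ≤ 1) (hL0 : 0 ≤ L) (hL : L ≤ 4 ^ k)
    (hA : AA ≤ P) (hML0 : 0 ≤ ML) (g1 : ML ≤ 2 * X * 4 ^ k) (hET0 : 0 ≤ ET)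
    (g2 : ET ≤ 3 * Y) (f1 : 6144 ≤ X) (hC0 : 0 ≤ C) (f2 : C + 100 ≤ X) (f3 : (15 : ℝ) ^ h ≤ X)
    (f4 : ((4 : ℝ) ^ k) ^ h ≤ X) (f5 : (256 : ℝ) ^ k ≤ X) :
    AA * (8 * 3 ^ h * (8 * (ML * (16 * L * ET)) * (5 * L) ^ h)) * ((C + 100) * L ^ 2) ≤ 1 := by
  have e4 : (0 : ℝ) ≤ 4 ^ k := by positivity
  have h3 : (0 : ℝ) ≤ 3 ^ h := by positivity
  have s1 : ML * (16 * L * ET) ≤ (2 * X * 4 ^ k) * (16 * 4 ^ k * (3 * Y)) := by
    gcongr
  have s2 : (5 * L) ^ h ≤ (5 * 4 ^ k) ^ h := by gcongr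
  have s3 : 8 * 3 ^ h * (8 * (ML * (16 * L * ET)) * (5 * L) ^ h) ≤
      8 * 3 ^ h * (8 * ((2 * X * 4 ^ k) * (16 * 4 ^ k * (3 * Y))) *
        (5 * 4 ^ k) ^ h) := by gcongr
  have s4 : (C + 100) * L ^ 2 ≤ X * (4 ^ k) ^ 2 := by gcongr
  calc AA * (8 * 3 ^ h * (8 * (ML * (16 * L * ET)) * (5 * L) ^ h)) * ((C + 100) * L ^ 2)
      ≤ P * (8 * 3 ^ h * (8 * ((2 * X * 4 ^ k) * (16 * 4 ^ k * (3 * Y))) *
        (5 * 4 ^ k) ^ h)) * (X * (4 ^ k) ^ 2) := by
        apply mul_le_mul _ s4 (by positivity) (by positivity)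
        exact mul_le_mul hA s3 (by positivity) hP0
    _ = P * Y * (6144 * X * 15 ^ h * ((4 : ℝ) ^ k) ^ h * 256 ^ k * X) := by
        rw [mul_pow (5 : ℝ), show (256 : ℝ) = 4 * 4 * 4 * 4 by norm_num,
          show (15 : ℝ) = 3 * 5 by norm_num]
        simp only [mul_pow]
        ring
    _ ≤ P * Y * (X * X * X * X * X * X) := by gcongr
    _ ≤ 1 := hPY

/-- The scale: `S = 2 ^ u`. -/
structure Sc (k u S L p : ℕ) : Prop where
  hS : S = 2 ^ u
  u10 : 10 ≤ u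
  k3 : 3 ≤ k
  hk : 100000 * (u + k + 1) ≤ S
  hp : S ^ 2 ≤ p
  hL : S + 1 ≤ L
  main : L * p * S ^ 176 ≤ 4 ^ k

variable {k u S L p : ℕ}

/-- argument of the square root -/
def X (u S L p : ℕ) : ℕ := 1300 * S ^ 3 * L * u * p
/-- band -/
def Dl (u S L p : ℕ) : ℕ := Nat.sqrt (X u S L p) + 3
/-- dimension of the small world -/
def kk (S p : ℕ) : ℕ := Nat.log 2 (64 * (S + 6) * (12 * p)) + 1

theorem Sc.S_pos (h : Sc k u S L p) : 0 < S := by
  have := h.hk; omega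

theorem Sc.p_pos (h : Sc k u S L p) : 0 < p := lt_of_lt_of_le (pow_pos h.S_pos 2) h.hp

theorem X_le (u S L p : ℕ) : X u S L p ≤ Dl u S L p ^ 2 := by
  unfold Dl
  have h1 := Nat.lt_succ_sqrt (X u S L p)
  rw [Nat.succ_eq_add_one] at h1
  nlinarith

theorem Dl_sq_le (h : Sc k u S L p) : Dl u S L p ^ 2 ≤ 16 * X u S L p := by
  have hS := h.S_pos
  have hp := h.p_pos
  have hu : 0 < u := by have := h.u10; omega
  have hL : 0 < L := by have := h.hL; omega
  have hX : 0 < X u S L p := by unfold X; positivity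
  unfold Dl
  have h1 : 1 ≤ Nat.sqrt (X u S L p) := Nat.le_sqrt.2 (by omega)
  have h2 := Nat.sqrt_le (X u S L p)
  nlinarith

theorem Dl_le (h : Sc k u S L p) : Dl u S L p * S ^ 85 ≤ 2 ^ k := by
  have hS := h.S_pos
  have h1 := Dl_sq_le h
  have h2 := h.main
  have hk := h.hk
  have h3 : 20800 * u ≤ S ^ 3 := by
    have h4 : 20800 * u ≤ S := by omega
    calc 20800 * u ≤ S := h4
      _ ≤ S ^ 3 := Nat.le_self_pow (by norm_num) S
  rw [← Nat.pow_le_pow_iff_left (n := 2) (by norm_num)]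
  calc (Dl u S L p * S ^ 85) ^ 2 = Dl u S L p ^ 2 * S ^ 170 := by rw [mul_pow, ← pow_mul]
    _ ≤ 16 * X u S L p * S ^ 170 := Nat.mul_le_mul_right _ h1
    _ = (20800 * u) * (L * p * S ^ 173) := by
        unfold X
        have : S ^ 173 = S ^ 3 * S ^ 170 := by rw [← pow_add]
        rw [this]; ring
    _ ≤ S ^ 3 * (L * p * S ^ 173) := Nat.mul_le_mul_right _ h3
    _ = L * p * S ^ 176 := by
        have : S ^ 176 = S ^ 3 * S ^ 173 := by rw [← pow_add]
        rw [this]; ring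
    _ ≤ 4 ^ k := h2
    _ = (2 ^ k) ^ 2 := by rw [← pow_mul, mul_comm, pow_mul]; norm_num

theorem L_le (h : Sc k u S L p) : L ≤ 4 ^ k := by
  refine le_trans ?_ h.main
  rw [mul_assoc]
  exact Nat.le_mul_of_pos_right _ (Nat.mul_pos h.p_pos (pow_pos h.S_pos _))

theorem p_le (h : Sc k u S L p) : p ≤ 4 ^ k := by
  refine le_trans ?_ h.main
  rw [mul_comm L p, mul_assoc]
  exact Nat.le_mul_of_pos_right _ (Nat.mul_pos (by have := h.hL; omega) (pow_pos h.S_pos _))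

theorem kk_lower (S p : ℕ) : 64 * (S + 6) * (12 * p) < 2 ^ kk S p :=
  Nat.lt_pow_succ_log_self (by norm_num) _

theorem kk_upper (h : Sc k u S L p) : 2 ^ kk S p ≤ 128 * (S + 6) * (12 * p) := by
  have hp := h.p_pos
  have h1 : 2 ^ Nat.log 2 (64 * (S + 6) * (12 * p)) ≤ 64 * (S + 6) * (12 * p) :=
    Nat.pow_log_le_self 2 (by positivity)
  unfold kk
  rw [pow_succ]
  have h2 : 128 * (S + 6) * (12 * p) = 64 * (S + 6) * (12 * p) * 2 := by ring
  rw [h2]
  exact Nat.mul_le_mul_right _ h1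

theorem kk_le (h : Sc k u S L p) : kk S p ≤ S := by
  have h1 := kk_upper h
  have h2 := p_le h
  have hk := h.hk
  have h3 : 128 * (S + 6) * (12 * p) ≤ 2 ^ (12 + u + 2 * k) := by
    have h4 : S + 6 ≤ 2 * S := by omega
    calc 128 * (S + 6) * (12 * p) ≤ 128 * (2 * S) * (12 * 4 ^ k) := by gcongr
      _ = 3072 * (2 ^ u * 2 ^ (2 * k)) := by
          rw [h.hS, pow_mul 2 2 k]; norm_num; ring
      _ ≤ 4096 * (2 ^ u * 2 ^ (2 * k)) := Nat.mul_le_mul_right _ (by norm_num)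
      _ = 2 ^ (12 + u + 2 * k) := by rw [pow_add, pow_add]; norm_num; ring
  have h5 : kk S p ≤ 12 + u + 2 * k := (Nat.pow_le_pow_iff_right (by norm_num)).1 (h1.trans h3)
  omega

theorem three_le_kk (h : Sc k u S L p) : 3 ≤ kk S p := by
  have h1 := kk_lower S p
  have hp := h.p_pos
  by_contra hc
  have h2 : 2 ^ kk S p ≤ 2 ^ 2 := Nat.pow_le_pow_right (by norm_num) (by omega)
  have h3 : 64 * 6 * 12 ≤ 64 * (S + 6) * (12 * p) := by nlinarith [h.S_pos]
  omega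

/-! ### real estimates -/

noncomputable section

/-- slack of the norm bounds -/
def theta (S L : ℕ) : ℝ := 1 / (4 * L * (S + 1))
/-- weight step -/
def tau (u S L p : ℕ) : ℝ := Dl u S L p / (4 * (S : ℝ) ^ 3 * L)
/-- the main exponent -/
def yy (u S L p : ℕ) : ℝ := (Dl u S L p : ℝ) ^ 2 / (8 * (S : ℝ) ^ 3 * L)
/-- norm bound of all weighted operators -/
def b (u S L p : ℕ) : ℝ := 2 * exp (yy u S L p / (4 * S))

theorem Sc.s_big (h : Sc k u S L p) : (100000 : ℝ) * (u + k + 1) ≤ S := by exact_mod_cast h.hk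

theorem Sc.s0 (h : Sc k u S L p) : (0 : ℝ) < S := by exact_mod_cast h.S_pos

theorem Sc.L0 (h : Sc k u S L p) : (0 : ℝ) < L := by
  have := h.hL; exact_mod_cast (by omega : 0 < L)

theorem Sc.p0 (h : Sc k u S L p) : (0 : ℝ) < p := by exact_mod_cast h.p_pos

theorem theta_pos (h : Sc k u S L p) : 0 < theta S L := by
  have := h.s0; have := h.L0; unfold theta; positivity

theorem theta_le_one (h : Sc k u S L p) : theta S L ≤ 1 / 4 := by
  unfold theta
  have h1 := h.s0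
  have h2 : (1 : ℝ) ≤ L := by have := h.hL; exact_mod_cast (by omega : 1 ≤ L)
  apply one_div_le_one_div_of_le (by norm_num)
  nlinarith

theorem tau_nonneg (h : Sc k u S L p) : 0 ≤ tau u S L p := by
  have := h.s0; have := h.L0; unfold tau; positivity

theorem yy_lower (h : Sc k u S L p) : 162 * (u * p : ℝ) ≤ yy u S L p := by
  have h0 := h.s0
  have h1 := h.L0
  have h2 : ((X u S L p : ℕ) : ℝ) ≤ (Dl u S L p : ℝ) ^ 2 := by exact_mod_cast X_le u S L p
  unfold yy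
  rw [le_div_iff₀ (by positivity)]
  refine le_trans ?_ h2
  unfold X
  push_cast
  have h3 : (0 : ℝ) ≤ u * p * (S ^ 3 * L) := by positivity
  nlinarith

theorem tau_Dl (h : Sc k u S L p) : tau u S L p * Dl u S L p = 2 * yy u S L p := by
  have h0 := h.s0
  have h1 := h.L0
  unfold tau yy
  field_simp
  ring

theorem L_tau (h : Sc k u S L p) : L * (S * tau u S L p) ^ 2 = yy u S L p / (2 * S) := by
  have h0 := h.s0
  have h1 := h.L0
  unfold tau yy
  field_simp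
  ring

theorem theta_pow_half (h : Sc k u S L p) (n : ℕ) (hn : n ≤ 2 * L * (S + 1)) :
    (1 + theta S L) ^ n ≤ 2 := by
  have hth := theta_pos h
  have h1 : 1 + theta S L ≤ exp (theta S L) := by
    have := add_one_le_exp (theta S L); linarith
  have h2 : exp (1 / 2 : ℝ) ≤ 2 := by
    have h3 : exp (1 / 2 : ℝ) ^ 2 = exp 1 := by
      rw [← exp_nat_mul]; norm_num
    have h4 := exp_one_lt_d9
    have h5 := exp_pos (1 / 2 : ℝ)
    nlinarith
  calc (1 + theta S L) ^ n ≤ (1 + theta S L) ^ (2 * L * (S + 1)) :=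
        pow_le_pow_right₀ (by linarith) hn
    _ ≤ exp (theta S L) ^ (2 * L * (S + 1)) := pow_le_pow_left₀ (by linarith) h1 _
    _ = exp ((2 * L * (S + 1) : ℕ) * theta S L) := by rw [← exp_nat_mul]
    _ = exp (1 / 2) := by
        congr 1
        unfold theta
        push_cast
        have hL := h.L0
        have : (0 : ℝ) < (S : ℝ) + 1 := by positivity
        field_simp
        norm_num
    _ ≤ 2 := h2

theorem hb (h : Sc k u S L p) :
    cosh (S * tau u S L p) ^ L * (1 + theta S L) ^ (2 * L) ≤ b u S L p := by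
  have h1 : cosh (S * tau u S L p) ^ L ≤ exp (yy u S L p / (4 * S)) := by
    calc cosh (S * tau u S L p) ^ L ≤ exp ((S * tau u S L p) ^ 2 / 2) ^ L :=
          pow_le_pow_left₀ (cosh_pos _).le (cosh_le_exp_half_sq _) _
      _ = exp (L * ((S * tau u S L p) ^ 2 / 2)) := by rw [← exp_nat_mul]
      _ = exp (yy u S L p / (4 * S)) := by
          congr 1
          have := L_tau h
          have e : (L : ℝ) * ((S * tau u S L p) ^ 2 / 2) = (L * (S * tau u S L p) ^ 2) / 2 := by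
            ring
          rw [e, this]
          have h0 := h.s0
          field_simp
          ring
  have h2 := theta_pow_half h (2 * L) (Nat.le_mul_of_pos_right _ (by omega))
  have h3 := theta_pos h
  unfold b
  calc cosh (S * tau u S L p) ^ L * (1 + theta S L) ^ (2 * L)
      ≤ exp (yy u S L p / (4 * S)) * 2 :=
        mul_le_mul h1 h2 (by positivity) (exp_pos _).le
    _ = _ := by ring

/-- truncation error; `N` the number of edges of the big world -/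
def epsT (u S L p N : ℕ) : ℝ :=
  2 * N * b u S L p ^ 2 * exp (-(tau u S L p * Dl u S L p))

theorem epsT_nonneg (u S L p N : ℕ) : 0 ≤ epsT u S L p N := by
  unfold epsT; positivity

theorem b_sq (u S L p : ℕ) : b u S L p ^ 2 = 4 * exp (yy u S L p / (2 * S)) := by
  unfold b
  rw [mul_pow, ← exp_nat_mul]
  norm_num
  ring

theorem one_le_b_sq (h : Sc k u S L p) : 1 ≤ 12 * b u S L p ^ 2 := by
  rw [b_sq]
  have h1 := yy_lower h
  have h2 : 0 ≤ yy u S L p := le_trans (by positivity) h1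
  have h3 := h.s0
  have h4 : 1 ≤ exp (yy u S L p / (2 * S)) := one_le_exp (by positivity)
  linarith

theorem gam_le (h : Sc k u S L p) {N : ℕ} (hN : (N : ℝ) ≤ 4 ^ k) :
    (12 * b u S L p ^ 2) ^ S * epsT u S L p N ≤ exp (-(150 * (u * p : ℝ))) := by
  have hy := yy_lower h
  have hs := h.s_big
  have s0 := h.s0
  have hp : (S : ℝ) ^ 2 ≤ p := by exact_mod_cast h.hp
  have hu : (10 : ℝ) ≤ u := by exact_mod_cast h.u10
  have hk0 : (0 : ℝ) ≤ k := Nat.cast_nonneg k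
  have h48 : (48 : ℝ) ≤ exp 4 := by
    have h1 := exp_one_gt_d9
    have h2 : exp 4 = exp 1 ^ 4 := by rw [← exp_nat_mul]; norm_num
    rw [h2]
    calc (48 : ℝ) ≤ 2.7 ^ 4 := by norm_num
      _ ≤ exp 1 ^ 4 := pow_le_pow_left₀ (by norm_num) (by linarith) 4
  have h1 : (12 * b u S L p ^ 2) ^ S ≤ exp (4 * S + yy u S L p / 2) := by
    rw [b_sq]
    calc (12 * (4 * exp (yy u S L p / (2 * S)))) ^ S
        = (48 * exp (yy u S L p / (2 * S))) ^ S := by ring
      _ ≤ (exp 4 * exp (yy u S L p / (2 * S))) ^ S := by gcongr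
      _ = exp (4 * S + yy u S L p / 2) := by
          rw [← exp_add, ← exp_nat_mul]
          congr 1
          field_simp
  have h2 : epsT u S L p N ≤ exp (2 * k + 3 + yy u S L p / 2 - 2 * yy u S L p) := by
    unfold epsT
    rw [tau_Dl h, b_sq, sub_eq_add_neg, exp_add]
    apply mul_le_mul_of_nonneg_right _ (exp_pos _).le
    have h3 : yy u S L p / (2 * S) ≤ yy u S L p / 2 := by
      have h0 : 0 ≤ yy u S L p := le_trans (by positivity) hy
      apply div_le_div_of_nonneg_left h0 (by norm_num)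
      linarith
    have h4 : exp (yy u S L p / (2 * S)) ≤ exp (yy u S L p / 2) := exp_le_exp.mpr h3
    have h5 : (N : ℝ) ≤ exp (2 * k) := hN.trans (four_pow_le_exp k)
    have h8 : (8 : ℝ) ≤ exp 3 := by
      have := two_pow_le_exp 3
      norm_num at this
      linarith
    calc 2 * N * (4 * exp (yy u S L p / (2 * S))) = 8 * N * exp (yy u S L p / (2 * S)) := by ring
      _ ≤ exp 3 * exp (2 * k) * exp (yy u S L p / 2) := by gcongr
      _ = exp (2 * k + 3 + yy u S L p / 2) := by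
          rw [← exp_add, ← exp_add]; congr 1; ring
  calc (12 * b u S L p ^ 2) ^ S * epsT u S L p N
      ≤ exp (4 * S + yy u S L p / 2) *
        exp (2 * k + 3 + yy u S L p / 2 - 2 * yy u S L p) :=
        mul_le_mul h1 h2 (epsT_nonneg _ _ _ _ _) (exp_pos _).le
    _ = exp (4 * S + 2 * k + 3 - yy u S L p) := by
        rw [← exp_add]; congr 1; ring
    _ ≤ exp (-(150 * (u * p : ℝ))) := by
        apply exp_le_exp.mpr
        have h5 : (S : ℝ) ≤ p := by nlinarith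
        have h6 : (10 : ℝ) * p ≤ u * p := by
          have := h.p0
          nlinarith
        nlinarith

theorem epsT_le (h : Sc k u S L p) {N : ℕ} (hN : (N : ℝ) ≤ 4 ^ k) :
    epsT u S L p N ≤ exp (-(150 * (u * p : ℝ))) := by
  refine le_trans ?_ (gam_le h hN)
  exact le_mul_of_one_le_left (epsT_nonneg _ _ _ _ _) (one_le_pow₀ (one_le_b_sq h))

theorem exp_le_theta (h : Sc k u S L p) :
    exp (-(150 * (u * p : ℝ))) ≤ theta S L ^ 2 / 16 := by
  have hs := h.s_big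
  have s0 := h.s0
  have hL0 := h.L0
  have hp : (S : ℝ) ^ 2 ≤ p := by exact_mod_cast h.hp
  have hu : (10 : ℝ) ≤ u := by exact_mod_cast h.u10
  have hk0 : (0 : ℝ) ≤ k := Nat.cast_nonneg k
  have hL : (L : ℝ) ≤ exp (2 * k) := by
    refine le_trans ?_ (four_pow_le_exp k)
    exact_mod_cast L_le h
  have h3 : theta S L ^ 2 / 16 = 1 / (256 * (L : ℝ) ^ 2 * ((S : ℝ) + 1) ^ 2) := by
    unfold theta
    have : (0 : ℝ) < S + 1 := by positivity
    field_simp
    norm_num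
  rw [h3, exp_neg, ← one_div]
  have h256 : (256 : ℝ) ≤ exp 8 := by
    have := two_pow_le_exp 8
    norm_num at this
    linarith
  have hx1 : (S : ℝ) + 1 ≤ exp S := add_one_le_exp (S : ℝ)
  apply one_div_le_one_div_of_le (by positivity)
  calc 256 * (L : ℝ) ^ 2 * ((S : ℝ) + 1) ^ 2
      ≤ exp 8 * exp (2 * k) ^ 2 * exp S ^ 2 := by gcongr
    _ = exp (8 + 4 * k + 2 * S) := by
        rw [← exp_nat_mul, ← exp_nat_mul, ← exp_add, ← exp_add]
        congr 1
        push_cast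
        ring
    _ ≤ exp (150 * (u * p : ℝ)) := by
        apply exp_le_exp.mpr
        have h5 : (S : ℝ) ≤ p := by nlinarith
        have h6 : (10 : ℝ) * p ≤ u * p := by
          have := h.p0
          nlinarith
        nlinarith

/-- `exp (-150 u p) ≤ (s ^ p) ^ (-80)` -/
theorem exp_le_X (h : Sc k u S L p) :
    exp (-(150 * (u * p : ℝ))) ≤ 1 / ((S : ℝ) ^ p) ^ 80 := by
  have s0 := h.s0
  rw [exp_neg, ← one_div]
  apply one_div_le_one_div_of_le (by positivity)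
  have hS : (S : ℝ) = 2 ^ u := by rw [h.hS]; push_cast; rfl
  calc ((S : ℝ) ^ p) ^ 80 = 2 ^ (u * p * 80) := by rw [hS, ← pow_mul, ← pow_mul, mul_assoc]
    _ ≤ exp ((u * p * 80 : ℕ)) := two_pow_le_exp _
    _ ≤ exp (150 * (u * p : ℝ)) := by
        apply exp_le_exp.mpr
        push_cast
        have : (0 : ℝ) ≤ u * p := by positivity
        linarith

/-- tail probability base -/
def th (S : ℕ) : ℝ := 1 / (S : ℝ) ^ 80

theorem th_nonneg (S : ℕ) : 0 ≤ th S := by unfold th; positivity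

theorem Dl_le_real (h : Sc k u S L p) : (Dl u S L p : ℝ) * (S : ℝ) ^ 85 ≤ 2 ^ k := by
  exact_mod_cast Dl_le h

theorem one_le_Dl (u S L p : ℕ) : (1 : ℝ) ≤ Dl u S L p := by
  unfold Dl; push_cast
  have : (0 : ℝ) ≤ (Nat.sqrt (X u S L p) : ℝ) := Nat.cast_nonneg _
  linarith

/-- the common estimate behind `th1` and `th2` -/
theorem th_aux (h : Sc k u S L p) :
    (2304 * (kk S p : ℝ) * (S + 6)) * ((4 * (2 * k) * ((S + 2) * Dl u S L p + 1)) / (k * 2 ^ k)) ≤
      th S := by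
  have hk : (0 : ℝ) < k := by have := h.k3; exact_mod_cast (by omega : 0 < k)
  have hs := h.s_big
  have s0 := h.s0
  have hu : (10 : ℝ) ≤ u := by exact_mod_cast h.u10
  have hs1 : (1000000 : ℝ) ≤ S := by nlinarith
  have hD := Dl_le_real h
  have hD1 := one_le_Dl u S L p
  have hkk : (kk S p : ℝ) ≤ S := by exact_mod_cast kk_le h
  have h2k : (0 : ℝ) < 2 ^ k := by positivity
  have h1 : (S + 2) * Dl u S L p + 1 ≤ (2 : ℝ) * S * Dl u S L p := by nlinarith
  have h6 : (S : ℝ) + 6 ≤ 2 * S := by linarith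
  unfold th
  rw [← mul_div_assoc, div_le_div_iff₀ (by positivity) (by positivity)]
  set D : ℝ := (Dl u S L p : ℝ)
  calc (2304 * (kk S p : ℝ) * (S + 6)) * (4 * (2 * k) * ((S + 2) * D + 1)) * (S : ℝ) ^ 80
      ≤ (2304 * S * (2 * S)) * (4 * (2 * k) * (2 * S * D)) * (S : ℝ) ^ 80 := by gcongr
    _ = 73728 * (k * (D * (S : ℝ) ^ 83)) := by ring
    _ ≤ S ^ 2 * (k * (D * (S : ℝ) ^ 83)) := by
        apply mul_le_mul_of_nonneg_right _ (by positivity)
        nlinarith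
    _ = k * (D * (S : ℝ) ^ 85) := by ring
    _ ≤ k * 2 ^ k := mul_le_mul_of_nonneg_left hD hk.le
    _ = 1 * (k * 2 ^ k) := by ring

theorem edges_eq {j : ℕ} (hj : 1 ≤ j) : ((3 * j * 2 ^ (j - 1) : ℕ) : ℝ) = 3 / 2 * j * 2 ^ j := by
  obtain ⟨i, rfl⟩ := Nat.exists_eq_add_of_le hj
  have : 1 + i - 1 = i := by omega
  rw [this, add_comm 1 i]
  push_cast
  ring

theorem edges_le (h : Sc k u S L p) : ((3 * k * 2 ^ (k - 1) : ℕ) : ℝ) ≤ 4 ^ k := by
  have h1 : ∀ n : ℕ, 3 ≤ n → 3 * n ≤ 2 * 2 ^ n := by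
    intro n hn
    induction n, hn using Nat.le_induction with
    | base => norm_num
    | succ n hn ih => rw [pow_succ]; omega
  have h2 := h1 k h.k3
  have h3 : 3 * k * 2 ^ (k - 1) ≤ 4 ^ k := by
    have e : 2 ^ k = 2 * 2 ^ (k - 1) := by
      rw [← pow_succ', Nat.sub_add_cancel (by have := h.k3; omega)]
    calc 3 * k * 2 ^ (k - 1) ≤ 2 * 2 ^ k * 2 ^ (k - 1) := Nat.mul_le_mul_right _ h2
      _ = 2 ^ k * (2 * 2 ^ (k - 1)) := by ring
      _ = 2 ^ k * 2 ^ k := by rw [← e]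
      _ = 4 ^ k := by rw [← mul_pow]; norm_num
  exact_mod_cast h3

/-- the size of the small world -/
theorem small_le (h : Sc k u S L p) :
    (kk S p : ℝ) * 2 ^ kk S p / p ≤ 1536 * (kk S p : ℝ) * (S + 6) := by
  have hp := h.p0
  have h1 : ((2 : ℝ) ^ kk S p) ≤ 128 * (S + 6) * (12 * p) := by exact_mod_cast kk_upper h
  rw [div_le_iff₀ hp]
  calc (kk S p : ℝ) * 2 ^ kk S p ≤ kk S p * (128 * (S + 6) * (12 * p)) :=
        mul_le_mul_of_nonneg_left h1 (Nat.cast_nonneg _)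
    _ = 1536 * (kk S p : ℝ) * (S + 6) * p := by ring

theorem rad (h : Sc k u S L p) : 8 * (2 * k) * ((5 * S + 6) * Dl u S L p + 8) < k * 2 ^ k := by
  have h1 := Dl_le h
  have hk := h.hk
  have hk3 := h.k3
  have hS := h.S_pos
  have hD1 : 1 ≤ Dl u S L p := by unfold Dl; omega
  have h5 : (5 * S + 6) * Dl u S L p + 8 ≤ (5 * S + 14) * Dl u S L p := by nlinarith
  have h6 : 16 * (5 * S + 14) < S ^ 2 := by nlinarith
  have h7 : S ^ 2 ≤ S ^ 85 := Nat.pow_le_pow_right hS (by norm_num)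
  calc 8 * (2 * k) * ((5 * S + 6) * Dl u S L p + 8)
      ≤ 8 * (2 * k) * ((5 * S + 14) * Dl u S L p) := Nat.mul_le_mul_left _ h5
    _ = (16 * (5 * S + 14)) * (k * Dl u S L p) := by ring
    _ < S ^ 2 * (k * Dl u S L p) := by
        apply Nat.mul_lt_mul_of_pos_right h6
        positivity
    _ ≤ S ^ 85 * (k * Dl u S L p) := Nat.mul_le_mul_right _ h7
    _ = k * (Dl u S L p * S ^ 85) := by ring
    _ ≤ k * 2 ^ k := Nat.mul_le_mul_left _ h1

theorem rad' (h : Sc k u S L p) :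
    16 * (2 * kk S p) * (2 * ((S + 6) * (12 * p))) < kk S p * 2 ^ kk S p := by
  have h1 := kk_lower S p
  have h3 := three_le_kk h
  calc 16 * (2 * kk S p) * (2 * ((S + 6) * (12 * p)))
      = kk S p * (64 * (S + 6) * (12 * p)) := by ring
    _ < kk S p * 2 ^ kk S p := Nat.mul_lt_mul_of_pos_left h1 (by omega)

theorem th1 (h : Sc k u S L p) :
    3 * (3 * kk S p * 2 ^ (kk S p - 1) : ℕ) / (2 * p : ℕ) *
      ((((S + 2) * Dl u S L p : ℕ) + 1 : ℝ) * (2 * k) / (k * 2 ^ k)) ≤ th S := by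
  refine le_trans ?_ (th_aux h)
  have hp := h.p0
  have hk : (0 : ℝ) < k := by have := h.k3; exact_mod_cast (by omega : 0 < k)
  have hD := one_le_Dl u S L p
  have s0 := h.s0
  have h1 := small_le h
  rw [edges_eq (by have := three_le_kk h; omega)]
  have e1 : 3 * (3 / 2 * (kk S p : ℝ) * 2 ^ kk S p) / (2 * p : ℕ) =
      9 / 4 * ((kk S p : ℝ) * 2 ^ kk S p / p) := by
    push_cast
    field_simp
    ring
  rw [e1]
  have e2 : 9 / 4 * ((kk S p : ℝ) * 2 ^ kk S p / p) ≤ 2 * (2304 * (kk S p : ℝ) * (S + 6)) := by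
    have : (0 : ℝ) ≤ (kk S p : ℝ) * (S + 6) := by positivity
    nlinarith
  have e3 : (((S + 2) * Dl u S L p : ℕ) + 1 : ℝ) * (2 * k) / (k * 2 ^ k) =
      ((S + 2) * Dl u S L p + 1 : ℝ) * (2 * k) / (k * 2 ^ k) := by push_cast; rfl
  rw [e3]
  calc 9 / 4 * ((kk S p : ℝ) * 2 ^ kk S p / p) *
        (((S + 2) * Dl u S L p + 1 : ℝ) * (2 * k) / (k * 2 ^ k))
      ≤ 2 * (2304 * (kk S p : ℝ) * (S + 6)) *
        (((S + 2) * Dl u S L p + 1 : ℝ) * (2 * k) / (k * 2 ^ k)) :=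
        mul_le_mul_of_nonneg_right e2 (by positivity)
    _ = (2304 * (kk S p : ℝ) * (S + 6)) *
        ((2 * (2 * k) * ((S + 2) * Dl u S L p + 1)) / (k * 2 ^ k)) := by ring
    _ ≤ (2304 * (kk S p : ℝ) * (S + 6)) *
        ((4 * (2 * k) * ((S + 2) * Dl u S L p + 1)) / (k * 2 ^ k)) := by
        gcongr
        norm_num

theorem th2 (h : Sc k u S L p) :
    3 * (kk S p * 2 ^ kk S p : ℕ) / (2 * p : ℕ) *
      ((2 * (2 * k) * (((S + 2) * Dl u S L p : ℕ) + 1) : ℝ) / (k * 2 ^ k)) ≤ th S := by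
  refine le_trans ?_ (th_aux h)
  have hp := h.p0
  have hk : (0 : ℝ) < k := by have := h.k3; exact_mod_cast (by omega : 0 < k)
  have hD := one_le_Dl u S L p
  have s0 := h.s0
  have h1 := small_le h
  have e1 : 3 * ((kk S p * 2 ^ kk S p : ℕ) : ℝ) / (2 * p : ℕ) =
      3 / 2 * ((kk S p : ℝ) * 2 ^ kk S p / p) := by
    push_cast
    field_simp
  rw [e1]
  have e2 : 3 / 2 * ((kk S p : ℝ) * 2 ^ kk S p / p) ≤ 2304 * (kk S p : ℝ) * (S + 6) := by
    linarith
  have e3 : (2 * (2 * k) * (((S + 2) * Dl u S L p : ℕ) + 1) : ℝ) =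
      2 * (2 * k) * ((S + 2) * Dl u S L p + 1) := by push_cast; rfl
  rw [e3]
  gcongr
  norm_num

/-- the number of classes -/
theorem base_le (h : Sc k u S L p) :
    (3 * (3 * kk S p * 2 ^ (kk S p - 1) : ℕ) / (24 * p : ℕ) : ℝ) ^ (24 * p) ≤
      ((S : ℝ) ^ p) ^ 72 := by
  have hp := h.p0
  have hs := h.s_big
  have s0 := h.s0
  have hu : (10 : ℝ) ≤ u := by exact_mod_cast h.u10
  have hs1 : (1000000 : ℝ) ≤ S := by
    have hk0 : (0 : ℝ) ≤ k := Nat.cast_nonneg k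
    nlinarith
  have h1 := small_le h
  have hkk : (kk S p : ℝ) ≤ S := by exact_mod_cast kk_le h
  rw [edges_eq (by have := three_le_kk h; omega)]
  have e1 : 3 * (3 / 2 * (kk S p : ℝ) * 2 ^ kk S p) / (24 * p : ℕ) =
      3 / 16 * ((kk S p : ℝ) * 2 ^ kk S p / p) := by
    push_cast
    field_simp
    ring
  rw [e1]
  have e2 : 3 / 16 * ((kk S p : ℝ) * 2 ^ kk S p / p) ≤ (S : ℝ) ^ 3 := by
    have h2 : 1536 * (kk S p : ℝ) * (S + 6) ≤ 1536 * S * (2 * S) := by
      gcongr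
      linarith
    have h3 : 576 * ((S : ℝ) * S) ≤ S * (S * S) :=
      mul_le_mul_of_nonneg_right (by linarith) (by positivity)
    nlinarith
  calc (3 / 16 * ((kk S p : ℝ) * 2 ^ kk S p / p)) ^ (24 * p) ≤ ((S : ℝ) ^ 3) ^ (24 * p) :=
        pow_le_pow_left₀ (by positivity) e2 _
    _ = ((S : ℝ) ^ p) ^ 72 := by
        rw [← pow_mul, ← pow_mul]
        congr 1
        ring

theorem fin_le (h : Sc k u S L p) {M : ℕ} {C : ℝ} (hM : M ≤ 2 ^ p) (hC0 : 0 ≤ C)
    (hC : C ≤ S) :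
    (3 * (3 * kk S p * 2 ^ (kk S p - 1) : ℕ) / (24 * p : ℕ) : ℝ) ^ (24 * p) * (8 * 3 ^ S * (8 *
      ((M * L + (3 * k * 2 ^ (k - 1) : ℕ)) * (16 * L * (2 * th S ^ p +
        2 * (3 * k * 2 ^ (k - 1) : ℕ) * b u S L p ^ 2 *
          exp (-(tau u S L p * Dl u S L p))))) * (5 * L) ^ S)) *
      ((C + 100) * (L : ℝ) ^ 2) ≤ 1 := by
  have hA := base_le h
  have hN := edges_le h
  have heT := (epsT_le h hN).trans (exp_le_X h)
  have heT0 := epsT_nonneg u S L p (3 * k * 2 ^ (k - 1))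
  unfold epsT at heT heT0
  have hs := h.s_big
  have s0 := h.s0
  have hu : (10 : ℝ) ≤ u := by exact_mod_cast h.u10
  have hk0 : (0 : ℝ) ≤ k := Nat.cast_nonneg k
  have hs1 : (1000000 : ℝ) ≤ S := by nlinarith
  have hL0 := h.L0
  have hL : (L : ℝ) ≤ 4 ^ k := by exact_mod_cast L_le h
  have hpS : S * S ≤ p := by have := h.hp; rwa [pow_two] at this
  have hSn := h.hk
  have hS1 : 1 ≤ S := h.S_pos
  have hm1 : S ≤ p := le_trans (Nat.le_mul_of_pos_left _ h.S_pos) hpS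
  have hm3 : k * S ≤ p := (Nat.mul_le_mul_right _ (by omega : k ≤ S)).trans hpS
  have hm4 : k ≤ p := le_trans (by omega) hm1
  have hM' : (M : ℝ) ≤ 2 ^ p := by exact_mod_cast hM
  have hthp : th S ^ p = 1 / ((S : ℝ) ^ p) ^ 80 := by
    unfold th
    rw [div_pow, one_pow, pow_right_comm]
  have hth0 := pow_nonneg (th_nonneg S) p
  have hx1 : (1 : ℝ) ≤ S := by linarith
  have hX0 : 0 < (S : ℝ) ^ p := by positivity
  have hX1 : 1 ≤ (S : ℝ) ^ p := one_le_pow₀ hx1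
  have f1 : (6144 : ℝ) ≤ (S : ℝ) ^ p := by
    calc (6144 : ℝ) ≤ S := by linarith
      _ = (S : ℝ) ^ 1 := by ring
      _ ≤ (S : ℝ) ^ p := pow_le_pow_right₀ hx1 (by omega)
  have f2 : (C : ℝ) + 100 ≤ (S : ℝ) ^ p := by
    calc (C : ℝ) + 100 ≤ 2 * S := by linarith
      _ ≤ S * S := by nlinarith
      _ = (S : ℝ) ^ 2 := by ring
      _ ≤ (S : ℝ) ^ p := pow_le_pow_right₀ hx1 (by omega)
  have f3 : (15 : ℝ) ^ S ≤ (S : ℝ) ^ p := by
    calc (15 : ℝ) ^ S ≤ (S : ℝ) ^ S := pow_le_pow_left₀ (by norm_num) (by linarith) _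
      _ ≤ (S : ℝ) ^ p := pow_le_pow_right₀ hx1 hm1
  have f4 : ((4 : ℝ) ^ k) ^ S ≤ (S : ℝ) ^ p := by
    rw [← pow_mul]
    calc (4 : ℝ) ^ (k * S) ≤ (S : ℝ) ^ (k * S) :=
          pow_le_pow_left₀ (by norm_num) (by linarith) _
      _ ≤ (S : ℝ) ^ p := pow_le_pow_right₀ hx1 hm3
  have f5 : (256 : ℝ) ^ k ≤ (S : ℝ) ^ p := by
    calc (256 : ℝ) ^ k ≤ (S : ℝ) ^ k := pow_le_pow_left₀ (by norm_num) (by linarith) _
      _ ≤ (S : ℝ) ^ p := pow_le_pow_right₀ hx1 hm4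
  have f6 : (2 : ℝ) ^ p ≤ (S : ℝ) ^ p := pow_le_pow_left₀ (by norm_num) (by linarith) _
  have g1 : (M : ℝ) * L + (3 * k * 2 ^ (k - 1) : ℕ) ≤ 2 * (S : ℝ) ^ p * 4 ^ k := by
    have h1 : (M : ℝ) * L ≤ (S : ℝ) ^ p * 4 ^ k :=
      mul_le_mul (hM'.trans f6) hL hL0.le (by positivity)
    have h3 : (0 : ℝ) ≤ 4 ^ k := by positivity
    nlinarith
  have hMLN : (0 : ℝ) ≤ (M : ℝ) * L + (3 * k * 2 ^ (k - 1) : ℕ) := by positivity
  refine fin_aux S k ((S : ℝ) ^ p) (1 / ((S : ℝ) ^ p) ^ 80) (((S : ℝ) ^ p) ^ 72) _ _ _ _ C hX1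
    (by positivity) (by positivity) ?_ hL0.le hL hA hMLN g1 (by linarith) ?_ f1 hC0 f2 f3 f4 f5
  · generalize (S : ℝ) ^ p = Y at *
    have e : Y ^ 72 * (1 / Y ^ 80) * (Y * Y * Y * Y * Y * Y) = Y ^ 78 / Y ^ 80 := by ring
    rw [e, div_le_one (by positivity)]
    exact pow_le_pow_right₀ hX1 (by norm_num)
  · rw [hthp]; linarith

/-- **The numbers for a given scale.** -/
theorem nums_of (h : Sc k u S L p) {M nn : ℕ} {C : ℝ} (hM : M ≤ 2 ^ p) (hC0 : 0 ≤ C)
    (hC : C ≤ S) (hnn : nn ≤ S) : Nonempty (Nums k (kk S p) S L M nn C) := by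
  have hN := edges_le h
  refine ⟨{
    Dl := Dl u S L p
    p := p
    τ := tau u S L p
    b := b u S L p
    θ := theta S L
    th := th S
    hk := h.k3
    hk' := three_le_kk h
    D3 := by unfold Dl; omega
    p1 := h.p_pos
    τ0 := tau_nonneg h
    θ0 := (theta_pos h).le
    θ1 := (theta_le_one h).trans (by norm_num)
    th0 := th_nonneg S
    hL := h.hL
    hn := hnn
    hh1 := h.S_pos
    hb := hb h
    hγ := (gam_le h hN).trans (exp_le_theta h)
    hθ := theta_pow_half h _ le_rfl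
    rad := rad h
    rad' := rad' h
    th1 := th1 h
    th2 := th2 h
    fin := fin_le h hM hC0 hC }⟩

end

end Par

end Pool.Agent.EFS
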