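import Pool.Agent.Lib.EFT.Frege

/-!
# Partial unfolding of an Extended Frege refutation

Project EFS (helper64). The extension variables of a set `Z` are kept, the others are unfolded.
The lines and the definitions with the other variables unfolded form again an Extended Frege
refutation; one only adds the two reflexivity schemes.
-/

set_option autoImplicit false

open Finset

namespace Pool.Agent.EFT

namespace Form
variable {α β : Type*}

/-- The variables of an instance. -/
theorem occ_subst (θ : α → Form β) (f : Form α) (y : β) :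
    (f.subst θ).Occ y ↔ ∃ x, f.Occ x ∧ (θ x).Occ y := by
  induction f with
  | var x =>
    constructor
    · intro h
      exact ⟨x, rfl, h⟩
    · rintro ⟨x', rfl, h⟩
      exact h
  | neg f ih => exact ih
  | and f g ihf ihg =>
    constructor
    · rintro (h | h)
      · obtain ⟨x, h1, h2⟩ := ihf.1 h
        exact ⟨x, Or.inl h1, h2⟩
      · obtain ⟨x, h1, h2⟩ := ihg.1 h
        exact ⟨x, Or.inr h1, h2⟩
    · rintro ⟨x, h1 | h1, h2⟩
      · exact Or.inl (ihf.2 ⟨x, h1, h2⟩)
      · exact Or.inr (ihg.2 ⟨x, h1, h2⟩)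
  | or f g ihf ihg =>
    constructor
    · rintro (h | h)
      · obtain ⟨x, h1, h2⟩ := ihf.1 h
        exact ⟨x, Or.inl h1, h2⟩
      · obtain ⟨x, h1, h2⟩ := ihg.1 h
        exact ⟨x, Or.inr h1, h2⟩
    · rintro ⟨x, h1 | h1, h2⟩
      · exact Or.inl (ihf.2 ⟨x, h1, h2⟩)
      · exact Or.inr (ihg.2 ⟨x, h1, h2⟩)
  | imp f g ihf ihg =>
    constructor
    · rintro (h | h)
      · obtain ⟨x, h1, h2⟩ := ihf.1 h
        exact ⟨x, Or.inl h1, h2⟩
      · obtain ⟨x, h1, h2⟩ := ihg.1 h
        exact ⟨x, Or.inr h1, h2⟩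
    · rintro ⟨x, h1 | h1, h2⟩
      · exact Or.inl (ihf.2 ⟨x, h1, h2⟩)
      · exact Or.inr (ihg.2 ⟨x, h1, h2⟩)

end Form

end Pool.Agent.EFT

namespace Pool.Agent.EFS

open Pool.Agent.EFT

variable {α : Type*} {m : ℕ}

/-- Put `U i` for the extension variable `i`. -/
def pUnf (U : Fin m → Form (α ⊕ Fin m)) (f : Form (α ⊕ Fin m)) : Form (α ⊕ Fin m) :=
  f.subst (Sum.elim (fun x => .var (Sum.inl x)) U)

/-- `U` unfolds all extension variables outside `H`; those in `H` are kept. -/
structure PartialUnfolding (D : Fin m → Form (α ⊕ Fin m)) (H : Finset (Fin m))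
    (U : Fin m → Form (α ⊕ Fin m)) : Prop where
  keep : ∀ i ∈ H, U i = .var (Sum.inr i)
  unf : ∀ i, i ∉ H → U i = pUnf U (D i)

theorem pUnf_lift (U : Fin m → Form (α ⊕ Fin m)) (A : Form α) : pUnf U A.lift = A.lift := by
  unfold pUnf Form.lift
  rw [Form.subst_subst]
  rfl

theorem pUnf_subst (U : Fin m → Form (α ⊕ Fin m)) {n : ℕ} (θ : Fin n → Form (α ⊕ Fin m))
    (f : Form (Fin n)) : pUnf U (f.subst θ) = f.subst fun i => pUnf U (θ i) :=
  Form.subst_subst _ _ f

/-- Unfolding commutes: a full unfolding after a partial unfolding. -/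
theorem unfold_pUnf (U : Fin m → Form (α ⊕ Fin m)) (V : Fin m → Form α)
    (f : Form (α ⊕ Fin m)) : unfold V (pUnf U f) = unfold (fun i => unfold V (U i)) f := by
  unfold pUnf unfold
  rw [Form.subst_subst]
  congr 1
  funext x
  rcases x with x | i <;> rfl

/-- The line of an extension axiom. -/
theorem pUnf_ext {D : Fin m → Form (α ⊕ Fin m)} {H : Finset (Fin m)}
    {U : Fin m → Form (α ⊕ Fin m)} (hU : PartialUnfolding D H U) (i : Fin m) :
    (i ∈ H ∧ pUnf U (Form.iff (.var (Sum.inr i)) (D i)) =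
        Form.iff (.var (Sum.inr i)) (pUnf U (D i)) ∧
      pUnf U (Form.iff' (.var (Sum.inr i)) (D i)) =
        Form.iff' (.var (Sum.inr i)) (pUnf U (D i))) ∨
    (i ∉ H ∧ pUnf U (Form.iff (.var (Sum.inr i)) (D i)) = Form.iff (U i) (U i) ∧
      pUnf U (Form.iff' (.var (Sum.inr i)) (D i)) = Form.iff' (U i) (U i)) := by
  have h : pUnf U (Form.iff (.var (Sum.inr i)) (D i)) =
      Form.iff (U i) (pUnf U (D i)) := rfl
  have h' : pUnf U (Form.iff' (.var (Sum.inr i)) (D i)) =
      Form.iff' (U i) (pUnf U (D i)) := rfl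
  by_cases hi : i ∈ H
  · left
    rw [h, h', hU.keep i hi]
    exact ⟨hi, rfl, rfl⟩
  · right
    rw [h, h', ← hU.unf i hi]
    exact ⟨hi, rfl, rfl⟩

/-- **Partial unfolding.** The lines with the extension variables outside `H` unfolded form an
Extended Frege refutation with the definitions in which they are unfolded too; only the extension
axioms of the variables of `H` are used. -/
theorem isRefutation_pUnf (𝓡 : List FrRule) (Cl : Set (Form α)) {M : ℕ}
    {D : Fin m → Form (α ⊕ Fin m)} {C : Fin M → Form (α ⊕ Fin m)}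
    (href : IsRefutation 𝓡 Cl D C) {H : Finset (Fin m)} {U : Fin m → Form (α ⊕ Fin m)}
    (hU : PartialUnfolding D H U) :
    (∀ t, (∃ A ∈ Cl, pUnf U (C t) = A.lift) ∨
      (∃ i ∈ H, pUnf U (C t) = Form.iff (.var (Sum.inr i)) (pUnf U (D i)) ∨
        pUnf U (C t) = Form.iff' (.var (Sum.inr i)) (pUnf U (D i))) ∨
      ∃ ρ ∈ idRule :: idRule' :: 𝓡, ∃ θ : Fin ρ.n → Form (α ⊕ Fin m),
        pUnf U (C t) = ρ.concl.subst θ ∧ ∀ A ∈ ρ.prem, ∃ t' < t, pUnf U (C t') = A.subst θ) ∧
    ((∃ t t', pUnf U (C t') = .neg (pUnf U (C t))) ∨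
      ∃ t A, Conj Cl A ∧ pUnf U (C t) = .neg A.lift) := by
  constructor
  · intro t
    rcases href.line t with ⟨A, hA, hC⟩ | ⟨i, hC | hC⟩ | ⟨ρ, hρ, θ, hC, hp⟩
    · left
      exact ⟨A, hA, by rw [hC, pUnf_lift]⟩
    · rcases pUnf_ext hU i with ⟨hi, h1, h2⟩ | ⟨hi, h1, h2⟩
      · right; left
        exact ⟨i, hi, Or.inl (by rw [hC, h1])⟩
      · right; right
        refine ⟨idRule, by simp, fun _ => U i, ?_, fun A hA => absurd hA List.not_mem_nil⟩
        rw [hC, h1]
        rfl
    · rcases pUnf_ext hU i with ⟨hi, h1, h2⟩ | ⟨hi, h1, h2⟩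
      · right; left
        exact ⟨i, hi, Or.inr (by rw [hC, h2])⟩
      · right; right
        refine ⟨idRule', by simp, fun _ => U i, ?_, fun A hA => absurd hA List.not_mem_nil⟩
        rw [hC, h2]
        rfl
    · right; right
      refine ⟨ρ, by simp [hρ], fun i => pUnf U (θ i), ?_, ?_⟩
      · rw [hC, pUnf_subst]
      · intro A hA
        obtain ⟨t', ht', hC'⟩ := hp A hA
        exact ⟨t', ht', by rw [hC', pUnf_subst]⟩
  · rcases href.contra with ⟨t, t', h⟩ | ⟨t, A, hA, h⟩
    · left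
      exact ⟨t, t', by rw [h]; rfl⟩
    · right
      refine ⟨t, A, hA, ?_⟩
      rw [h]
      change Form.neg (pUnf U A.lift) = _
      rw [pUnf_lift]

/-- The same as a refutation in the sense of `IsRefutation`. -/
theorem isRefutation_pUnf' (𝓡 : List FrRule) (Cl : Set (Form α)) {M : ℕ}
    {D : Fin m → Form (α ⊕ Fin m)} {C : Fin M → Form (α ⊕ Fin m)}
    (href : IsRefutation 𝓡 Cl D C) {H : Finset (Fin m)} {U : Fin m → Form (α ⊕ Fin m)}
    (hU : PartialUnfolding D H U) :
    IsRefutation (idRule :: idRule' :: 𝓡) Cl (fun i => pUnf U (D i))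
      (fun t => pUnf U (C t)) := by
  obtain ⟨h1, h2⟩ := isRefutation_pUnf 𝓡 Cl href hU
  refine ⟨fun t => ?_, h2⟩
  rcases h1 t with h | ⟨i, _, h⟩ | h
  · exact Or.inl h
  · exact Or.inr (Or.inl ⟨i, h⟩)
  · exact Or.inr (Or.inr h)

/-- Which extension variables are left in `U i`. -/
theorem occ_U {D : Fin m → Form (α ⊕ Fin m)} (hD : ∀ i j, (D i).Occ (Sum.inr j) → j < i)
    {H : Finset (Fin m)} {U : Fin m → Form (α ⊕ Fin m)} (hU : PartialUnfolding D H U)
    (i j : Fin m) (h : (U i).Occ (Sum.inr j)) : j ∈ H ∧ j ≤ i := by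
  induction i using WellFoundedLT.induction with
  | ind i ih =>
    by_cases hi : i ∈ H
    · rw [hU.keep i hi] at h
      have h' : (Sum.inr i : α ⊕ Fin m) = Sum.inr j := h
      have : i = j := Sum.inr.inj h'
      exact ⟨this ▸ hi, this ▸ le_rfl⟩
    · rw [hU.unf i hi] at h
      obtain ⟨x, hx, hy⟩ := (Form.occ_subst _ _ _).1 h
      rcases x with x | l
      · exact absurd (show (Sum.inl x : α ⊕ Fin m) = Sum.inr j from hy) (by simp)
      · have hl := hD i l hx
        obtain ⟨h1, h2⟩ := ih l hl hy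
        exact ⟨h1, h2.trans hl.le⟩

/-- Which extension variables are left in a formula: `j` is kept and there is a variable `l` of the
formula, `j ≤ l`. -/
theorem occ_pUnf {D : Fin m → Form (α ⊕ Fin m)} (hD : ∀ i j, (D i).Occ (Sum.inr j) → j < i)
    {H : Finset (Fin m)} {U : Fin m → Form (α ⊕ Fin m)} (hU : PartialUnfolding D H U)
    (f : Form (α ⊕ Fin m)) (j : Fin m) (h : (pUnf U f).Occ (Sum.inr j)) :
    j ∈ H ∧ ∃ l, f.Occ (Sum.inr l) ∧ j ≤ l := by
  obtain ⟨x, hx, hy⟩ := (Form.occ_subst _ _ _).1 h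
  rcases x with x | l
  · exact absurd (show (Sum.inl x : α ⊕ Fin m) = Sum.inr j from hy) (by simp)
  · obtain ⟨h1, h2⟩ := occ_U hD hU l j hy
    exact ⟨h1, l, hx, h2⟩

/-- The unfolded definitions are acyclic and mention kept variables only. -/
theorem occ_pUnf_D {D : Fin m → Form (α ⊕ Fin m)} (hD : ∀ i j, (D i).Occ (Sum.inr j) → j < i)
    {H : Finset (Fin m)} {U : Fin m → Form (α ⊕ Fin m)} (hU : PartialUnfolding D H U)
    (i j : Fin m) (h : (pUnf U (D i)).Occ (Sum.inr j)) : j ∈ H ∧ j < i := by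
  obtain ⟨h1, l, hl, h2⟩ := occ_pUnf hD hU (D i) j h
  exact ⟨h1, h2.trans_lt (hD i l hl)⟩

/-- There is exactly one partial unfolding for each set `H`. -/
theorem existsUnique_partialUnfolding (D : Fin m → Form (α ⊕ Fin m))
    (hD : ∀ i j, (D i).Occ (Sum.inr j) → j < i) (H : Finset (Fin m)) :
    ∃! U : Fin m → Form (α ⊕ Fin m), PartialUnfolding D H U := by
  classical
  have hcongr : ∀ (U U' : Fin m → Form (α ⊕ Fin m)) (i : Fin m), (∀ j < i, U j = U' j) →
      pUnf U (D i) = pUnf U' (D i) := by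
    intro U U' i h
    apply Form.subst_congr
    rintro (x | j) hx
    · rfl
    · exact h j (hD i j hx)
  have hex : ∀ n : ℕ, ∃ U : Fin m → Form (α ⊕ Fin m), (∀ i ∈ H, U i = .var (Sum.inr i)) ∧
      ∀ i : Fin m, i ∉ H → i.1 < n → U i = pUnf U (D i) := by
    intro n
    induction n with
    | zero =>
      exact ⟨fun i => .var (Sum.inr i), fun _ _ => rfl, fun i _ hi => absurd hi (Nat.not_lt_zero _)⟩
    | succ n ih =>
      obtain ⟨U, hK, hU⟩ := ih
      by_cases hn : ∃ h : n < m, (⟨n, h⟩ : Fin m) ∉ H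
      · obtain ⟨hn, hnH⟩ := hn
        refine ⟨Function.update U ⟨n, hn⟩ (pUnf U (D ⟨n, hn⟩)), ?_, ?_⟩
        · intro i hi
          have hne : i ≠ ⟨n, hn⟩ := fun h => hnH (h ▸ hi)
          rw [Function.update_of_ne hne]
          exact hK i hi
        · intro i hiH hi
          have hlt : ∀ j < i, U j = Function.update U ⟨n, hn⟩ (pUnf U (D ⟨n, hn⟩)) j := by
            intro j hj
            have hj' : j ≠ ⟨n, hn⟩ := by
              intro h
              rw [h] at hj
              have : n < i.1 := hj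
              omega
            rw [Function.update_of_ne hj']
          rw [← hcongr U _ i hlt]
          by_cases hin : i.1 = n
          · have : i = ⟨n, hn⟩ := Fin.ext hin
            subst this
            rw [Function.update_self]
          · have hi' : i ≠ ⟨n, hn⟩ := fun h => hin (congrArg Fin.val h)
            rw [Function.update_of_ne hi']
            exact hU i hiH (by omega)
      · refine ⟨U, hK, fun i hiH hi => hU i hiH ?_⟩
        by_contra hcon
        have hin : i.1 = n := by omega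
        exact hn ⟨hin ▸ i.2, fun h => hiH (by
          have : i = ⟨n, hin ▸ i.2⟩ := Fin.ext hin
          rw [this]
          exact h)⟩
  obtain ⟨U, hK, hU⟩ := hex m
  refine ⟨U, ⟨hK, fun i hi => hU i hi i.2⟩, ?_⟩
  rintro U' ⟨hK', hU'⟩
  funext i
  induction i using WellFoundedLT.induction with
  | ind i ih =>
    by_cases hi : i ∈ H
    · rw [hK i hi, hK' i hi]
    · rw [hU' i hi, hU i hi i.2]
      exact hcongr U' U i ih

end Pool.Agent.EFS
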