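import Pool.Agent.Lib.EFT.Strong
import Pool.Agent.Lib.EFS.Inst

/-!
# No refutation, from the numbers `EFS.Nums` (project EFS)

As `Pool.Agent.EFT.Strong.no_refutation`.
-/

set_option autoImplicit false

open Finset

namespace Pool.Agent.EFS

open Pool.Agent.EFT Pool.Agent.EFT.Strong

theorem no_refutation (𝓡 : List FrRule) (h𝓡 : ∀ ρ ∈ 𝓡, ρ.Sound) {k k' hh L' L M K : ℕ}
    [NeZero k] [NeZero k']
    (N : Pool.Agent.EFS.Nums k k' hh L' (M * (60 * L ^ 4 + L)) (ruleN 𝓡 + 10) (cc 𝓡)) (hK : 2 ≤ K)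
    (hL' : 60 * L * 2 ^ Nat.log K L + 3 ≤ L') (hh' : 6 * K * (Nat.log 2 L + 1) ^ 2 + 2 ≤ hh)
    (b : CCC.V k → ZMod 2) (hb : ∑ v, b v = 1) {m : ℕ}
    (D : Fin m → Form (CCC.E k ⊕ Fin m)) (C : Fin M → Form (CCC.E k ⊕ Fin m))
    (U : Fin m → Form (CCC.E k)) (hU : ∀ i, U i = unfold U (D i))
    (href : IsRefutation 𝓡 (tseitin b) D C) (hL : ∀ t, (unfold U (C t)).leaves ≤ L) : False := by
  classical
  have hC := cc_nonneg 𝓡
  set P : ℕ := 60 * L ^ 4 + L with hP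
  set o : CCC.E k := Sum.inl (0, 0) with ho
  set ln0 : Fin M → Fm (CCC.E k) := fun t => (unfold U (C t)).tr with hln0
  have hlv : ∀ t, (ln0 t).lv ≤ L := fun t => by rw [hln0]; simp only [Form.lv_tr]; exact hL t
  set ln : Fin (M * P) → Fm (CCC.E k) := fun i =>
    (fam K b o (ln0 (finProdFinEquiv.symm i).1)).getD (finProdFinEquiv.symm i).2 (.var o) with hln
  have hln1 : ∀ t, ∀ φ ∈ fam K b o (ln0 t), ∃ i, ln i = φ := by
    intro t φ hφ
    obtain ⟨j, hj, he⟩ := List.getElem_of_mem hφ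
    have hj' : j < P := lt_of_lt_of_le hj (length_fam K b o (hlv t))
    refine ⟨finProdFinEquiv (t, ⟨j, hj'⟩), ?_⟩
    simp only [hln, Equiv.symm_apply_apply]
    rw [List.getD_eq_getElem _ _ hj, he]
  have hln2 : ∀ i, (ln i).lv ≤ L' ∧ (ln i).ah ≤ hh := by
    intro i
    set t := (finProdFinEquiv.symm i).1 with ht
    set j : ℕ := ((finProdFinEquiv.symm i).2 : Fin P).1 with hj
    by_cases h : j < (fam K b o (ln0 t)).length
    · have h1 : ln i ∈ fam K b o (ln0 t) := by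
        simp only [hln]
        rw [List.getD_eq_getElem _ _ h]
        exact List.getElem_mem _
      have h2 := size_fam hK b o (hlv t) _ h1
      exact ⟨h2.1.trans hL', h2.2.trans hh'⟩
    · have h1 : ln i = .var o := by
        simp only [hln]
        exact List.getD_eq_default _ _ (not_lt.mp h)
      rw [h1]
      have h2 : (Fm.var o).lv = 1 := rfl
      have h3 : (Fm.var o).ah = 0 := rfl
      omega
  set b' : CCC.V k' → ZMod 2 := Pi.single (0, 0) 1 with hb'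
  have hb1 : ∑ v, b' v = 1 := by
    rw [hb', Finset.sum_pi_single']
    simp
  obtain ⟨T, F, B, I, hV, hand, hneg, hsm, hI⟩ := Pool.Agent.EFS.Inst.val_CCC N hC b b' (by rw [hb, hb1]) ln hln2
  have hB := hV.Bpos
  have hI0 := hV.Ipos
  have c1 := Bal.balC_nonneg
  have c2 := Bal.balB_nonneg
  have c3 := ruleC_nonneg 𝓡
  have hBI : 0 ≤ B + I := by linarith
  have hn := N.hn
  have hd : ∀ a, a ≤ hh + 8 → a * (12 * N.p) ≤ (hh + 8) * (12 * N.p) := fun a ha => Nat.mul_le_mul_right _ ha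
  have hsmall : ∀ x : ℝ, x ≤ cc 𝓡 * (B + I) → T.A (12 * N.p) * x ≤ 1 / 2 := fun x hx =>
    (mul_le_mul_of_nonneg_left hx (T.A_nonneg _)).trans hsm
  have hcc : cc 𝓡 * (B + I) = Bal.balC * (B + I) + ruleC 𝓡 * (Bal.balB * (B + I) + (B + I)) +
      3 * (Bal.balB * (B + I) + (B + I)) := by
    unfold cc
    ring
  have p1 : 0 ≤ Bal.balC * (B + I) := mul_nonneg c1 hBI
  have p2 : 0 ≤ Bal.balB * (B + I) := mul_nonneg c2 hBI
  have p3 : 0 ≤ ruleC 𝓡 * (Bal.balB * (B + I) + (B + I)) := mul_nonneg c3 (by linarith)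
  have hV0 := Bal.val_bal hV K o (hd 13 (by omega)) (hsmall _ (by rw [hcc]; linarith))
    (S0 := fun f => ∃ t, (ln0 t).Sub f) (fun f g ⟨t, ht⟩ hg => ⟨t, ht.trans hg⟩)
    (fun f ⟨t, ht⟩ => Bal.mem_gens K o (fun f => ∃ i, (ln i).Sub f) (ln0 t) (fun φ hφ => by
      obtain ⟨i, hi⟩ := hln1 t φ (by rw [fam]; exact List.mem_append_left _ hφ)
      exact ⟨i, by rw [hi]; exact Fm.Sub.refl φ⟩) f ht)
  refine syn_false hV0 𝓡 h𝓡 (hd _ (by omega)) (hsmall _ ?_) hI (tseitin b) D C U hU href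
    (fun t => ⟨t, Fm.Sub.refl _⟩) ?_
  · rw [hcc]
    have : ruleC 𝓡 * (Bal.balB * (B + I) + I) ≤ ruleC 𝓡 * (Bal.balB * (B + I) + (B + I)) :=
      mul_le_mul_of_nonneg_left (by linarith) c3
    linarith
  · intro c hc hS0
    obtain ⟨g, h, he, hq⟩ := CCC.clause_vac b (Dl := N.Dl) N.D3
      (lt_of_le_of_lt (Nat.mul_le_mul_left _ ((by norm_num : 3 ≤ 8).trans (Nat.le_add_left 8 _)))
        N.rad) hc
    have h0 := hand g h hq
    have hS : ∃ i, (ln i).Sub (.and g h) := by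
      obtain ⟨t, ht⟩ := hS0
      rw [he] at ht
      have ht' : (ln0 t).Sub (.and g h) := ht.trans (Or.inr (Fm.Sub.refl _))
      obtain ⟨i, hi⟩ := hln1 t (.and g h) (by
        rw [fam, List.mem_append, List.mem_map]
        refine Or.inr ⟨(g, h), Fm.mem_ands.2 ht', ?_⟩
        rw [if_pos ⟨c, hc, he⟩])
      exact ⟨i, by rw [hi]; exact Fm.Sub.refl _⟩
    obtain ⟨e1, e2, e3, a1, a2, a3, ht⟩ := tr_clause hc
    have he' := he.symm.trans ht
    rw [Fm.neg.injEq] at he'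
    rw [he'] at hS h0
    rw [ht] at hS0 ⊢
    exact clause_le hV hneg K o hV0 (bal_lit hneg K o _ _) (bal_lit hneg K o _ _)
      (bal_lit hneg K o _ _) hS0 hS h0 (hd 2 (by omega)) (hsmall _ (by rw [hcc]; linarith))


end Pool.Agent.EFS
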